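import Pool.Agent.U797.RC.Kernel
import Pool.Agent.Y394.AT.Grow

set_option autoImplicit false

/-!
# Edges with the weight of the lighter end: the walk to much lighter neighbours
-/

namespace Pool.Agent.U797.DG

open Finset Pool.Agent.Y394.AT Pool.Agent.U797.RC

variable {V : Type} [Fintype V]

open Classical in
/-- the weight of an edge: the weight of its lighter end -/
noncomputable def pm (G : SimpleGraph V) (w : V → ℝ) (x y : V) : ℝ :=
  if G.Adj x y then min (w x) (w y) else 0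

/-- the weighted square norm -/
noncomputable def N2 (w f : V → ℝ) : ℝ := ∑ v, w v * f v ^ 2

/-- the weighted degrees are at most `Δ` times the weights -/
structure Sys (G : SimpleGraph V) (w : V → ℝ) (Δ : ℝ) : Prop where
  pos : ∀ v, 0 < w v
  one : 1 ≤ Δ
  deg : ∀ v, ∑ u, pm G w v u ≤ Δ * w v

omit [Fintype V] in
theorem pm_nonneg {G : SimpleGraph V} {w : V → ℝ} (hw : ∀ v, 0 ≤ w v) (x y : V) :
    0 ≤ pm G w x y := by
  unfold pm
  split_ifs
  · exact le_min (hw x) (hw y)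
  · exact le_rfl

omit [Fintype V] in
theorem pm_comm (G : SimpleGraph V) (w : V → ℝ) (x y : V) : pm G w x y = pm G w y x := by
  unfold pm
  rw [min_comm, G.adj_comm]

omit [Fintype V] in
theorem pm_self (G : SimpleGraph V) (w : V → ℝ) (x : V) : pm G w x x = 0 := by
  unfold pm
  rw [if_neg (G.irrefl)]

omit [Fintype V] in
theorem pm_adj {G : SimpleGraph V} (w : V → ℝ) {x y : V} (h : G.Adj x y) :
    pm G w x y = min (w x) (w y) := if_pos h

theorem N2_nonneg {w : V → ℝ} (hw : ∀ v, 0 ≤ w v) (f : V → ℝ) : 0 ≤ N2 w f :=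
  sum_nonneg fun v _ => mul_nonneg (hw v) (sq_nonneg _)

variable {G : SimpleGraph V} {w : V → ℝ} {Δ lam γ : ℝ}

/-- Schur's bound -/
theorem Q_le (h : Sys G w Δ) (f : V → ℝ) : Q (pm G w) f ≤ Δ * N2 w f := by
  have hw : ∀ v, 0 ≤ w v := fun v => (h.pos v).le
  have h1 : Q (pm G w) f ≤ ∑ x, ∑ y, (pm G w x y * f x ^ 2 / 2 + pm G w x y * f y ^ 2 / 2) := by
    unfold Q Bf
    refine sum_le_sum fun x _ => sum_le_sum fun y _ => ?_
    have h2 := pm_nonneg (G := G) hw x y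
    nlinarith [mul_nonneg h2 (sq_nonneg (f x - f y))]
  have h3 : ∑ x, ∑ y, (pm G w x y * f x ^ 2 / 2 + pm G w x y * f y ^ 2 / 2) =
      ∑ x, (∑ y, pm G w x y) * f x ^ 2 := by
    have h4 : ∑ x, ∑ y, pm G w x y * f y ^ 2 / 2 = ∑ x, ∑ y, pm G w x y * f x ^ 2 / 2 := by
      rw [sum_comm]
      refine sum_congr rfl fun x _ => sum_congr rfl fun y _ => ?_
      rw [pm_comm]
    simp only [sum_add_distrib]
    rw [h4, ← sum_add_distrib]
    refine sum_congr rfl fun x _ => ?_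
    rw [← sum_add_distrib, sum_mul]
    exact sum_congr rfl fun y _ => by ring
  rw [h3] at h1
  refine h1.trans ?_
  unfold N2
  rw [mul_sum]
  refine sum_le_sum fun x _ => ?_
  have := mul_le_mul_of_nonneg_right (h.deg x) (sq_nonneg (f x))
  linarith

open Classical in
/-- the much lighter neighbours -/
noncomputable def Ln (G : SimpleGraph V) (w : V → ℝ) (lam : ℝ) (x : V) : Finset V :=
  (nb G x).filter (fun y => w y ≤ lam * w x)

theorem mem_Ln {x y : V} : y ∈ Ln G w lam x ↔ G.Adj x y ∧ w y ≤ lam * w x := by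
  unfold Ln
  rw [mem_filter, mem_nb]

theorem sum_light (h : Sys G w Δ) (x : V) (S : Finset V)
    (hS : ∀ y ∈ S, G.Adj x y ∧ w y ≤ w x) : ∑ y ∈ S, w y ≤ Δ * w x := by
  refine le_trans ?_ (h.deg x)
  have h1 : ∀ y ∈ S, w y = pm G w x y := by
    intro y hy
    rw [pm_adj w (hS y hy).1, min_eq_right (hS y hy).2]
  rw [sum_congr rfl h1]
  exact sum_le_sum_of_subset_of_nonneg (subset_univ _)
    fun y _ _ => pm_nonneg (fun v => (h.pos v).le) x y

theorem card_heavy (h : Sys G w Δ) (y : V) (S : Finset V)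
    (hS : ∀ x ∈ S, G.Adj y x ∧ w y ≤ w x) : (S.card : ℝ) ≤ Δ := by
  have h1 : (S.card : ℝ) * w y ≤ Δ * w y := by
    refine le_trans ?_ (h.deg y)
    rw [← nsmul_eq_mul, ← sum_const]
    have h2 : ∀ x ∈ S, w y = pm G w y x := by
      intro x hx
      rw [pm_adj w (hS x hx).1, min_eq_left (hS x hx).2]
    rw [sum_congr rfl h2]
    exact sum_le_sum_of_subset_of_nonneg (subset_univ _)
      fun x _ _ => pm_nonneg (fun v => (h.pos v).le) y x
  exact le_of_mul_le_mul_right h1 (h.pos y)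

theorem sum_Ln (h : Sys G w Δ) (hl1 : lam ≤ 1) (x : V) :
    ∑ y ∈ Ln G w lam x, w y ≤ Δ * w x := by
  apply sum_light h
  intro y hy
  have h1 := mem_Ln.1 hy
  refine ⟨h1.1, h1.2.trans ?_⟩
  have := mul_le_mul_of_nonneg_right hl1 (h.pos x).le
  linarith

open Classical in
theorem card_up (h : Sys G w Δ) (hl1 : lam ≤ 1) (y : V) :
    (((univ : Finset V).filter (fun x => y ∈ Ln G w lam x)).card : ℝ) ≤ Δ := by
  apply card_heavy h y
  intro x hx
  have h1 := mem_Ln.1 (mem_filter.1 hx).2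
  refine ⟨h1.1.symm, h1.2.trans ?_⟩
  have := mul_le_mul_of_nonneg_right hl1 (h.pos x).le
  linarith

/-- one step to a much lighter neighbour -/
noncomputable def Wk (G : SimpleGraph V) (w : V → ℝ) (Δ lam γ : ℝ) (φ : V → ℝ) (x : V) : ℝ :=
  (∑ y ∈ Ln G w lam x, w y * φ y) / (γ * Δ * w x)

theorem Wk_nonneg (h : Sys G w Δ) (hγ : 0 < γ) {φ : V → ℝ} (hφ : ∀ v, 0 ≤ φ v) (x : V) :
    0 ≤ Wk G w Δ lam γ φ x := by
  have h1 := h.one
  exact div_nonneg (sum_nonneg fun y _ => mul_nonneg (h.pos y).le (hφ y))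
    (mul_nonneg (mul_nonneg hγ.le (by linarith)) (h.pos x).le)

theorem iter_nonneg (h : Sys G w Δ) (hγ : 0 < γ) {φ : V → ℝ} (hφ : ∀ v, 0 ≤ φ v) (n : ℕ) :
    ∀ x, 0 ≤ (Wk G w Δ lam γ)^[n] φ x := by
  induction n with
  | zero => exact hφ
  | succ n ih =>
    intro x
    rw [Function.iterate_succ_apply']
    exact Wk_nonneg h hγ ih x

theorem Wk_mono (h : Sys G w Δ) (hγ : 0 < γ) {φ ψ : V → ℝ} (hφ : ∀ v, φ v ≤ ψ v) (x : V) :
    Wk G w Δ lam γ φ x ≤ Wk G w Δ lam γ ψ x := by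
  have h1 := h.one
  unfold Wk
  apply div_le_div_of_nonneg_right _ (mul_nonneg (mul_nonneg hγ.le (by linarith)) (h.pos x).le)
  exact sum_le_sum fun y _ => mul_le_mul_of_nonneg_left (hφ y) (h.pos y).le

theorem iter_mono (h : Sys G w Δ) (hγ : 0 < γ) {φ ψ : V → ℝ} (hφ : ∀ v, φ v ≤ ψ v) (n : ℕ) :
    ∀ x, (Wk G w Δ lam γ)^[n] φ x ≤ (Wk G w Δ lam γ)^[n] ψ x := by
  induction n with
  | zero => exact hφ
  | succ n ih =>
    intro x
    rw [Function.iterate_succ_apply', Function.iterate_succ_apply']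
    exact Wk_mono h hγ ih x

theorem Wk_add (φ ψ : V → ℝ) :
    Wk G w Δ lam γ (fun v => φ v + ψ v) =
      fun x => Wk G w Δ lam γ φ x + Wk G w Δ lam γ ψ x := by
  funext x
  unfold Wk
  rw [← add_div, ← sum_add_distrib]
  congr 1
  exact sum_congr rfl fun y _ => by ring

theorem iter_add (φ ψ : V → ℝ) (n : ℕ) : (Wk G w Δ lam γ)^[n] (fun v => φ v + ψ v) =
    fun x => (Wk G w Δ lam γ)^[n] φ x + (Wk G w Δ lam γ)^[n] ψ x := by
  induction n with
  | zero => rfl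
  | succ n ih =>
    rw [Function.iterate_succ_apply', ih, Wk_add]
    funext x
    rw [Function.iterate_succ_apply', Function.iterate_succ_apply']

open Classical in
/-- summation of a step over a set of vertices -/
theorem sum_step (h : Sys G w Δ) (hl : 0 ≤ lam) (hl1 : lam ≤ 1) {φ : V → ℝ}
    (hφ : ∀ v, 0 ≤ φ v) (b : ℝ) :
    ∑ x ∈ univ.filter (fun x => w x ≤ b), ∑ y ∈ Ln G w lam x, w y * φ y ≤
      Δ * ∑ y ∈ univ.filter (fun y => w y ≤ lam * b), w y * φ y := by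
  have h1 : ∑ x ∈ univ.filter (fun x => w x ≤ b), ∑ y ∈ Ln G w lam x, w y * φ y ≤
      ∑ x, ∑ y ∈ univ.filter (fun y => w y ≤ lam * b),
        if y ∈ Ln G w lam x then w y * φ y else 0 := by
    rw [← sum_filter_add_sum_filter_not univ (fun x => w x ≤ b)
      (fun x => ∑ y ∈ univ.filter (fun y => w y ≤ lam * b),
        if y ∈ Ln G w lam x then w y * φ y else 0)]
    refine le_add_of_le_of_nonneg (sum_le_sum fun x hx => ?_) (sum_nonneg fun x _ =>
      sum_nonneg fun y _ => ?_)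
    · rw [← sum_filter]
      apply sum_le_sum_of_subset_of_nonneg
      · intro y hy
        rw [mem_filter, mem_filter]
        refine ⟨⟨mem_univ _, ?_⟩, hy⟩
        exact (mem_Ln.1 hy).2.trans (mul_le_mul_of_nonneg_left (mem_filter.1 hx).2 hl)
      · intro y _ _
        exact mul_nonneg (h.pos y).le (hφ y)
    · split_ifs
      · exact mul_nonneg (h.pos y).le (hφ y)
      · exact le_rfl
  refine h1.trans ?_
  rw [sum_comm, mul_sum]
  refine sum_le_sum fun y _ => ?_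
  rw [← sum_filter, sum_const, nsmul_eq_mul]
  exact mul_le_mul_of_nonneg_right (card_up h hl1 y) (mul_nonneg (h.pos y).le (hφ y))

open Classical in
/-- the mass of the walk -/
theorem mass (h : Sys G w Δ) (hγ : 0 < γ) (hl : 0 ≤ lam) (hl1 : lam ≤ 1) (x : V) (n : ℕ) :
    ∀ φ : V → ℝ, (∀ v, 0 ≤ φ v) → w x * (Wk G w Δ lam γ)^[n + 1] φ x ≤
      (γ⁻¹) ^ (n + 1) / Δ * ∑ y ∈ univ.filter (fun y => w y ≤ lam ^ (n + 1) * w x), w y * φ y := by
  have hΔ : 0 < Δ := lt_of_lt_of_le one_pos h.one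
  have hwx := h.pos x
  induction n with
  | zero =>
    intro φ hφ
    change w x * Wk G w Δ lam γ φ x ≤ _
    unfold Wk
    have h1 : w x * ((∑ y ∈ Ln G w lam x, w y * φ y) / (γ * Δ * w x)) =
        (γ⁻¹) ^ (0 + 1) / Δ * ∑ y ∈ Ln G w lam x, w y * φ y := by
      rw [zero_add, pow_one]
      field_simp
    rw [h1]
    apply mul_le_mul_of_nonneg_left _ (by positivity)
    apply sum_le_sum_of_subset_of_nonneg
    · intro y hy
      rw [mem_filter, zero_add, pow_one]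
      exact ⟨mem_univ _, (mem_Ln.1 hy).2⟩
    · intro y _ _
      exact mul_nonneg (h.pos y).le (hφ y)
  | succ n ih =>
    intro φ hφ
    rw [Function.iterate_succ_apply]
    refine (ih _ (Wk_nonneg h hγ hφ)).trans ?_
    have h2 : ∀ y, w y * Wk G w Δ lam γ φ y = (γ * Δ)⁻¹ * ∑ z ∈ Ln G w lam y, w z * φ z := by
      intro y
      have := (h.pos y)
      unfold Wk
      field_simp
    rw [sum_congr rfl (fun y _ => h2 y), ← mul_sum]
    have h3 := sum_step h hl hl1 hφ (lam ^ (n + 1) * w x)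
    have h4 : lam * (lam ^ (n + 1) * w x) = lam ^ (n + 1 + 1) * w x := by ring
    rw [h4] at h3
    obtain ⟨E, hE⟩ : ∃ E : ℝ, E = ∑ y ∈ univ.filter (fun y => w y ≤ lam ^ (n + 1 + 1) * w x),
        w y * φ y := ⟨_, rfl⟩
    rw [← hE] at h3 ⊢
    have h5 : (γ⁻¹) ^ (n + 1) / Δ * ((γ * Δ)⁻¹ * (Δ * E)) = (γ⁻¹) ^ (n + 1 + 1) / Δ * E := by
      rw [pow_succ γ⁻¹ (n + 1)]
      field_simp
    rw [← h5]
    apply mul_le_mul_of_nonneg_left _ (by positivity)
    exact mul_le_mul_of_nonneg_left h3 (by positivity)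

/-- the step contracts the norm, up to `γ` -/
theorem N2_Wk (h : Sys G w Δ) (hγ : 0 < γ) (hl1 : lam ≤ 1) (φ : V → ℝ) :
    N2 w (Wk G w Δ lam γ φ) ≤ (γ⁻¹) ^ 2 * N2 w φ := by
  classical
  have hΔ : 0 < Δ := lt_of_lt_of_le one_pos h.one
  have h1 : ∀ x, w x * (Wk G w Δ lam γ φ x) ^ 2 ≤
      (γ ^ 2 * Δ)⁻¹ * ∑ y ∈ Ln G w lam x, w y * φ y ^ 2 := by
    intro x
    have hwx := h.pos x
    have h2 : (∑ y ∈ Ln G w lam x, w y * φ y) ^ 2 ≤
        (Δ * w x) * ∑ y ∈ Ln G w lam x, w y * φ y ^ 2 := by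
      have h3 := sum_mul_sq_le_sq_mul_sq (Ln G w lam x) (fun y => Real.sqrt (w y))
        (fun y => Real.sqrt (w y) * φ y)
      have h4 : ∀ y ∈ Ln G w lam x, Real.sqrt (w y) * (Real.sqrt (w y) * φ y) = w y * φ y := by
        intro y _
        rw [← mul_assoc, Real.mul_self_sqrt (h.pos y).le]
      have h5 : ∀ y ∈ Ln G w lam x, Real.sqrt (w y) ^ 2 = w y := by
        intro y _
        rw [Real.sq_sqrt (h.pos y).le]
      have h6 : ∀ y ∈ Ln G w lam x, (Real.sqrt (w y) * φ y) ^ 2 = w y * φ y ^ 2 := by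
        intro y _
        rw [mul_pow, Real.sq_sqrt (h.pos y).le]
      rw [sum_congr rfl h4, sum_congr rfl h5, sum_congr rfl h6] at h3
      refine h3.trans ?_
      apply mul_le_mul_of_nonneg_right (sum_Ln h hl1 x)
      exact sum_nonneg fun y _ => mul_nonneg (h.pos y).le (sq_nonneg _)
    have h7 : w x * (Wk G w Δ lam γ φ x) ^ 2 =
        (γ ^ 2 * Δ ^ 2 * w x)⁻¹ * (∑ y ∈ Ln G w lam x, w y * φ y) ^ 2 := by
      unfold Wk
      field_simp
    rw [h7]
    calc (γ ^ 2 * Δ ^ 2 * w x)⁻¹ * (∑ y ∈ Ln G w lam x, w y * φ y) ^ 2 ≤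
          (γ ^ 2 * Δ ^ 2 * w x)⁻¹ * ((Δ * w x) * ∑ y ∈ Ln G w lam x, w y * φ y ^ 2) :=
          mul_le_mul_of_nonneg_left h2 (by positivity)
      _ = (γ ^ 2 * Δ)⁻¹ * ∑ y ∈ Ln G w lam x, w y * φ y ^ 2 := by
          field_simp
  unfold N2
  refine (sum_le_sum fun x _ => h1 x).trans ?_
  rw [← mul_sum]
  have h8 : ∑ x, ∑ y ∈ Ln G w lam x, w y * φ y ^ 2 ≤ Δ * ∑ y, w y * φ y ^ 2 := by
    have h9 : ∀ x, ∑ y ∈ Ln G w lam x, w y * φ y ^ 2 =
        ∑ y, if y ∈ Ln G w lam x then w y * φ y ^ 2 else 0 := by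
      intro x
      rw [← sum_filter]
      congr 1
      ext y
      simp
    rw [sum_congr rfl (fun x _ => h9 x), sum_comm, mul_sum]
    refine sum_le_sum fun y _ => ?_
    rw [← sum_filter, sum_const, nsmul_eq_mul]
    exact mul_le_mul_of_nonneg_right (card_up h hl1 y) (mul_nonneg (h.pos y).le (sq_nonneg _))
  calc (γ ^ 2 * Δ)⁻¹ * ∑ x, ∑ y ∈ Ln G w lam x, w y * φ y ^ 2 ≤
        (γ ^ 2 * Δ)⁻¹ * (Δ * ∑ y, w y * φ y ^ 2) :=
        mul_le_mul_of_nonneg_left h8 (by positivity)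
    _ = (γ⁻¹) ^ 2 * ∑ y, w y * φ y ^ 2 := by
        field_simp

theorem N2_iter (h : Sys G w Δ) (hγ : 0 < γ) (hl1 : lam ≤ 1) (φ : V → ℝ) (n : ℕ) :
    N2 w ((Wk G w Δ lam γ)^[n] φ) ≤ ((γ⁻¹) ^ n) ^ 2 * N2 w φ := by
  induction n with
  | zero => simp
  | succ n ih =>
    rw [Function.iterate_succ_apply']
    refine (N2_Wk h hγ hl1 _).trans ?_
    calc (γ⁻¹) ^ 2 * N2 w ((Wk G w Δ lam γ)^[n] φ) ≤ (γ⁻¹) ^ 2 * (((γ⁻¹) ^ n) ^ 2 * N2 w φ) :=
          mul_le_mul_of_nonneg_left ih (by positivity)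
      _ = ((γ⁻¹) ^ (n + 1)) ^ 2 * N2 w φ := by ring

end Pool.Agent.U797.DG
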