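import Pool.Agent.U797.DG.Hit
import Pool.Agent.U797.GC.Tree

set_option autoImplicit false

/-!
# Random induced copies of a rooted tree, all edges going down to much lighter vertices
-/

namespace Pool.Agent.U797.DG

open Finset Pool.Agent.Y394.AT Pool.Agent.U797.RC Pool.Agent.U797.GC
open Pool.Agent.U797.GC.BT

variable {V : Type} [Fintype V]

/-- `f` is an induced copy of `t` with root `x`, all other vertices being much lighter than `x` -/
structure Copy (G : SimpleGraph V) (w : V → ℝ) (lam : ℝ) (x : V) (t : BT) (f : Nd t → V) :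
    Prop where
  root : f (root t) = x
  inj : Function.Injective f
  adj : ∀ a b, adj t a b ↔ G.Adj (f a) (f b)
  low : ∀ a, a = BT.root t ∨ w (f a) ≤ lam * w x

/-- there is a probability measure on the copies of `t` with root `x` whose one-point marginals are
bounded by the walk down -/
structure Mu (G : SimpleGraph V) (w : V → ℝ) (Δ lam γ C : ℝ) (x : V) (t : BT)
    (μ : (Nd t → V) → ℝ) : Prop where
  nonneg : ∀ f, 0 ≤ μ f
  sum : ∑ f, μ f = 1
  copy : ∀ f, μ f ≠ 0 → Copy G w lam x t f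
  dom : ∀ (a : Nd t) (φ : V → ℝ), (∀ v, 0 ≤ φ v) →
    ∑ f, μ f * φ (f a) ≤ C * (Wk G w Δ lam γ)^[depth t a] φ x

open Classical in
/-- the vertices with many steps down into `U i`, iterated -/
noncomputable def U (G : SimpleGraph V) (w : V → ℝ) (Δ lam γ : ℝ) : ℕ → Finset V
  | 0 => univ
  | i + 1 => univ.filter (fun v => γ * Δ * w v ≤ ∑ y ∈ Ln G w lam v ∩ U G w Δ lam γ i, w y)

open Classical in
theorem mem_U_succ {G : SimpleGraph V} {w : V → ℝ} {Δ lam γ : ℝ} {i : ℕ} {v : V} :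
    v ∈ U G w Δ lam γ (i + 1) ↔
      γ * Δ * w v ≤ ∑ y ∈ Ln G w lam v ∩ U G w Δ lam γ i, w y := by
  rw [U, mem_filter]
  simp

theorem U_anti {G : SimpleGraph V} {w : V → ℝ} {Δ lam γ : ℝ} (hw : ∀ v, 0 < w v) (i : ℕ) :
    U G w Δ lam γ (i + 1) ⊆ U G w Δ lam γ i := by
  classical
  induction i with
  | zero => intro v _; rw [U]; exact mem_univ v
  | succ i ih =>
    intro v hv
    rw [mem_U_succ] at hv ⊢
    refine hv.trans ?_
    exact sum_le_sum_of_subset_of_nonneg (inter_subset_inter_left ih) fun y _ _ => (hw y).le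

theorem U_le {G : SimpleGraph V} {w : V → ℝ} {Δ lam γ : ℝ} (hw : ∀ v, 0 < w v) {i j : ℕ}
    (h : i ≤ j) : U G w Δ lam γ j ⊆ U G w Δ lam γ i := by
  induction j with
  | zero => rw [Nat.le_zero.1 h]
  | succ j ih =>
    rcases Nat.lt_or_ge i (j + 1) with h1 | h1
    · exact (U_anti hw j).trans (ih (Nat.lt_succ_iff.1 h1))
    · rw [le_antisymm h h1]

theorem mu_nil (G : SimpleGraph V) (w : V → ℝ) (Δ lam γ : ℝ) (x : V) :
    ∃ μ, Mu G w Δ lam γ 1 x BT.nil μ := by
  classical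
  refine ⟨fun f => if f = fun _ => x then 1 else 0, ?_, ?_, ?_, ?_⟩
  · intro f
    split_ifs <;> norm_num
  · rw [sum_ite_eq' univ (fun _ => x) (fun _ => (1 : ℝ)), if_pos (mem_univ _)]
  · intro f hf
    have hf' : f = fun _ => x := by
      by_contra h
      exact hf (if_neg h)
    subst hf'
    refine ⟨rfl, fun a b _ => rfl, ?_, ?_⟩
    · intro a b
      exact ⟨fun h => h.elim, fun h => (G.irrefl h).elim⟩
    · intro a
      exact Or.inl rfl
  · intro a φ hφ
    have h1 : ∀ f : Nd BT.nil → V, (if f = fun _ => x then (1 : ℝ) else 0) * φ (f a) =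
        if f = fun _ => x then φ x else 0 := by
      intro f
      split_ifs with h
      · rw [h, one_mul]
      · rw [zero_mul]
    rw [sum_congr rfl (fun f _ => h1 f), sum_ite_eq' univ (fun _ => x) (fun _ => φ x),
      if_pos (mem_univ _), one_mul]
    exact le_rfl

/-- choosing a good child and a copy of `t` there -/
theorem child {G : SimpleGraph V} {w : V → ℝ} {Δ lam γ C : ℝ} (hs : Sys G w Δ) (hγ : 0 < γ)
    (hC : 0 ≤ C) (x : V) (t : BT)
    (S : Finset V) (hS : S ⊆ Ln G w lam x) (hSc : γ * Δ * w x ≤ ∑ y ∈ S, w y)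
    (h : ∀ y ∈ S, ∃ μ, Mu G w Δ lam γ C y t μ) :
    ∃ ν : (Nd t → V) → ℝ, (∀ f, 0 ≤ ν f) ∧ ∑ f, ν f = 1 ∧
      (∀ f, ν f ≠ 0 → ∃ y ∈ S, Copy G w lam y t f) ∧
      ∀ (a : Nd t) (φ : V → ℝ), (∀ v, 0 ≤ φ v) →
        ∑ f, ν f * φ (f a) ≤ C * (Wk G w Δ lam γ)^[depth t a + 1] φ x := by
  classical
  have hΔ : 0 < Δ := lt_of_lt_of_le one_pos hs.one
  have hx := hs.pos x
  have h' : ∀ y : V, ∃ μ : (Nd t → V) → ℝ, y ∈ S → Mu G w Δ lam γ C y t μ := by
    intro y
    by_cases hy : y ∈ S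
    · obtain ⟨μ, hμ⟩ := h y hy
      exact ⟨μ, fun _ => hμ⟩
    · exact ⟨fun _ => 0, fun h => absurd h hy⟩
  choose m hm using h'
  obtain ⟨W, hW⟩ : ∃ W : ℝ, W = ∑ y ∈ S, w y := ⟨_, rfl⟩
  rw [← hW] at hSc
  have hn : 0 < W := lt_of_lt_of_le (by positivity) hSc
  refine ⟨fun f => (∑ y ∈ S, w y * m y f) / W, ?_, ?_, ?_, ?_⟩
  · intro f
    exact div_nonneg (sum_nonneg fun y hy => mul_nonneg (hs.pos y).le ((hm y hy).nonneg f)) hn.le
  · rw [← sum_div, sum_comm]
    have h1 : ∀ y ∈ S, ∑ f, w y * m y f = w y := by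
      intro y hy
      rw [← mul_sum, (hm y hy).sum, mul_one]
    rw [sum_congr rfl h1, ← hW, div_self hn.ne']
  · intro f hf
    have h1 : ∑ y ∈ S, w y * m y f ≠ 0 := by
      intro h0
      apply hf
      dsimp only
      rw [h0, zero_div]
    obtain ⟨y, hy, hne⟩ := exists_ne_zero_of_sum_ne_zero h1
    exact ⟨y, hy, (hm y hy).copy f (right_ne_zero_of_mul hne)⟩
  · intro a φ hφ
    have h1 : ∑ f, (∑ y ∈ S, w y * m y f) / W * φ (f a) =
        (∑ y ∈ S, w y * ∑ f, m y f * φ (f a)) / W := by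
      have h2 : ∑ y ∈ S, w y * ∑ f, m y f * φ (f a) =
          ∑ f, ∑ y ∈ S, w y * m y f * φ (f a) := by
        rw [sum_comm]
        refine sum_congr rfl fun y _ => ?_
        rw [mul_sum]
        exact sum_congr rfl fun f _ => by ring
      rw [h2, sum_div]
      refine sum_congr rfl fun f _ => ?_
      rw [div_mul_eq_mul_div, sum_mul]
    rw [h1]
    have h2 : ∑ y ∈ S, w y * ∑ f, m y f * φ (f a) ≤
        ∑ y ∈ S, w y * (C * (Wk G w Δ lam γ)^[depth t a] φ y) :=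
      sum_le_sum fun y hy => mul_le_mul_of_nonneg_left ((hm y hy).dom a φ hφ) (hs.pos y).le
    have h3 : ∑ y ∈ S, w y * (C * (Wk G w Δ lam γ)^[depth t a] φ y) ≤
        C * ∑ y ∈ Ln G w lam x, w y * (Wk G w Δ lam γ)^[depth t a] φ y := by
      have e1 : ∀ y ∈ S, w y * (C * (Wk G w Δ lam γ)^[depth t a] φ y) =
          C * (w y * (Wk G w Δ lam γ)^[depth t a] φ y) := fun y _ => by ring
      rw [sum_congr rfl e1, ← mul_sum]
      apply mul_le_mul_of_nonneg_left _ hC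
      exact sum_le_sum_of_subset_of_nonneg hS fun y _ _ =>
        mul_nonneg (hs.pos y).le (iter_nonneg hs hγ hφ _ y)
    have h4 : 0 ≤ C * ∑ y ∈ Ln G w lam x, w y * (Wk G w Δ lam γ)^[depth t a] φ y :=
      mul_nonneg hC (sum_nonneg fun y _ => mul_nonneg (hs.pos y).le (iter_nonneg hs hγ hφ _ y))
    calc (∑ y ∈ S, w y * ∑ f, m y f * φ (f a)) / W
        ≤ (C * ∑ y ∈ Ln G w lam x, w y * (Wk G w Δ lam γ)^[depth t a] φ y) / W :=
          div_le_div_of_nonneg_right (h2.trans h3) hn.le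
      _ ≤ (C * ∑ y ∈ Ln G w lam x, w y * (Wk G w Δ lam γ)^[depth t a] φ y) / (γ * Δ * w x) :=
          div_le_div_of_nonneg_left h4 (by positivity) hSc
      _ = C * (Wk G w Δ lam γ)^[depth t a + 1] φ x := by
          rw [Function.iterate_succ_apply', Wk, mul_div_assoc]

/-- the bad pairs of copies -/
def Bad (G : SimpleGraph V) (a b : BT) (p : (Nd a → V) × (Nd b → V)) : Prop :=
  ∃ st : Nd a × Nd b, ¬ (st.1 = BT.root a ∧ st.2 = BT.root b) ∧
    (p.2 st.2 = p.1 st.1 ∨ G.Adj (p.1 st.1) (p.2 st.2))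

open Classical in
/-- the probability of the bad pairs -/
theorem bad_le {G : SimpleGraph V} {w : V → ℝ} {Δ lam γ β C₁ C₂ : ℝ} (hs : Sys G w Δ)
    (hγ : 0 < γ) (hγ1 : γ ≤ 1) (hl : 0 ≤ lam) (hl1 : lam < 1) (hβ : 0 ≤ β)
    (hL : Light G w Δ lam β) (hC₂ : 0 ≤ C₂) (x : V) (a b : BT) (μ : (Nd a → V) → ℝ)
    (hμ : Mu G w Δ lam γ C₁ x a μ) (ν : (Nd b → V) → ℝ) (hν0 : ∀ f, 0 ≤ ν f)
    (hν : ∀ (t : Nd b) (φ : V → ℝ), (∀ v, 0 ≤ φ v) →
        ∑ f, ν f * φ (f t) ≤ C₂ * (Wk G w Δ lam γ)^[depth b t + 1] φ x) :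
    ∑ p : (Nd a → V) × (Nd b → V), (if Bad G a b p then μ p.1 * ν p.2 else 0) ≤
      Fintype.card (Nd a × Nd b) * (C₂ * ((3 * lam + β) * (γ⁻¹) ^ (ht b + 1))) := by
  have h1 : ∀ p : (Nd a → V) × (Nd b → V), (if Bad G a b p then μ p.1 * ν p.2 else 0) ≤
      ∑ st : Nd a × Nd b, if ¬ (st.1 = BT.root a ∧ st.2 = BT.root b) then
        μ p.1 * ν p.2 * cl G (p.1 st.1) (p.2 st.2) else 0 := by
    intro p
    have h0 : 0 ≤ μ p.1 * ν p.2 := mul_nonneg (hμ.nonneg _) (hν0 _)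
    have hnn : ∀ st ∈ (univ : Finset (Nd a × Nd b)),
        0 ≤ if ¬ (st.1 = BT.root a ∧ st.2 = BT.root b) then
        μ p.1 * ν p.2 * cl G (p.1 st.1) (p.2 st.2) else 0 := by
      intro st _
      split_ifs
      · exact le_rfl
      · exact mul_nonneg h0 (cl_nonneg _ _)
    by_cases hb : Bad G a b p
    · rw [if_pos hb]
      obtain ⟨st, hst, hst2⟩ := hb
      have h2 := single_le_sum hnn (mem_univ st)
      rw [if_pos hst] at h2
      have h3 : cl G (p.1 st.1) (p.2 st.2) = 1 := by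
        unfold cl
        exact if_pos hst2
      rw [h3, mul_one] at h2
      exact h2
    · rw [if_neg hb]
      exact sum_nonneg hnn
  refine (sum_le_sum fun p _ => h1 p).trans ?_
  rw [sum_comm]
  have h2 : ∀ st : Nd a × Nd b, (∑ p : (Nd a → V) × (Nd b → V),
      if ¬ (st.1 = BT.root a ∧ st.2 = BT.root b) then
        μ p.1 * ν p.2 * cl G (p.1 st.1) (p.2 st.2) else 0) ≤
      C₂ * ((3 * lam + β) * (γ⁻¹) ^ (ht b + 1)) := by
    intro st
    have hpos : 0 ≤ C₂ * ((3 * lam + β) * (γ⁻¹) ^ (ht b + 1)) := by positivity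
    by_cases hst : st.1 = BT.root a ∧ st.2 = BT.root b
    · rw [sum_eq_zero]
      · exact hpos
      · intro p _
        rw [if_neg (not_not.2 hst)]
    · have h3 : ∀ p : (Nd a → V) × (Nd b → V),
          (if ¬ (st.1 = BT.root a ∧ st.2 = BT.root b) then
            μ p.1 * ν p.2 * cl G (p.1 st.1) (p.2 st.2) else 0) =
          μ p.1 * (ν p.2 * cl G (p.1 st.1) (p.2 st.2)) := by
        intro p
        rw [if_pos hst, mul_assoc]
      rw [sum_congr rfl (fun p _ => h3 p), Fintype.sum_prod_type]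
      have h4 : ∀ f : Nd a → V, ∑ g : Nd b → V, μ f * (ν g * cl G (f st.1) (g st.2)) ≤
          μ f * (C₂ * ((3 * lam + β) * (γ⁻¹) ^ (ht b + 1))) := by
        intro f
        rw [← mul_sum]
        by_cases hf : μ f = 0
        · rw [hf, zero_mul, zero_mul]
        · apply mul_le_mul_of_nonneg_left _ (hμ.nonneg f)
          have hc := hμ.copy f hf
          refine (hν st.2 (cl G (f st.1)) (fun v => cl_nonneg _ v)).trans ?_
          apply mul_le_mul_of_nonneg_left _ hC₂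
          refine hit hs hγ hγ1 hl hl1 hβ hL x (f st.1) (depth_le b st.2) ?_
          rcases hc.low st.1 with h5 | h5
          · right
            refine ⟨by rw [h5]; exact hc.root, ?_⟩
            by_contra hlt
            have h6 : depth b st.2 = 0 := by omega
            exact hst ⟨h5, depth_eq_zero b _ h6⟩
          · left
            exact h5
      refine (sum_le_sum fun f _ => h4 f).trans ?_
      rw [← sum_mul, hμ.sum, one_mul]
  refine (sum_le_sum fun st _ => h2 st).trans ?_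
  rw [sum_const, nsmul_eq_mul, card_univ]

/-- the step -/
theorem mu_graft {G : SimpleGraph V} {w : V → ℝ} {Δ lam γ β C₁ C₂ : ℝ} (hs : Sys G w Δ)
    (hγ : 0 < γ) (hγ1 : γ ≤ 1) (hl : 0 ≤ lam) (hl1 : lam < 1) (hβ : 0 ≤ β)
    (hL : Light G w Δ lam β)
    (hC₁ : 1 ≤ C₁) (hC₂ : 1 ≤ C₂) (x : V) (a b : BT)
    (hsmall : Fintype.card (Nd a × Nd b) * (C₂ * ((3 * lam + β) * (γ⁻¹) ^ (ht b + 1))) ≤ 1 / 2)
    (μ : (Nd a → V) → ℝ) (hμ : Mu G w Δ lam γ C₁ x a μ) (ν : (Nd b → V) → ℝ)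
    (hν0 : ∀ f, 0 ≤ ν f)
    (hν1 : ∑ f, ν f = 1) (hνc : ∀ f, ν f ≠ 0 → ∃ y ∈ Ln G w lam x, Copy G w lam y b f)
    (hν : ∀ (t : Nd b) (φ : V → ℝ), (∀ v, 0 ≤ φ v) →
        ∑ f, ν f * φ (f t) ≤ C₂ * (Wk G w Δ lam γ)^[depth b t + 1] φ x) :
    ∃ ξ, Mu G w Δ lam γ (2 * (C₁ * C₂)) x (BT.graft a b) ξ := by
  classical
  have hbad := (bad_le hs hγ hγ1 hl hl1 hβ hL (by linarith) x a b μ hμ ν hν0 hν).trans hsmall
  -- the whole mass
  have hw : ∑ p : (Nd a → V) × (Nd b → V), μ p.1 * ν p.2 = 1 := by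
    rw [Fintype.sum_prod_type]
    simp only
    rw [← Fintype.sum_mul_sum, hμ.sum, hν1, one_mul]
  obtain ⟨P, hP⟩ : ∃ P : ℝ, P = ∑ p : (Nd a → V) × (Nd b → V),
      if Bad G a b p then 0 else μ p.1 * ν p.2 := ⟨_, rfl⟩
  have hPh : 1 / 2 ≤ P := by
    have h1 : P + ∑ p : (Nd a → V) × (Nd b → V), (if Bad G a b p then μ p.1 * ν p.2 else 0) = 1 := by
      rw [hP, ← sum_add_distrib, ← hw]
      refine sum_congr rfl fun p _ => ?_
      split_ifs <;> ring
    linarith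
  have hP0 : 0 < P := by linarith
  let e : (Nd (BT.graft a b) → V) ≃ (Nd a → V) × (Nd b → V) :=
    Equiv.sumArrowEquivProdArrow (Nd a) (Nd b) V
  have he1 : ∀ (f : Nd (BT.graft a b) → V) (s : Nd a), (e f).1 s = f (Sum.inl s) := fun _ _ => rfl
  have he2 : ∀ (f : Nd (BT.graft a b) → V) (s : Nd b), (e f).2 s = f (Sum.inr s) := fun _ _ => rfl
  have hsum : ∀ F : (Nd a → V) × (Nd b → V) → ℝ,
      ∑ f : Nd (BT.graft a b) → V, F (e f) = ∑ p, F p := by
    intro F
    exact Fintype.sum_equiv e _ _ (fun _ => rfl)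
  have hdomg : ∀ F : (Nd a → V) × (Nd b → V) → ℝ, (∀ p, 0 ≤ F p) →
      ∑ f : Nd (BT.graft a b) → V, (if Bad G a b (e f) then 0 else μ (e f).1 * ν (e f).2) / P *
        F (e f) ≤ 2 * ∑ p : (Nd a → V) × (Nd b → V), μ p.1 * ν p.2 * F p := by
    intro F hF
    rw [hsum (fun p => (if Bad G a b p then 0 else μ p.1 * ν p.2) / P * F p), mul_sum]
    refine sum_le_sum fun p _ => ?_
    have h0 : 0 ≤ μ p.1 * ν p.2 := mul_nonneg (hμ.nonneg _) (hν0 _)
    have h1 : (if Bad G a b p then 0 else μ p.1 * ν p.2) / P ≤ 2 * (μ p.1 * ν p.2) := by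
      rw [div_le_iff₀ hP0]
      split_ifs
      · positivity
      · nlinarith
    calc (if Bad G a b p then 0 else μ p.1 * ν p.2) / P * F p ≤ 2 * (μ p.1 * ν p.2) * F p :=
          mul_le_mul_of_nonneg_right h1 (hF p)
      _ = 2 * (μ p.1 * ν p.2 * F p) := by ring
  refine ⟨fun f => (if Bad G a b (e f) then 0 else μ (e f).1 * ν (e f).2) / P, ?_, ?_, ?_, ?_⟩
  · intro f
    split_ifs
    · simp
    · exact div_nonneg (mul_nonneg (hμ.nonneg _) (hν0 _)) hP0.le
  · rw [← sum_div, hsum (fun p => if Bad G a b p then 0 else μ p.1 * ν p.2), ← hP,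
      div_self hP0.ne']
  · intro f hf
    have hgood : ¬ Bad G a b (e f) := by
      intro h
      apply hf
      rw [if_pos h, zero_div]
    have hprod : μ (e f).1 * ν (e f).2 ≠ 0 := by
      intro h
      apply hf
      rw [if_neg hgood, h, zero_div]
    have hc1 := hμ.copy _ (left_ne_zero_of_mul hprod)
    obtain ⟨y, hy, hc2⟩ := hνc _ (right_ne_zero_of_mul hprod)
    have hy' := mem_Ln.1 hy
    have hroot1 : f (Sum.inl (BT.root a)) = x := hc1.root
    have hroot2 : f (Sum.inr (BT.root b)) = y := hc2.root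
    have hcross : ∀ (s : Nd a) (t : Nd b), ¬ (s = BT.root a ∧ t = BT.root b) →
        f (Sum.inr t) ≠ f (Sum.inl s) ∧ ¬ G.Adj (f (Sum.inl s)) (f (Sum.inr t)) := by
      intro s t hst
      constructor
      · intro h
        exact hgood ⟨(s, t), hst, Or.inl h⟩
      · intro h
        exact hgood ⟨(s, t), hst, Or.inr h⟩
    have hne : ∀ (s : Nd a) (t : Nd b), f (Sum.inr t) ≠ f (Sum.inl s) := by
      intro s t
      by_cases hst : s = BT.root a ∧ t = BT.root b
      · rw [hst.1, hst.2, hroot1, hroot2]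
        exact hy'.1.ne'
      · exact (hcross s t hst).1
    have hadj : ∀ (s : Nd a) (t : Nd b), (s = BT.root a ∧ t = BT.root b) ↔
        G.Adj (f (Sum.inl s)) (f (Sum.inr t)) := by
      intro s t
      by_cases hst : s = BT.root a ∧ t = BT.root b
      · refine ⟨fun _ => ?_, fun _ => hst⟩
        rw [hst.1, hst.2, hroot1, hroot2]
        exact hy'.1
      · exact ⟨fun h => absurd h hst, fun h => absurd h (hcross s t hst).2⟩
    refine ⟨hroot1, ?_, ?_, ?_⟩
    · rintro (s | s) (t | t) h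
      · exact congrArg Sum.inl (hc1.inj h)
      · exact absurd h.symm (hne s t)
      · exact absurd h (hne t s)
      · exact congrArg Sum.inr (hc2.inj h)
    · rintro (s | s) (t | t)
      · exact hc1.adj s t
      · exact hadj s t
      · exact (hadj t s).trans (G.adj_comm _ _)
      · exact hc2.adj s t
    · have hyx : w y ≤ w x := by
        refine hy'.2.trans ?_
        have := mul_le_mul_of_nonneg_right hl1.le (hs.pos x).le
        linarith
      rintro (s | s)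
      · rcases hc1.low s with h1 | h1
        · left
          rw [h1]
          rfl
        · right
          exact h1
      · right
        rcases hc2.low s with h1 | h1
        · rw [h1, hroot2]
          exact hy'.2
        · have h2 : w (f (Sum.inr s)) ≤ lam * w y := h1
          exact h2.trans (mul_le_mul_of_nonneg_left hyx hl)
  · rintro (s | s) φ hφ
    · have h1 := hdomg (fun p => φ (p.1 s)) (fun p => hφ _)
      refine h1.trans ?_
      have h2 : ∑ p : (Nd a → V) × (Nd b → V), μ p.1 * ν p.2 * φ (p.1 s) =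
          ∑ f, μ f * φ (f s) := by
        rw [Fintype.sum_prod_type]
        refine sum_congr rfl fun f _ => ?_
        simp only
        have : ∀ g : Nd b → V, μ f * ν g * φ (f s) = μ f * φ (f s) * ν g := fun g => by ring
        rw [sum_congr rfl (fun g _ => this g), ← mul_sum, hν1, mul_one]
      rw [h2]
      have h3 := hμ.dom s φ hφ
      have h4 : 0 ≤ (Wk G w Δ lam γ)^[depth a s] φ x := iter_nonneg hs hγ hφ _ x
      change 2 * ∑ f, μ f * φ (f s) ≤ 2 * (C₁ * C₂) * (Wk G w Δ lam γ)^[depth a s] φ x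
      have h5 : C₁ * (Wk G w Δ lam γ)^[depth a s] φ x ≤ C₁ * C₂ * (Wk G w Δ lam γ)^[depth a s] φ x := by
        apply mul_le_mul_of_nonneg_right _ h4
        nlinarith
      linarith
    · have h1 := hdomg (fun p => φ (p.2 s)) (fun p => hφ _)
      refine h1.trans ?_
      have h2 : ∑ p : (Nd a → V) × (Nd b → V), μ p.1 * ν p.2 * φ (p.2 s) =
          ∑ g, ν g * φ (g s) := by
        rw [Fintype.sum_prod_type]
        simp only
        have : ∀ (f : Nd a → V) (g : Nd b → V), μ f * ν g * φ (g s) = μ f * (ν g * φ (g s)) :=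
          fun f g => by ring
        rw [sum_congr rfl (fun f _ => sum_congr rfl (fun g _ => this f g)),
          ← Fintype.sum_mul_sum, hμ.sum, one_mul]
      rw [h2]
      have h3 := hν s φ hφ
      have h4 : 0 ≤ (Wk G w Δ lam γ)^[depth b s + 1] φ x := iter_nonneg hs hγ hφ _ x
      change 2 * ∑ g, ν g * φ (g s) ≤ 2 * (C₁ * C₂) * (Wk G w Δ lam γ)^[depth b s + 1] φ x
      have h5 : C₂ * (Wk G w Δ lam γ)^[depth b s + 1] φ x ≤
          C₁ * C₂ * (Wk G w Δ lam γ)^[depth b s + 1] φ x := by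
        apply mul_le_mul_of_nonneg_right _ h4
        nlinarith
      linarith

/-- **Random copies.** -/
theorem copies {γ : ℝ} (hγ : 0 < γ) (hγ1 : γ ≤ 1) : ∀ t : BT, ∃ C κ : ℝ, 1 ≤ C ∧ 0 < κ ∧
    ∀ lam β : ℝ, 0 ≤ lam → lam < 1 → 0 ≤ β → 3 * lam + β ≤ κ →
      ∀ (V : Type) [Fintype V] (G : SimpleGraph V) (w : V → ℝ) (Δ : ℝ), Sys G w Δ →
      Light G w Δ lam β → ∀ x : V,
      x ∈ U G w Δ lam γ (ht t) → ∃ μ, Mu G w Δ lam γ C x t μ := by
  classical
  intro t
  induction t with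
  | nil =>
    refine ⟨1, 1, le_rfl, one_pos, ?_⟩
    intro lam β _ _ _ _ V _ G w Δ _ _ x _
    exact mu_nil G w Δ lam γ x
  | graft a b iha ihb =>
    obtain ⟨C₁, κ₁, hC₁, hκ₁, H1⟩ := iha
    obtain ⟨C₂, κ₂, hC₂, hκ₂, H2⟩ := ihb
    obtain ⟨E, hE⟩ : ∃ E : ℝ, E = Fintype.card (Nd a × Nd b) * (C₂ * (γ⁻¹) ^ (ht b + 1)) + 1 :=
      ⟨_, rfl⟩
    have hE0 : 0 < E := by rw [hE]; positivity
    refine ⟨2 * (C₁ * C₂), min (min κ₁ κ₂) (1 / (2 * E)), by nlinarith,
      lt_min (lt_min hκ₁ hκ₂) (by positivity), ?_⟩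
    intro lam β hl hl1 hβ hκ V _ G w Δ hs hL x hxU
    have hk1 : 3 * lam + β ≤ κ₁ := hκ.trans ((min_le_left _ _).trans (min_le_left _ _))
    have hk2 : 3 * lam + β ≤ κ₂ := hκ.trans ((min_le_left _ _).trans (min_le_right _ _))
    have hk3 : 3 * lam + β ≤ 1 / (2 * E) := hκ.trans (min_le_right _ _)
    have hxa : x ∈ U G w Δ lam γ (ht a) := U_le hs.pos (le_max_left _ _) hxU
    have hxb : x ∈ U G w Δ lam γ (ht b + 1) := U_le hs.pos (le_max_right _ _) hxU
    obtain ⟨μ, hμ⟩ := H1 lam β hl hl1 hβ hk1 V G w Δ hs hL x hxa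
    have hxb' := mem_U_succ.1 hxb
    obtain ⟨ν, hν0, hν1, hνc, hνd⟩ := child (G := G) (w := w) (Δ := Δ) (lam := lam) (γ := γ)
      (C := C₂) hs hγ (by linarith) x
      b (Ln G w lam x ∩ U G w Δ lam γ (ht b)) inter_subset_left hxb' (by
        intro y hy
        rw [mem_inter] at hy
        exact H2 lam β hl hl1 hβ hk2 V G w Δ hs hL y hy.2)
    refine mu_graft hs hγ hγ1 hl hl1 hβ hL hC₁ hC₂ x a b ?_ μ hμ ν hν0 hν1 ?_ hνd
    · have h1 : (Fintype.card (Nd a × Nd b) : ℝ) * (C₂ * ((3 * lam + β) * (γ⁻¹) ^ (ht b + 1))) =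
          (3 * lam + β) * (E - 1) := by
        rw [hE]
        ring
      rw [h1]
      have h2 : (3 * lam + β) * (E - 1) ≤ (3 * lam + β) * E :=
        mul_le_mul_of_nonneg_left (by linarith) (by linarith)
      have h3 : (3 * lam + β) * E ≤ 1 / (2 * E) * E := mul_le_mul_of_nonneg_right hk3 hE0.le
      have h4 : 1 / (2 * E) * E = 1 / 2 := by
        field_simp
      linarith
    · intro f hf
      obtain ⟨y, hy, hc⟩ := hνc f hf
      exact ⟨y, (mem_inter.1 hy).1, hc⟩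

/-- If there is no induced copy of `t`, then the set `U (ht t)` is empty. -/
theorem no_copy {γ : ℝ} (hγ : 0 < γ) (hγ1 : γ ≤ 1) (t : BT) : ∃ κ : ℝ, 0 < κ ∧
    ∀ lam β : ℝ, 0 ≤ lam → lam < 1 → 0 ≤ β → 3 * lam + β ≤ κ →
      ∀ (V : Type) [Fintype V] (G : SimpleGraph V) (w : V → ℝ) (Δ : ℝ), Sys G w Δ →
      Light G w Δ lam β →
      (¬ ∃ f : Nd t → V, Function.Injective f ∧ ∀ a b, BT.adj t a b ↔ G.Adj (f a) (f b)) →
      ∀ x, x ∉ U G w Δ lam γ (ht t) := by
  classical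
  obtain ⟨C, κ, _, hκ, H⟩ := copies hγ hγ1 t
  refine ⟨κ, hκ, ?_⟩
  intro lam β hl hl1 hβ hk V _ G w Δ hs hL hno x hxU
  obtain ⟨μ, hμ⟩ := H lam β hl hl1 hβ hk V G w Δ hs hL x hxU
  have h1 : ∑ f, μ f ≠ 0 := by rw [hμ.sum]; norm_num
  obtain ⟨f, _, hf⟩ := exists_ne_zero_of_sum_ne_zero h1
  have hc := hμ.copy f hf
  exact hno ⟨f, hc.inj, hc.adj⟩

end Pool.Agent.U797.DG
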