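import Pool.Agent.U797.DG.Spec
import Pool.Agent.U797.RC.Rob

set_option autoImplicit false

/-!
# Edges whose ends have comparable weights
-/

namespace Pool.Agent.U797.DG

open Finset Pool.Agent.Y394.AT Pool.Agent.U797.RC

open Classical in
/-- one block -/
theorem block (m : ℕ) (F : SimpleGraph (Fin m)) (hF : F.IsAcyclic) (k : ℕ) :
    ∃ (c : ℝ) (C : ℕ), 0 < c ∧ ∀ (V : Type) [Fintype V] (G : SimpleGraph V),
      ¬ F.IsIndContained G → G.CliqueFree k → ∀ w : V → ℝ, (∀ v, 0 < w v) →
      ∀ (S : Finset V) (ω μ : ℝ), 0 < ω → 0 < μ → (∀ x ∈ S, μ * ω ≤ w x ∧ μ * w x ≤ ω) →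
      ∀ e : ℝ, (∀ f : V → ℝ, -e * N2 w f ≤ Q (pm G w) f) →
        c * (μ ^ 2) ^ C * tot (pm G w) S ≤ e * ∑ v ∈ S, w v := by
  obtain ⟨c, C, hc, H⟩ := weights m F hF k
  refine ⟨c, C, hc, ?_⟩
  intro V _ G hFG hfree w hw S ω μ hω hμ hS e hq
  have hw0 : ∀ v, 0 ≤ w v := fun v => (hw v).le
  obtain ⟨p, hp⟩ : ∃ p : V → ℝ, p = fun x => if x ∈ S then Real.sqrt (ω / μ) else 0 := ⟨_, rfl⟩
  obtain ⟨ρ, hρ⟩ : ∃ ρ : V → V → ℝ, ρ = fun x y => (if x ∈ S then 1 else 0) *
      (if y ∈ S then 1 else 0) * pm G w x y := ⟨_, rfl⟩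
  have hp0 : ∀ v, 0 ≤ p v := by
    intro v
    rw [hp]
    dsimp only
    split_ifs
    · exact Real.sqrt_nonneg _
    · exact le_rfl
  have hpp : ∀ x y, p x * p y = (if x ∈ S then 1 else 0) * (if y ∈ S then 1 else 0) * (ω / μ) := by
    intro x y
    rw [hp]
    have := Real.mul_self_sqrt (show 0 ≤ ω / μ by positivity)
    by_cases hx : x ∈ S <;> by_cases hy : y ∈ S <;> simp [hx, hy, this]
  have hadm : Adm G p ρ := by
    constructor
    · intro x y
      rw [hρ]
      have := pm_nonneg (G := G) hw0 x y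
      dsimp only
      split_ifs <;> simp [this]
    · intro x y
      rw [hpp, hρ]
      dsimp only
      by_cases hx : x ∈ S
      · by_cases hy : y ∈ S
        · rw [if_pos hx, if_pos hy]
          unfold pm ad
          by_cases hxy : G.Adj x y
          · rw [if_pos hxy, if_pos hxy, one_mul, one_mul, one_mul, one_mul]
            refine (min_le_left _ _).trans ?_
            rw [le_div_iff₀ hμ]
            linarith [(hS x hx).2]
          · rw [if_neg hxy, if_neg hxy]
            simp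
        · rw [if_neg hy]
          simp
      · rw [if_neg hx]
        simp
  obtain ⟨s, hs1, _, hs3⟩ := H V G hFG hfree p hp0 ρ hadm
  obtain ⟨P, hP⟩ : ∃ P : ℝ, P = tot (fun x y => ad G x y * (p x * p y)) univ := ⟨_, rfl⟩
  rw [← hP] at hs3
  have hρt : tot ρ univ = tot (pm G w) S := by
    unfold tot
    have h1 : ∀ x, ∑ y, ρ x y = if x ∈ S then ∑ y ∈ S, pm G w x y else 0 := by
      intro x
      rw [hρ]
      dsimp only
      by_cases hx : x ∈ S
      · rw [if_pos hx, if_pos hx]
        have : ∀ y, 1 * (if y ∈ S then (1 : ℝ) else 0) * pm G w x y =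
            if y ∈ S then pm G w x y else 0 := by
          intro y
          split_ifs <;> simp
        rw [sum_congr rfl (fun y _ => this y), ← sum_filter]
        congr 1
        ext y
        simp
      · rw [if_neg hx, if_neg hx]
        simp
    rw [sum_congr rfl (fun x _ => h1 x), ← sum_filter]
    congr 1
    ext y
    simp
  obtain ⟨T, hT⟩ : ∃ T : ℝ, T = tot (pm G w) S := ⟨_, rfl⟩
  rw [hρt, ← hT] at hs3
  rw [← hT]
  have hT0 : 0 ≤ T := by
    rw [hT]
    exact tot_nonneg (fun x y => pm_nonneg hw0 x y) _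
  have hPT : μ ^ 2 * P ≤ T := by
    rw [hT, ← hρt, hP]
    unfold tot
    rw [mul_sum]
    refine sum_le_sum fun x _ => ?_
    rw [mul_sum]
    refine sum_le_sum fun y _ => ?_
    dsimp only
    rw [hpp, hρ]
    dsimp only
    by_cases hx : x ∈ S
    · by_cases hy : y ∈ S
      · rw [if_pos hx, if_pos hy]
        unfold pm ad
        by_cases hxy : G.Adj x y
        · rw [if_pos hxy, if_pos hxy]
          have e1 : μ ^ 2 * (1 * (1 * 1 * (ω / μ))) = μ * ω := by
            field_simp
          rw [e1, one_mul, one_mul]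
          exact le_min (hS x hx).1 (hS y hy).1
        · rw [if_neg hxy, if_neg hxy]
          simp
      · rw [if_neg hy]
        simp
    · rw [if_neg hx]
      simp
  have hP0 : 0 ≤ P := by
    rw [hP]
    exact tot_nonneg (fun x y => mul_nonneg (ad_nonneg G x y) (mul_nonneg (hp0 x) (hp0 y))) _
  have hTP : T ≤ P := by
    rw [hT, ← hρt, hP]
    unfold tot
    exact sum_le_sum fun x _ => sum_le_sum fun y _ => hadm.le x y
  have hratio : c * (μ ^ 2) ^ C * T ≤ c * (T / P) ^ C * T := by
    rcases hP0.eq_or_lt with h0 | h0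
    · have : T = 0 := le_antisymm (by rw [h0]; exact hTP) hT0
      rw [this]
      simp
    · apply mul_le_mul_of_nonneg_right _ hT0
      apply mul_le_mul_of_nonneg_left _ hc.le
      apply pow_le_pow_left₀ (by positivity)
      rw [le_div_iff₀ h0]
      exact hPT
  have hQ : Q ρ s = Q (pm G w) (fun v => if v ∈ S then s v else 0) := by
    unfold Q Bf
    refine sum_congr rfl fun x _ => sum_congr rfl fun y _ => ?_
    rw [hρ]
    by_cases hx : x ∈ S <;> by_cases hy : y ∈ S <;> simp [hx, hy]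
  have hN : N2 w (fun v => if v ∈ S then s v else 0) = ∑ v ∈ S, w v := by
    unfold N2
    have : ∀ v, w v * (if v ∈ S then s v else 0) ^ 2 = if v ∈ S then w v else 0 := by
      intro v
      split_ifs
      · rcases hs1 v (mem_univ v) with h | h <;> rw [h] <;> norm_num
      · norm_num
    rw [sum_congr rfl (fun v _ => this v), ← sum_filter]
    congr 1
    ext y
    simp
  have h1 := hq (fun v => if v ∈ S then s v else 0)
  rw [hN, ← hQ] at h1
  linarith

/-- the level of a vertex -/
noncomputable def lev {V : Type} (w : V → ℝ) (lam : ℝ) (v : V) : ℤ :=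
  ⌊Real.log (w v) / (-Real.log lam)⌋

theorem lev_close {V : Type} {w : V → ℝ} {lam : ℝ} (hw : ∀ v, 0 < w v) (hl : 0 < lam)
    (hl1 : lam < 1) {x y : V} (h : lam * w x < w y) : lev w lam x ≤ lev w lam y + 1 := by
  have hL : 0 < -Real.log lam := by
    have := Real.log_neg hl hl1
    linarith
  have h1 : Real.log lam + Real.log (w x) < Real.log (w y) := by
    rw [← Real.log_mul hl.ne' (hw x).ne']
    exact Real.log_lt_log (mul_pos hl (hw x)) h
  have h2 : Real.log (w x) / (-Real.log lam) < Real.log (w y) / (-Real.log lam) + 1 := by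
    rw [div_lt_iff₀ hL, add_mul, div_mul_cancel₀ _ hL.ne']
    linarith
  unfold lev
  have h3 := Int.lt_floor_add_one (Real.log (w y) / (-Real.log lam))
  have h4 := Int.floor_le (Real.log (w x) / (-Real.log lam))
  have h5 : (⌊Real.log (w x) / (-Real.log lam)⌋ : ℝ) <
      ((⌊Real.log (w y) / (-Real.log lam)⌋ + 2 : ℤ) : ℝ) := by
    push_cast
    linarith
  have h6 := Int.cast_lt.1 h5
  omega

theorem lev_block {V : Type} {w : V → ℝ} {lam : ℝ} (hw : ∀ v, 0 < w v) (hl : 0 < lam)
    (hl1 : lam < 1) {x y : V} (h : lev w lam y ≤ lev w lam x + 1) :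
    lam ^ 2 * w y ≤ w x := by
  have hL : 0 < -Real.log lam := by
    have := Real.log_neg hl hl1
    linarith
  unfold lev at h
  have h3 := Int.lt_floor_add_one (Real.log (w y) / (-Real.log lam))
  have h4 := Int.floor_le (Real.log (w x) / (-Real.log lam))
  have h5 : (⌊Real.log (w y) / (-Real.log lam)⌋ : ℝ) ≤
      ((⌊Real.log (w x) / (-Real.log lam)⌋ + 1 : ℤ) : ℝ) := Int.cast_le.2 h
  push_cast at h5
  have h6 : Real.log (w y) / (-Real.log lam) < Real.log (w x) / (-Real.log lam) + 2 := by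
    linarith
  rw [div_lt_iff₀ hL, add_mul, div_mul_cancel₀ _ hL.ne'] at h6
  have h7 : Real.log (lam ^ 2 * w y) ≤ Real.log (w x) := by
    rw [Real.log_mul (pow_ne_zero 2 hl.ne') (hw y).ne', Real.log_pow]
    push_cast
    linarith
  exact (Real.log_le_log_iff (mul_pos (pow_pos hl 2) (hw y)) (hw x)).1 h7

open Classical in
/-- the edges with comparable ends have little weight -/
theorem flat (m : ℕ) (F : SimpleGraph (Fin m)) (hF : F.IsAcyclic) (k : ℕ) {lam : ℝ}
    (hl : 0 < lam) (hl1 : lam < 1) :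
    ∃ c : ℝ, 0 < c ∧ ∀ (V : Type) [Fintype V] (G : SimpleGraph V),
      ¬ F.IsIndContained G → G.CliqueFree k → ∀ w : V → ℝ, (∀ v, 0 < w v) →
      ∀ e : ℝ, (∀ f : V → ℝ, -e * N2 w f ≤ Q (pm G w) f) →
      ∀ A : Finset V, (∀ x y, G.Adj x y → x ∈ A) →
        c * ∑ x, ∑ y, (if lam * w x < w y ∧ lam * w y < w x then pm G w x y else 0) ≤
          e * ∑ v ∈ A, w v := by
  obtain ⟨c, C, hc, H⟩ := block m F hF k
  obtain ⟨c₁, hc₁⟩ : ∃ c₁ : ℝ, c₁ = c * ((lam ^ 2) ^ 2) ^ C := ⟨_, rfl⟩
  have hc₁0 : 0 < c₁ := by rw [hc₁]; positivity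
  refine ⟨c₁ / 2, by positivity, ?_⟩
  intro V _ G hFG hfree w hw e hq A hA
  have hw0 : ∀ v, 0 ≤ w v := fun v => (hw v).le
  -- one offset
  have key : ∀ a : ℤ, c₁ * ∑ x ∈ A, ∑ y ∈ A,
      (if (lev w lam x + a) / 2 = (lev w lam y + a) / 2 then pm G w x y else 0) ≤
      e * ∑ v ∈ A, w v := by
    intro a
    obtain ⟨B, hB⟩ : ∃ B : V → ℤ, B = fun v => (lev w lam v + a) / 2 := ⟨_, rfl⟩
    have h1 : ∑ x ∈ A, ∑ y ∈ A,
        (if (lev w lam x + a) / 2 = (lev w lam y + a) / 2 then pm G w x y else 0) =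
        ∑ b ∈ A.image B, tot (pm G w) (A.filter (fun v => B v = b)) := by
      rw [← sum_fiberwise_of_maps_to (g := B) (t := A.image B)
        (fun x hx => mem_image_of_mem B hx)]
      refine sum_congr rfl fun b _ => ?_
      unfold tot
      refine sum_congr rfl fun x hx => ?_
      rw [sum_filter]
      refine sum_congr rfl fun y _ => ?_
      have hxb : B x = b := (mem_filter.1 hx).2
      rw [hB] at hxb ⊢
      dsimp only at hxb ⊢
      rw [hxb]
      by_cases h2 : b = (lev w lam y + a) / 2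
      · rw [if_pos h2, if_pos h2.symm]
      · rw [if_neg h2, if_neg (fun h => h2 h.symm)]
    have h2 : ∑ v ∈ A, w v = ∑ b ∈ A.image B, ∑ v ∈ A.filter (fun v => B v = b), w v :=
      (sum_fiberwise_of_maps_to (fun x hx => mem_image_of_mem B hx) _).symm
    rw [h1, h2, mul_sum, mul_sum]
    refine sum_le_sum fun b hb => ?_
    obtain ⟨v0, hv0, hv0b⟩ := mem_image.1 hb
    rw [hc₁]
    refine H V G hFG hfree w hw (A.filter (fun v => B v = b)) (w v0) (lam ^ 2) (hw v0)
      (by positivity) ?_ e hq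
    intro x hx
    have hxb : B x = B v0 := by rw [(mem_filter.1 hx).2, hv0b]
    rw [hB] at hxb
    dsimp only at hxb
    exact ⟨lev_block hw hl hl1 (by omega), lev_block hw hl hl1 (by omega)⟩
  have h0 := key 0
  have h1 := key 1
  have h2 : ∑ x, ∑ y, (if lam * w x < w y ∧ lam * w y < w x then pm G w x y else 0) ≤
      ∑ x ∈ A, ∑ y ∈ A,
        (if (lev w lam x + 0) / 2 = (lev w lam y + 0) / 2 then pm G w x y else 0) +
      ∑ x ∈ A, ∑ y ∈ A,
        (if (lev w lam x + 1) / 2 = (lev w lam y + 1) / 2 then pm G w x y else 0) := by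
    have h3 : ∀ T : V → V → ℝ, (∀ x y, x ∉ A → T x y = 0) → (∀ x y, y ∉ A → T x y = 0) →
        ∑ x ∈ A, ∑ y ∈ A, T x y = ∑ x, ∑ y, T x y := by
      intro T hT1 hT2
      rw [← sum_subset (subset_univ A) (fun x _ hx => sum_eq_zero fun y _ => hT1 x y hx)]
      refine sum_congr rfl fun x _ => ?_
      exact sum_subset (subset_univ A) (fun y _ hy => hT2 x y hy)
    have hpm : ∀ x y, (x ∉ A ∨ y ∉ A) → pm G w x y = 0 := by
      intro x y h
      unfold pm
      rw [if_neg]
      intro hxy
      rcases h with h | h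
      · exact h (hA x y hxy)
      · exact h (hA y x hxy.symm)
    rw [h3 _ (fun x y hx => by rw [hpm x y (Or.inl hx)]; simp)
      (fun x y hy => by rw [hpm x y (Or.inr hy)]; simp),
      h3 _ (fun x y hx => by rw [hpm x y (Or.inl hx)]; simp)
      (fun x y hy => by rw [hpm x y (Or.inr hy)]; simp), ← sum_add_distrib]
    refine sum_le_sum fun x _ => ?_
    rw [← sum_add_distrib]
    refine sum_le_sum fun y _ => ?_
    have hp := pm_nonneg (G := G) hw0 x y
    have g0 : 0 ≤ (if (lev w lam x + 0) / 2 = (lev w lam y + 0) / 2 then pm G w x y else 0) := by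
      split_ifs <;> linarith
    have g1 : 0 ≤ (if (lev w lam x + 1) / 2 = (lev w lam y + 1) / 2 then pm G w x y else 0) := by
      split_ifs <;> linarith
    by_cases h4 : lam * w x < w y ∧ lam * w y < w x
    · rw [if_pos h4]
      have h5 := lev_close hw hl hl1 h4.1
      have h6 := lev_close hw hl hl1 h4.2
      by_cases h7 : (lev w lam x + 0) / 2 = (lev w lam y + 0) / 2
      · rw [if_pos h7]
        linarith
      · have h8 : (lev w lam x + 1) / 2 = (lev w lam y + 1) / 2 := by omega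
        rw [if_pos h8]
        linarith
    · rw [if_neg h4]
      linarith
  have h9 := mul_le_mul_of_nonneg_left h2 hc₁0.le
  linarith

end Pool.Agent.U797.DG
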