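import Pool.Agent.U797.DG.Indep
import Pool.Agent.R50.SR.Minimax

set_option autoImplicit false

/-!
# Fractional orientations: weighted independent sets and random independent sets
-/

namespace Pool.Agent.U797.DG

open Finset Pool.Agent.Y394.AT Pool.Agent.U797.RC

/-- a bound for the smaller weights in terms of a fractional orientation -/
theorem tot_le {V : Type} [Fintype V] {G : SimpleGraph V} {w : V → ℝ} (hw : ∀ v, 0 ≤ w v)
    {β : V → V → ℝ} (hβ : ∀ x y, 0 ≤ β x y) (h1 : ∀ x y, G.Adj x y → 1 ≤ β x y + β y x)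
    (U : Finset V) : tot (pm G w) U ≤ 2 * ∑ v ∈ U, w v * ∑ y, β v y := by
  have hpt : ∀ x y, pm G w x y ≤ w x * β x y + w y * β y x := by
    intro x y
    have a1 := mul_nonneg (hw x) (hβ x y)
    have a2 := mul_nonneg (hw y) (hβ y x)
    by_cases h : G.Adj x y
    · rw [pm_adj w h]
      have b1 := mul_le_mul_of_nonneg_right (min_le_left (w x) (w y)) (hβ x y)
      have b2 := mul_le_mul_of_nonneg_right (min_le_right (w x) (w y)) (hβ y x)
      have b3 : 0 ≤ min (w x) (w y) := le_min (hw x) (hw y)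
      have b4 := mul_le_mul_of_nonneg_left (h1 x y h) b3
      linarith
    · have : pm G w x y = 0 := if_neg h
      rw [this]
      linarith
  have h2 : ∑ x ∈ U, ∑ y ∈ U, w x * β x y ≤ ∑ v ∈ U, w v * ∑ y, β v y := by
    refine sum_le_sum fun x _ => ?_
    rw [← mul_sum]
    apply mul_le_mul_of_nonneg_left _ (hw x)
    exact sum_le_sum_of_subset_of_nonneg (subset_univ _) fun y _ _ => hβ x y
  have h3 : ∑ x ∈ U, ∑ y ∈ U, w y * β y x = ∑ x ∈ U, ∑ y ∈ U, w x * β x y := sum_comm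
  unfold tot
  calc ∑ x ∈ U, ∑ y ∈ U, pm G w x y ≤ ∑ x ∈ U, ∑ y ∈ U, (w x * β x y + w y * β y x) :=
        sum_le_sum fun x _ => sum_le_sum fun y _ => hpt x y
    _ = ∑ x ∈ U, ∑ y ∈ U, w x * β x y + ∑ x ∈ U, ∑ y ∈ U, w y * β y x := by
        rw [← sum_add_distrib]
        exact sum_congr rfl fun x _ => sum_add_distrib
    _ ≤ 2 * ∑ v ∈ U, w v * ∑ y, β v y := by
        rw [h3]
        linarith

/-- the weights of the classes -/
theorem class_exists {N : ℕ} {s : ℕ → ℝ} {r : ℝ} (hr0 : 0 < r) (hr1 : r < 1)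
    (hS : 0 < ∑ i ∈ range N, s i) :
    ∃ i ∈ range N, (∑ i ∈ range N, s i) * (1 - r) * r ^ i ≤ s i := by
  by_contra hcon
  push Not at hcon
  have hne : (range N).Nonempty := by
    by_contra h
    rw [not_nonempty_iff_eq_empty] at h
    rw [h] at hS
    simp at hS
  have h1 := sum_lt_sum_of_nonempty hne hcon
  rw [← mul_sum, geom_sum_eq hr1.ne] at h1
  have h2 : (∑ i ∈ range N, s i) * (1 - r) * ((r ^ N - 1) / (r - 1)) =
      (∑ i ∈ range N, s i) * (1 - r ^ N) := by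
    have : r - 1 ≠ 0 := by linarith
    field_simp
    ring
  rw [h2] at h1
  have h3 : 0 < r ^ N := by positivity
  nlinarith

open Classical in
/-- **Weighted independent sets for fractional orientations.** -/
theorem weights (m k : ℕ) (T : SimpleGraph (Fin (m + 1))) (hT : T.IsTree) :
    ∃ ε c : ℝ, 0 < ε ∧ ε < 1 ∧ 0 < c ∧ ∀ (V : Type) [Fintype V] (G : SimpleGraph V),
      G.CliqueFree (k + 1 + 1) → ¬ T.IsIndContained G → ∀ β : V → V → ℝ, (∀ x y, 0 ≤ β x y) →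
      (∀ x y, G.Adj x y → 1 ≤ β x y + β y x) → ∀ w : V → ℝ, (∀ v, 0 ≤ w v) →
      ∃ I : Finset V, G.IsIndepSet (I : Set V) ∧
        c * ∑ v, w v / (1 + ∑ y, β v y) ^ (1 - ε) ≤ ∑ v ∈ I, w v := by
  obtain ⟨ε, c, hε, hε1, hc, H⟩ := indep m k T hT
  obtain ⟨r, hr⟩ : ∃ r : ℝ, r = (1 / 2 : ℝ) ^ (ε / 2) := ⟨_, rfl⟩
  have hr0 : 0 < r := by rw [hr]; positivity
  have hr1 : r < 1 := by
    rw [hr]
    exact Real.rpow_lt_one (by norm_num) (by norm_num) (by linarith)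
  refine ⟨ε / 2, c * (1 - r) / 2, by linarith, by linarith, ?_, ?_⟩
  · have : 0 < 1 - r := by linarith
    positivity
  intro V _ G hfree hTG β hβ hβ1 w hw
  obtain ⟨b, hb⟩ : ∃ b : V → ℝ, b = fun v => ∑ y, β v y := ⟨_, rfl⟩
  have hb0 : ∀ v, 0 ≤ b v := by
    intro v
    rw [hb]
    exact sum_nonneg fun y _ => hβ v y
  have hbv : ∀ v, ∑ y, β v y = b v := fun v => by rw [hb]
  simp only [hbv]
  obtain ⟨ix, hix⟩ : ∃ ix : V → ℕ, ix = fun v => Nat.log 2 ⌊1 + b v⌋₊ := ⟨_, rfl⟩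
  have hix1 : ∀ v, (2 : ℝ) ^ ix v ≤ 1 + b v := by
    intro v
    have h0 := hb0 v
    have h1 : 1 ≤ ⌊1 + b v⌋₊ := Nat.le_floor (by push_cast; linarith)
    have h2 : 2 ^ Nat.log 2 ⌊1 + b v⌋₊ ≤ ⌊1 + b v⌋₊ := Nat.pow_log_le_self 2 (by omega)
    have h3 : ((2 ^ Nat.log 2 ⌊1 + b v⌋₊ : ℕ) : ℝ) ≤ (⌊1 + b v⌋₊ : ℝ) := by exact_mod_cast h2
    have h4 : (⌊1 + b v⌋₊ : ℝ) ≤ 1 + b v := Nat.floor_le (by linarith)
    rw [hix]
    push_cast at h3
    exact h3.trans h4
  have hix2 : ∀ v, 1 + b v < (2 : ℝ) ^ (ix v + 1) := by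
    intro v
    have h0 := hb0 v
    have h2 : ⌊1 + b v⌋₊ < 2 ^ (Nat.log 2 ⌊1 + b v⌋₊ + 1) :=
      Nat.lt_pow_succ_log_self (by norm_num) _
    rw [Nat.floor_lt (by linarith)] at h2
    push_cast at h2
    rw [hix]
    exact h2
  obtain ⟨g, hg⟩ : ∃ g : V → ℝ, g = fun v => w v / (1 + b v) ^ (1 - ε / 2) := ⟨_, rfl⟩
  have hg0 : ∀ v, 0 ≤ g v := by
    intro v
    have h0 := hb0 v
    have h1 := hw v
    rw [hg]
    positivity
  have hgv : ∀ v, w v / (1 + b v) ^ (1 - ε / 2) = g v := fun v => by rw [hg]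
  simp only [hgv]
  rcases (sum_nonneg fun v (_ : v ∈ univ) => hg0 v).eq_or_lt with hz | hz
  · refine ⟨∅, by simp, ?_⟩
    rw [← hz]
    simp
  obtain ⟨N, hN⟩ : ∃ N, ∀ v, ix v < N := by
    refine ⟨(univ.sup ix) + 1, fun v => ?_⟩
    exact Nat.lt_succ_of_le (le_sup (f := ix) (mem_univ v))
  obtain ⟨s, hs⟩ : ∃ s : ℕ → ℝ, s = fun i => ∑ v ∈ univ.filter (fun v => ix v = i), g v :=
    ⟨_, rfl⟩
  have hsum : ∑ i ∈ range N, s i = ∑ v, g v := by
    rw [hs]
    exact sum_fiberwise_of_maps_to (s := univ) (t := range N) (g := ix)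
      (fun v _ => mem_range.2 (hN v)) g
  obtain ⟨i, -, hi⟩ := class_exists (N := N) (s := s) hr0 hr1 (by rw [hsum]; exact hz)
  rw [hsum] at hi
  obtain ⟨U, hU⟩ : ∃ U : Finset V, U = univ.filter (fun v => 0 < w v ∧ ix v = i) := ⟨_, rfl⟩
  have hUm : ∀ v, v ∈ U → 0 < w v ∧ ix v = i := by
    intro v hv
    rw [hU] at hv
    exact (mem_filter.1 hv).2
  have h2i : (0 : ℝ) < 2 ^ i := by positivity
  -- the weight of the class
  have hsU : s i * ((2 : ℝ) ^ i) ^ (1 - ε / 2) ≤ ∑ v ∈ U, w v := by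
    have h1 : s i = ∑ v ∈ U, g v := by
      rw [hs]
      dsimp only
      symm
      apply sum_subset
      · intro v hv
        exact mem_filter.2 ⟨mem_univ _, (hUm v hv).2⟩
      · intro v hv hv'
        have h2 : w v = 0 := by
          by_contra h
          apply hv'
          rw [hU]
          exact mem_filter.2 ⟨mem_univ _, lt_of_le_of_ne (hw v) (Ne.symm h), (mem_filter.1 hv).2⟩
        rw [hg]
        dsimp only
        rw [h2, zero_div]
    rw [h1, sum_mul]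
    refine sum_le_sum fun v hv => ?_
    have h2 := hix1 v
    rw [(hUm v hv).2] at h2
    have h3 : ((2 : ℝ) ^ i) ^ (1 - ε / 2) ≤ (1 + b v) ^ (1 - ε / 2) :=
      Real.rpow_le_rpow h2i.le h2 (by linarith)
    have h4 : 0 < (1 + b v) ^ (1 - ε / 2) := Real.rpow_pos_of_pos (by linarith [hb0 v]) _
    have h5 := mul_le_mul_of_nonneg_left h3 (hg0 v)
    refine h5.trans (le_of_eq ?_)
    rw [hg]
    exact div_mul_cancel₀ (w v) h4.ne'
  -- the induced subgraph
  obtain ⟨G', hG'⟩ : ∃ G' : SimpleGraph {v // v ∈ U}, G' = G.comap (Subtype.val) := ⟨_, rfl⟩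
  have hadj : ∀ x y, G'.Adj x y ↔ G.Adj x.1 y.1 := by
    intro x y
    rw [hG']
    exact Iff.rfl
  have hfree' : G'.CliqueFree (k + 1 + 1) := by
    rw [hG']
    have e : G.comap (Subtype.val : {v // v ∈ U} → V) ↪g G :=
      SimpleGraph.Embedding.comap ⟨Subtype.val, Subtype.val_injective⟩ G
    exact hfree.comap (SimpleGraph.IsIndContained.isContained ⟨e⟩)
  have hTG' : ¬ T.IsIndContained G' := by
    rintro ⟨e⟩
    apply hTG
    rw [hG'] at e
    exact ⟨e.trans (SimpleGraph.Embedding.comap ⟨Subtype.val, Subtype.val_injective⟩ G)⟩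
  obtain ⟨w', hw'⟩ : ∃ w' : {v // v ∈ U} → ℝ, w' = fun v => w v.1 := ⟨_, rfl⟩
  have htot : tot (pm G' w') univ = tot (pm G w) U := by
    unfold tot
    rw [← sum_coe_sort U]
    refine sum_congr rfl fun x _ => ?_
    rw [← sum_coe_sort U]
    refine sum_congr rfl fun y _ => ?_
    unfold pm
    rw [hw']
    by_cases h : G.Adj x.1 y.1
    · rw [if_pos h, if_pos ((hadj x y).2 h)]
    · rw [if_neg h, if_neg (fun h' => h ((hadj x y).1 h'))]
  have hsw : ∑ v, w' v = ∑ v ∈ U, w v := by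
    rw [hw', ← sum_coe_sort U]
  obtain ⟨I, hI1, hI2⟩ := H _ G' w'
    (by
      intro v
      rw [hw']
      exact (hUm v.1 v.2).1)
    hfree' hTG' ((2 : ℝ) ^ (i + 1)) (one_le_pow₀ (by norm_num))
    (by
      rw [htot, hsw, mul_assoc]
      refine (tot_le hw hβ hβ1 U).trans ?_
      apply mul_le_mul_of_nonneg_left _ (by norm_num)
      rw [mul_sum]
      refine sum_le_sum fun v hv => ?_
      rw [hbv, mul_comm]
      apply mul_le_mul_of_nonneg_right _ (hw v)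
      have := hix2 v
      rw [(hUm v hv).2] at this
      linarith)
  refine ⟨I.map ⟨Subtype.val, Subtype.val_injective⟩, ?_, ?_⟩
  · intro x hx y hy hxy
    rw [coe_map] at hx hy
    obtain ⟨x', hx', rfl⟩ := hx
    obtain ⟨y', hy', rfl⟩ := hy
    intro hadj'
    exact hI1 hx' hy' (fun h => hxy (by rw [h])) ((hadj x' y').2 hadj')
  · rw [sum_map]
    have h1 : ∑ v ∈ I, w' v = ∑ v ∈ I, w ((⟨Subtype.val, Subtype.val_injective⟩ :
        {v // v ∈ U} ↪ V) v) := by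
      rw [hw']
      rfl
    rw [← h1]
    refine le_trans ?_ hI2
    rw [hsw]
    have hp1 : 0 < ((2 : ℝ) ^ (i + 1)) ^ (1 - ε) := by positivity
    rw [le_div_iff₀ hp1]
    -- `(2 ^ (i + 1)) ^ (1 - ε) ≤ 2 (2 ^ i) ^ (1 - ε / 2) r ^ i`
    have h2 : ((2 : ℝ) ^ (i + 1)) ^ (1 - ε) ≤ 2 * (((2 : ℝ) ^ i) ^ (1 - ε / 2) * r ^ i) := by
      have e1 : ((2 : ℝ) ^ (i + 1)) ^ (1 - ε) = (2 : ℝ) ^ (1 - ε) * (2 : ℝ) ^ ((i : ℝ) * (1 - ε)) := by
        rw [← Real.rpow_natCast, ← Real.rpow_mul (by norm_num), ← Real.rpow_add (by norm_num)]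
        congr 1
        push_cast
        ring
      have e2 : ((2 : ℝ) ^ i) ^ (1 - ε / 2) = (2 : ℝ) ^ ((i : ℝ) * (1 - ε / 2)) := by
        rw [← Real.rpow_natCast, ← Real.rpow_mul (by norm_num)]
      have e3 : r ^ i = (2 : ℝ) ^ (-((i : ℝ) * (ε / 2))) := by
        rw [hr, one_div, Real.inv_rpow (by norm_num), ← Real.rpow_neg (by norm_num),
          ← Real.rpow_natCast, ← Real.rpow_mul (by norm_num)]
        congr 1
        ring
      have e4 : (2 : ℝ) ^ ((i : ℝ) * (1 - ε / 2)) * (2 : ℝ) ^ (-((i : ℝ) * (ε / 2))) =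
          (2 : ℝ) ^ ((i : ℝ) * (1 - ε)) := by
        rw [← Real.rpow_add (by norm_num)]
        congr 1
        ring
      rw [e1, e2, e3, e4]
      apply mul_le_mul_of_nonneg_right _ (by positivity)
      calc (2 : ℝ) ^ (1 - ε) ≤ (2 : ℝ) ^ (1 : ℝ) :=
            Real.rpow_le_rpow_of_exponent_le (by norm_num) (by linarith)
        _ = 2 := Real.rpow_one 2
    have hX : 0 ≤ c * (1 - r) / 2 * ∑ v, g v := by
      have : 0 < 1 - r := by linarith
      positivity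
    have h3 := mul_le_mul_of_nonneg_left h2 hX
    refine h3.trans ?_
    have h4 : c * (1 - r) / 2 * (∑ v, g v) * (2 * (((2 : ℝ) ^ i) ^ (1 - ε / 2) * r ^ i)) =
        c * (((∑ v, g v) * (1 - r) * r ^ i) * ((2 : ℝ) ^ i) ^ (1 - ε / 2)) := by
      ring
    rw [h4]
    apply mul_le_mul_of_nonneg_left _ hc.le
    refine le_trans ?_ hsU
    exact mul_le_mul_of_nonneg_right hi (by positivity)

end Pool.Agent.U797.DG
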