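import Pool.Agent.U797.DG.Basic

set_option autoImplicit false

/-!
# The walk rarely hits the neighbourhood of an earlier vertex
-/

namespace Pool.Agent.U797.DG

open Finset Pool.Agent.Y394.AT Pool.Agent.U797.RC

variable {V : Type} [Fintype V] {G : SimpleGraph V} {w : V → ℝ} {Δ lam γ β : ℝ}

open Classical in
/-- the closed neighbourhood -/
noncomputable def cl (G : SimpleGraph V) (u v : V) : ℝ := if v = u ∨ G.Adj u v then 1 else 0

omit [Fintype V] in
theorem cl_nonneg (u v : V) : 0 ≤ cl G u v := by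
  unfold cl
  split_ifs <;> norm_num

open Classical in
/-- the number of ways to go down from `x` to `z` in two steps -/
noncomputable def cg (G : SimpleGraph V) (w : V → ℝ) (lam : ℝ) (x z : V) : ℝ :=
  (((Ln G w lam x).filter (fun y => z ∈ Ln G w lam y)).card : ℝ)

/-- few returns -/
def Light (G : SimpleGraph V) (w : V → ℝ) (Δ lam β : ℝ) : Prop :=
  ∀ x, ∑ z, w z * cg G w lam x z ^ 2 ≤ β ^ 2 * Δ ^ 3 * w x

theorem hit_low (h : Sys G w Δ) (hγ : 0 < γ) (hl : 0 ≤ lam) (hl1 : lam ≤ 1) (x u : V) (j : ℕ)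
    (hu : w u ≤ lam * w x) :
    (Wk G w Δ lam γ)^[j + 1] (cl G u) x ≤ 3 * lam * (γ⁻¹) ^ (j + 1) := by
  classical
  have hΔ : 0 < Δ := lt_of_lt_of_le one_pos h.one
  have hΔ1 := h.one
  have hx := h.pos x
  have h1 := mass h hγ hl hl1 x j (cl G u) (cl_nonneg u)
  obtain ⟨b, hb⟩ : ∃ b : ℝ, b = lam ^ (j + 1) * w x := ⟨_, rfl⟩
  have hb0 : 0 ≤ b := by rw [hb]; positivity
  have hb1 : b ≤ lam * w x := by
    rw [hb]
    apply mul_le_mul_of_nonneg_right _ hx.le
    calc lam ^ (j + 1) ≤ lam ^ 1 := pow_le_pow_of_le_one hl hl1 (by omega)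
      _ = lam := pow_one _
  rw [← hb] at h1
  have h2 : ∑ y ∈ univ.filter (fun y => w y ≤ b), w y * cl G u y ≤
      ∑ y ∈ univ.filter (fun y => G.Adj u y ∧ w y ≤ w u), w y +
        ((Δ + 1) * b) := by
    have h3 : ∀ y ∈ univ.filter (fun y => w y ≤ b), w y * cl G u y ≤
        (if G.Adj u y ∧ w y ≤ w u then w y else 0) +
        ((if G.Adj u y ∧ w u ≤ w y then b else 0) + (if y = u then b else 0)) := by
      intro y hy
      have hy1 : w y ≤ b := (mem_filter.1 hy).2
      have hy0 := (h.pos y).le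
      unfold cl
      by_cases h4 : y = u ∨ G.Adj u y
      · rw [if_pos h4, mul_one]
        rcases h4 with h4 | h4
        · rw [if_pos h4]
          have e1 : 0 ≤ (if G.Adj u y ∧ w y ≤ w u then w y else 0) := by
            split_ifs <;> linarith
          have e2 : 0 ≤ (if G.Adj u y ∧ w u ≤ w y then b else 0) := by
            split_ifs <;> linarith
          linarith
        · have e3 : 0 ≤ (if y = u then b else 0) := by
            split_ifs <;> linarith
          rcases le_total (w y) (w u) with h5 | h5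
          · rw [if_pos ⟨h4, h5⟩]
            have e2 : 0 ≤ (if G.Adj u y ∧ w u ≤ w y then b else 0) := by
              split_ifs <;> linarith
            linarith
          · rw [if_pos (⟨h4, h5⟩ : G.Adj u y ∧ w u ≤ w y)]
            have e1 : 0 ≤ (if G.Adj u y ∧ w y ≤ w u then w y else 0) := by
              split_ifs <;> linarith
            linarith
      · rw [if_neg h4, mul_zero]
        have e1 : 0 ≤ (if G.Adj u y ∧ w y ≤ w u then w y else 0) := by
          split_ifs <;> linarith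
        have e2 : 0 ≤ (if G.Adj u y ∧ w u ≤ w y then b else 0) := by
          split_ifs <;> linarith
        have e3 : 0 ≤ (if y = u then b else 0) := by
          split_ifs <;> linarith
        linarith
    have h6 : ∑ y ∈ univ.filter (fun y => w y ≤ b), ((if G.Adj u y ∧ w y ≤ w u then w y else 0) +
        ((if G.Adj u y ∧ w u ≤ w y then b else 0) + (if y = u then b else 0))) ≤
        ∑ y, ((if G.Adj u y ∧ w y ≤ w u then w y else 0) +
        ((if G.Adj u y ∧ w u ≤ w y then b else 0) + (if y = u then b else 0))) := by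
      apply sum_le_sum_of_subset_of_nonneg (subset_univ _)
      intro y _ _
      have hy0 := (h.pos y).le
      have e1 : 0 ≤ (if G.Adj u y ∧ w y ≤ w u then w y else 0) := by
        split_ifs <;> linarith
      have e2 : 0 ≤ (if G.Adj u y ∧ w u ≤ w y then b else 0) := by
        split_ifs <;> linarith
      have e3 : 0 ≤ (if y = u then b else 0) := by
        split_ifs <;> linarith
      linarith
    refine (sum_le_sum h3).trans (h6.trans ?_)
    rw [sum_add_distrib, sum_add_distrib, ← sum_filter, ← sum_filter, sum_const, nsmul_eq_mul,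
      sum_ite_eq' univ u (fun _ => b), if_pos (mem_univ _)]
    have h7 : (((univ : Finset V).filter (fun y => G.Adj u y ∧ w u ≤ w y)).card : ℝ) ≤ Δ :=
      card_heavy h u _ (fun x hx => (mem_filter.1 hx).2)
    have h8 := mul_le_mul_of_nonneg_right h7 hb0
    linarith
  have h9 : ∑ y ∈ univ.filter (fun y => G.Adj u y ∧ w y ≤ w u), w y ≤ Δ * w u :=
    sum_light h u _ (fun y hy => (mem_filter.1 hy).2)
  have h10 : ∑ y ∈ univ.filter (fun y => w y ≤ b), w y * cl G u y ≤ Δ * (3 * lam * w x) := by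
    have e1 : Δ * w u ≤ Δ * (lam * w x) := mul_le_mul_of_nonneg_left hu hΔ.le
    have e2 : (Δ + 1) * b ≤ (2 * Δ) * (lam * w x) :=
      mul_le_mul (by linarith) hb1 hb0 (by linarith)
    linarith
  have h11 : w x * (Wk G w Δ lam γ)^[j + 1] (cl G u) x ≤
      w x * (3 * lam * (γ⁻¹) ^ (j + 1)) := by
    refine h1.trans ?_
    calc (γ⁻¹) ^ (j + 1) / Δ * ∑ y ∈ univ.filter (fun y => w y ≤ b), w y * cl G u y ≤
          (γ⁻¹) ^ (j + 1) / Δ * (Δ * (3 * lam * w x)) :=
          mul_le_mul_of_nonneg_left h10 (by positivity)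
      _ = w x * (3 * lam * (γ⁻¹) ^ (j + 1)) := by
          field_simp
  exact le_of_mul_le_mul_left h11 hx

open Classical in
theorem two_steps (h : Sys G w Δ) (hγ : 0 < γ) (H : V → ℝ) (x : V) :
    w x * Wk G w Δ lam γ (Wk G w Δ lam γ H) x =
      ((γ * Δ) ^ 2)⁻¹ * ∑ z, w z * (cg G w lam x z * H z) := by
  have hΔ : 0 < Δ := lt_of_lt_of_le one_pos h.one
  have hx := h.pos x
  have h1 : ∑ z, w z * (cg G w lam x z * H z) =
      ∑ y ∈ Ln G w lam x, ∑ z ∈ Ln G w lam y, w z * H z := by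
    have h2 : ∀ z, w z * (cg G w lam x z * H z) =
        ∑ y ∈ Ln G w lam x, if z ∈ Ln G w lam y then w z * H z else 0 := by
      intro z
      rw [← sum_filter, sum_const, nsmul_eq_mul]
      unfold cg
      ring
    rw [sum_congr rfl (fun z _ => h2 z), sum_comm]
    refine sum_congr rfl fun y _ => ?_
    rw [← sum_filter]
    congr 1
    ext z
    simp
  rw [h1]
  have h3 : ∀ y, w y * Wk G w Δ lam γ H y = (γ * Δ)⁻¹ * ∑ z ∈ Ln G w lam y, w z * H z := by
    intro y
    have := h.pos y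
    unfold Wk
    field_simp
  have h4 : w x * Wk G w Δ lam γ (Wk G w Δ lam γ H) x =
      (γ * Δ)⁻¹ * ∑ y ∈ Ln G w lam x, w y * Wk G w Δ lam γ H y := by
    rw [Wk]
    field_simp
  rw [h4, sum_congr rfl (fun y _ => h3 y), ← mul_sum, ← mul_assoc]
  congr 1
  field_simp

theorem hit_root (h : Sys G w Δ) (hγ : 0 < γ) (hl : 0 ≤ lam) (hl1 : lam < 1) (hβ : 0 ≤ β)
    (hL : Light G w Δ lam β) (x : V) (i : ℕ) :
    (Wk G w Δ lam γ)^[i + 1 + 1] (cl G x) x ≤ β * (γ⁻¹) ^ (i + 1 + 1) := by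
  classical
  have hΔ : 0 < Δ := lt_of_lt_of_le one_pos h.one
  have hx := h.pos x
  obtain ⟨ψ, hψ⟩ : ∃ ψ : V → ℝ, ψ = fun y => if y ∈ Ln G w lam x then 1 else 0 := ⟨_, rfl⟩
  obtain ⟨r, hr⟩ : ∃ r : V → ℝ, r = fun y => cl G x y - ψ y := ⟨_, rfl⟩
  have hψ0 : ∀ y, 0 ≤ ψ y := by
    intro y
    rw [hψ]
    dsimp only
    split_ifs <;> norm_num
  have hr0 : ∀ y, 0 ≤ r y := by
    intro y
    rw [hr, hψ]
    dsimp only
    unfold cl
    by_cases h1 : y ∈ Ln G w lam x
    · rw [if_pos h1, if_pos (Or.inr (mem_Ln.1 h1).1)]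
      norm_num
    · rw [if_neg h1, sub_zero]
      split_ifs <;> norm_num
  have hsum : cl G x = fun y => ψ y + r y := by
    funext y
    rw [hr]
    ring
  have h1 : (Wk G w Δ lam γ)^[i + 1 + 1] (cl G x) x =
      (Wk G w Δ lam γ)^[i + 1 + 1] ψ x + (Wk G w Δ lam γ)^[i + 1 + 1] r x := by
    rw [hsum, iter_add]
  have h2 : (Wk G w Δ lam γ)^[i + 1 + 1] r x ≤ 0 := by
    have h3 := mass h hγ hl hl1.le x (i + 1) r hr0
    have h4 : ∑ y ∈ univ.filter (fun y => w y ≤ lam ^ (i + 1 + 1) * w x), w y * r y = 0 := by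
      apply sum_eq_zero
      intro y hy
      have h5 : w y ≤ lam * w x := by
        refine (mem_filter.1 hy).2.trans ?_
        apply mul_le_mul_of_nonneg_right _ hx.le
        calc lam ^ (i + 1 + 1) ≤ lam ^ 1 := pow_le_pow_of_le_one hl hl1.le (by omega)
          _ = lam := pow_one _
      have h6 : y ≠ x := by
        rintro rfl
        nlinarith
      have h7 : r y = 0 := by
        rw [hr, hψ]
        dsimp only
        unfold cl
        by_cases h8 : G.Adj x y
        · rw [if_pos (Or.inr h8), if_pos (mem_Ln.2 ⟨h8, h5⟩)]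
          norm_num
        · rw [if_neg (by tauto), if_neg (fun h9 => h8 (mem_Ln.1 h9).1)]
          norm_num
      rw [h7, mul_zero]
    rw [h4, mul_zero] at h3
    by_contra h5
    push Not at h5
    have := mul_pos hx h5
    linarith
  rw [h1]
  have h5 : (Wk G w Δ lam γ)^[i + 1 + 1] ψ x ≤ β * (γ⁻¹) ^ (i + 1 + 1) := by
    rw [Function.iterate_succ_apply', Function.iterate_succ_apply']
    obtain ⟨H, hH⟩ : ∃ H : V → ℝ, H = (Wk G w Δ lam γ)^[i] ψ := ⟨_, rfl⟩
    have hH0 : ∀ v, 0 ≤ H v := by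
      intro v
      rw [hH]
      exact iter_nonneg h hγ hψ0 i v
    rw [← hH]
    have h6 := two_steps (lam := lam) h hγ H x
    have h7 : (∑ z, w z * (cg G w lam x z * H z)) ^ 2 ≤
        (β * Δ ^ 2 * w x * (γ⁻¹) ^ i) ^ 2 := by
      have h8 := sum_mul_sq_le_sq_mul_sq (univ : Finset V)
        (fun z => Real.sqrt (w z) * cg G w lam x z) (fun z => Real.sqrt (w z) * H z)
      have e1 : ∀ z ∈ (univ : Finset V), Real.sqrt (w z) * cg G w lam x z *
          (Real.sqrt (w z) * H z) = w z * (cg G w lam x z * H z) := by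
        intro z _
        have := Real.mul_self_sqrt (h.pos z).le
        calc Real.sqrt (w z) * cg G w lam x z * (Real.sqrt (w z) * H z) =
            (Real.sqrt (w z) * Real.sqrt (w z)) * (cg G w lam x z * H z) := by ring
          _ = _ := by rw [this]
      have e2 : ∀ z ∈ (univ : Finset V), (Real.sqrt (w z) * cg G w lam x z) ^ 2 =
          w z * cg G w lam x z ^ 2 := by
        intro z _
        rw [mul_pow, Real.sq_sqrt (h.pos z).le]
      have e3 : ∀ z ∈ (univ : Finset V), (Real.sqrt (w z) * H z) ^ 2 = w z * H z ^ 2 := by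
        intro z _
        rw [mul_pow, Real.sq_sqrt (h.pos z).le]
      rw [sum_congr rfl e1, sum_congr rfl e2, sum_congr rfl e3] at h8
      refine h8.trans ?_
      have h9 : ∑ z, w z * H z ^ 2 ≤ ((γ⁻¹) ^ i) ^ 2 * (Δ * w x) := by
        have h10 := N2_iter (Δ := Δ) (lam := lam) h hγ hl1.le ψ i
        rw [← hH] at h10
        refine h10.trans ?_
        apply mul_le_mul_of_nonneg_left _ (by positivity)
        have h11 : N2 w ψ = ∑ y ∈ Ln G w lam x, w y := by
          unfold N2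
          rw [hψ]
          have : ∀ y, w y * (if y ∈ Ln G w lam x then (1 : ℝ) else 0) ^ 2 =
              if y ∈ Ln G w lam x then w y else 0 := by
            intro y
            split_ifs <;> simp
          rw [sum_congr rfl (fun y _ => this y), ← sum_filter]
          congr 1
          ext y
          simp
        rw [h11]
        exact sum_Ln h hl1.le x
      calc (∑ z, w z * cg G w lam x z ^ 2) * ∑ z, w z * H z ^ 2 ≤
            (β ^ 2 * Δ ^ 3 * w x) * (((γ⁻¹) ^ i) ^ 2 * (Δ * w x)) :=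
            mul_le_mul (hL x) h9 (sum_nonneg fun z _ => mul_nonneg (h.pos z).le (sq_nonneg _))
              (by positivity)
        _ = (β * Δ ^ 2 * w x * (γ⁻¹) ^ i) ^ 2 := by ring
    have h12 : ∑ z, w z * (cg G w lam x z * H z) ≤ β * Δ ^ 2 * w x * (γ⁻¹) ^ i :=
      (le_abs_self _).trans (abs_le_of_sq_le_sq h7 (by positivity))
    have h13 : w x * Wk G w Δ lam γ (Wk G w Δ lam γ H) x ≤
        w x * (β * (γ⁻¹) ^ (i + 1 + 1)) := by
      rw [h6]
      calc ((γ * Δ) ^ 2)⁻¹ * ∑ z, w z * (cg G w lam x z * H z) ≤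
            ((γ * Δ) ^ 2)⁻¹ * (β * Δ ^ 2 * w x * (γ⁻¹) ^ i) :=
            mul_le_mul_of_nonneg_left h12 (by positivity)
        _ = w x * (β * (γ⁻¹) ^ (i + 1 + 1)) := by
            rw [pow_succ γ⁻¹ (i + 1), pow_succ γ⁻¹ i]
            field_simp
    exact le_of_mul_le_mul_left h13 hx
  linarith

/-- the estimate for the closed neighbourhood of an earlier vertex -/
theorem hit (h : Sys G w Δ) (hγ : 0 < γ) (hγ1 : γ ≤ 1) (hl : 0 ≤ lam) (hl1 : lam < 1)
    (hβ : 0 ≤ β) (hL : Light G w Δ lam β) (x u : V) {q n : ℕ} (hqn : q ≤ n)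
    (hu : w u ≤ lam * w x ∨ (u = x ∧ 1 ≤ q)) :
    (Wk G w Δ lam γ)^[q + 1] (cl G u) x ≤ (3 * lam + β) * (γ⁻¹) ^ (n + 1) := by
  have h1 : (γ⁻¹) ^ (q + 1) ≤ (γ⁻¹) ^ (n + 1) := by
    apply pow_le_pow_right₀ _ (by omega)
    exact (one_le_inv₀ hγ).2 hγ1
  have h0 : 0 ≤ (γ⁻¹) ^ (n + 1) := by positivity
  rcases hu with hu | ⟨rfl, hq⟩
  · refine (hit_low h hγ hl hl1.le x u q hu).trans ?_
    calc 3 * lam * (γ⁻¹) ^ (q + 1) ≤ 3 * lam * (γ⁻¹) ^ (n + 1) :=
          mul_le_mul_of_nonneg_left h1 (by linarith)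
      _ ≤ (3 * lam + β) * (γ⁻¹) ^ (n + 1) := by
          apply mul_le_mul_of_nonneg_right _ h0
          linarith
  · obtain ⟨i, rfl⟩ : ∃ i, q = i + 1 := ⟨q - 1, by omega⟩
    refine (hit_root h hγ hl hl1 hβ hL u i).trans ?_
    calc β * (γ⁻¹) ^ (i + 1 + 1) ≤ β * (γ⁻¹) ^ (n + 1) :=
          mul_le_mul_of_nonneg_left h1 hβ
      _ ≤ (3 * lam + β) * (γ⁻¹) ^ (n + 1) := by
          apply mul_le_mul_of_nonneg_right _ h0
          linarith

end Pool.Agent.U797.DG
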