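import Pool.Agent.U797.DG.Round

set_option autoImplicit false

/-!
# Independent sets of large weight
-/

namespace Pool.Agent.U797.DG

open Finset Pool.Agent.Y394.AT Pool.Agent.U797.RC

variable {V : Type} [Fintype V] {G : SimpleGraph V} {w : V → ℝ} {Δ : ℝ}

open Classical in
/-- deleting the lighter ends of the edges -/
theorem alter (hw : ∀ v, 0 < w v) (U : Finset V) (h : tot (pm G w) U ≤ (∑ v ∈ U, w v) / 2) :
    ∃ I : Finset V, G.IsIndepSet (I : Set V) ∧ (∑ v ∈ U, w v) / 2 ≤ ∑ v ∈ I, w v := by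
  have hw0 : ∀ v, 0 ≤ w v := fun v => (hw v).le
  obtain ⟨I, hI⟩ : ∃ I : Finset V, I = U.filter (fun x => ∀ y ∈ U, G.Adj x y → w y < w x) :=
    ⟨_, rfl⟩
  refine ⟨I, ?_, ?_⟩
  · intro x hx y hy _ hxy
    rw [hI, coe_filter] at hx hy
    have h1 := hx.2 y hy.1 hxy
    have h2 := hy.2 x hx.1 hxy.symm
    linarith
  · have h1 : ∑ v ∈ U, w v = ∑ v ∈ I, w v +
        ∑ v ∈ U.filter (fun x => ¬ ∀ y ∈ U, G.Adj x y → w y < w x), w v := by
      rw [hI, sum_filter_add_sum_filter_not]
    have h2 : ∑ v ∈ U.filter (fun x => ¬ ∀ y ∈ U, G.Adj x y → w y < w x), w v ≤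
        tot (pm G w) U := by
      unfold tot
      refine le_trans (sum_le_sum (g := fun x => ∑ y ∈ U, pm G w x y) ?_)
        (sum_le_sum_of_subset_of_nonneg (filter_subset _ _) fun x _ _ =>
          sum_nonneg fun y _ => pm_nonneg hw0 x y)
      intro x hx
      have h3 := (mem_filter.1 hx).2
      push Not at h3
      obtain ⟨y, hy, hxy, hle⟩ := h3
      have h4 : w x = pm G w x y := by
        rw [pm_adj w hxy, min_eq_left hle]
      rw [h4]
      exact single_le_sum (f := fun y => pm G w x y) (fun y _ => pm_nonneg hw0 x y) hy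
    linarith

omit [Fintype V] in
open Classical in
theorem tot_erase (U : Finset V) {v : V} (hv : v ∈ U) :
    tot (pm G w) U = tot (pm G w) (U.erase v) + 2 * ∑ y ∈ U, pm G w v y := by
  unfold tot
  rw [← add_sum_erase U (fun x => ∑ y ∈ U, pm G w x y) hv]
  have h1 : ∀ x, ∑ y ∈ U, pm G w x y = pm G w x v + ∑ y ∈ U.erase v, pm G w x y := fun x =>
    (add_sum_erase U (fun y => pm G w x y) hv).symm
  have h2 : ∑ x ∈ U.erase v, ∑ y ∈ U, pm G w x y =
      ∑ x ∈ U.erase v, pm G w x v + ∑ x ∈ U.erase v, ∑ y ∈ U.erase v, pm G w x y := by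
    rw [← sum_add_distrib]
    exact sum_congr rfl fun x _ => h1 x
  have h3 : ∑ x ∈ U.erase v, pm G w x v = ∑ y ∈ U, pm G w v y := by
    rw [h1 v, pm_self, zero_add]
    exact sum_congr rfl fun x _ => pm_comm G w x v
  rw [h2, h3]
  ring

open Classical in
/-- the cut of a set with bounded weighted degrees -/
theorem cut_set {m k : ℕ} {T : SimpleGraph (Fin (m + 1))} (hT : T.IsTree) {c : ℝ} (hc : 0 < c)
    (H : ∀ (V : Type) [Fintype V] (G : SimpleGraph V) (w : V → ℝ) (Δ : ℝ),
      Sys G w Δ → G.CliqueFree (k + 1 + 1) → ¬ T.IsIndContained G →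
      1 / 3 * Δ * ∑ v, w v ≤ tot (pm G w) univ →
      ∃ s : V → ℝ, (∀ v, s v = 1 ∨ s v = -1) ∧ Q (pm G w) s ≤ -(c * Δ * ∑ v, w v))
    (hw : ∀ v, 0 < w v) (hfree : G.CliqueFree (k + 1 + 1)) (hTG : ¬ T.IsIndContained G)
    (U : Finset V) (hdeg : ∀ v ∈ U, ∑ u ∈ U, pm G w v u ≤ Δ * w v)
    (hpos : 0 < tot (pm G w) U) (htot : 2 / 3 * Δ * ∑ v ∈ U, w v ≤ tot (pm G w) U) :
    ∃ S S' : Finset V, S ⊆ U ∧ S' ⊆ U ∧ ∑ v ∈ S, w v + ∑ v ∈ S', w v = ∑ v ∈ U, w v ∧
      tot (pm G w) S + tot (pm G w) S' ≤ (1 - c) / 2 * tot (pm G w) U := by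
  have hw0 : ∀ v, 0 ≤ w v := fun v => (hw v).le
  obtain ⟨W, hW⟩ : ∃ W : ℝ, W = ∑ v ∈ U, w v := ⟨_, rfl⟩
  -- an edge
  obtain ⟨a, ha, b, hb, hab⟩ : ∃ a ∈ U, ∃ b ∈ U, G.Adj a b := by
    by_contra hcon
    push Not at hcon
    have : tot (pm G w) U = 0 := by
      unfold tot
      exact sum_eq_zero fun x hx => sum_eq_zero fun y hy => if_neg (hcon x hx y hy)
    linarith
  have hΔ1 : 1 ≤ Δ := by
    have key : ∀ x ∈ U, ∀ y ∈ U, G.Adj x y → w x ≤ w y → 1 ≤ Δ := by
      intro x hx y hy hxy hle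
      have h1 : w x ≤ Δ * w x := by
        refine le_trans ?_ (hdeg x hx)
        have h2 : w x = pm G w x y := by
          rw [pm_adj w hxy, min_eq_left hle]
        calc w x = pm G w x y := h2
          _ ≤ ∑ u ∈ U, pm G w x u :=
            single_le_sum (f := fun y => pm G w x y) (fun y _ => pm_nonneg hw0 x y) hy
      by_contra h3
      push Not at h3
      have := hw x
      nlinarith
    rcases le_total (w a) (w b) with h | h
    · exact key a ha b hb hab h
    · exact key b hb a ha hab.symm h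
  have hΔ : 0 < Δ := by linarith
  have hWpos : 0 < W := by
    rw [hW]
    exact sum_pos (fun v _ => hw v) ⟨a, ha⟩
  have : Nonempty V := ⟨a⟩
  have hn : 0 < (Fintype.card V : ℝ) := by exact_mod_cast Fintype.card_pos
  obtain ⟨w', hw'⟩ : ∃ w' : V → ℝ, w' = fun v => if v ∈ U then w v else W / Fintype.card V :=
    ⟨_, rfl⟩
  have hw'U : ∀ v ∈ U, w' v = w v := by
    intro v hv
    rw [hw']
    exact if_pos hv
  have hw'pos : ∀ v, 0 < w' v := by
    intro v
    rw [hw']
    dsimp only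
    split_ifs
    · exact hw v
    · positivity
  have hpm : ∀ x y, pm (rs G U) w' x y = pm (rs G U) w x y := by
    intro x y
    unfold pm
    by_cases h : (rs G U).Adj x y
    · rw [if_pos h, if_pos h, hw'U x (rs_adj.1 h).2.1, hw'U y (rs_adj.1 h).2.2]
    · rw [if_neg h, if_neg h]
  have hrow : ∀ v, v ∈ U → ∑ u, pm (rs G U) w v u = ∑ u ∈ U, pm G w v u := by
    intro v hv
    have : ∀ u, pm (rs G U) w v u = if u ∈ U then pm G w v u else 0 := by
      intro u
      rw [pm_rs, if_pos hv]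
      by_cases hu : u ∈ U <;> simp [hu]
    rw [sum_congr rfl (fun u _ => this u), ← sum_filter]
    congr 1
    ext y
    simp
  have hsys : Sys (rs G U) w' Δ := by
    refine ⟨hw'pos, hΔ1, ?_⟩
    intro v
    rw [sum_congr rfl (fun u _ => hpm v u)]
    by_cases hv : v ∈ U
    · rw [hrow v hv, hw'U v hv]
      exact hdeg v hv
    · have : ∑ u, pm (rs G U) w v u = 0 := by
        apply sum_eq_zero
        intro u _
        exact if_neg (fun h => hv (rs_adj.1 h).2.1)
      rw [this]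
      exact mul_nonneg hΔ.le (hw'pos v).le
  have hsum' : ∑ v, w' v ≤ 2 * W := by
    have h1 : ∀ v, w' v ≤ (if v ∈ U then w v else 0) + W / Fintype.card V := by
      intro v
      rw [hw']
      dsimp only
      have : 0 < W / Fintype.card V := by positivity
      split_ifs <;> linarith
    refine (sum_le_sum fun v _ => h1 v).trans ?_
    rw [sum_add_distrib, ← sum_filter, sum_const, nsmul_eq_mul, card_univ]
    have h2 : (Fintype.card V : ℝ) * (W / Fintype.card V) = W := by
      field_simp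
    have h3 : ∑ v ∈ univ.filter (fun v => v ∈ U), w v = W := by
      rw [hW]
      congr 1
      ext v
      simp
    rw [h2, h3]
    linarith
  have hsum'' : W ≤ ∑ v, w' v := by
    rw [hW, ← sum_congr rfl hw'U]
    exact sum_le_sum_of_subset_of_nonneg (subset_univ _) fun v _ _ => (hw'pos v).le
  have htot' : tot (pm (rs G U) w') univ = tot (pm G w) U := by
    have h0 : tot (pm (rs G U) w') univ = ∑ x, ∑ y, pm (rs G U) w x y := by
      unfold tot
      exact sum_congr rfl fun x _ => sum_congr rfl fun y _ => hpm x y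
    rw [h0, tot_rs]
  obtain ⟨s, hs1, hs2⟩ := H V (rs G U) w' Δ hsys
    (by
      intro s hs'
      apply hfree s
      exact ⟨fun a ha b hb hab => (rs_adj.1 (hs'.isClique ha hb hab)).1, hs'.card_eq⟩)
    (nocontain_rs hT hTG U)
    (by
      rw [htot']
      refine le_trans ?_ htot
      rw [← hW]
      have := mul_le_mul_of_nonneg_left hsum' (show 0 ≤ 1 / 3 * Δ by positivity)
      linarith)
  obtain ⟨s', hs'⟩ : ∃ s' : V → ℝ, s' = fun v => if v ∈ U then s v else 0 := ⟨_, rfl⟩
  have hQ : Q (pm G w) s' = Q (pm (rs G U) w') s := by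
    rw [hs', ← Q_rs]
    unfold Q Bf
    refine sum_congr rfl fun x _ => sum_congr rfl fun y _ => ?_
    rw [hpm]
  have htotle : tot (pm G w) U ≤ Δ * W := by
    unfold tot
    rw [hW, mul_sum]
    exact sum_le_sum fun x hx => hdeg x hx
  have hQ2 : Q (pm G w) s' ≤ -(c * tot (pm G w) U) := by
    rw [hQ]
    refine hs2.trans (neg_le_neg ?_)
    have h1 := mul_le_mul_of_nonneg_left htotle hc.le
    have h2 := mul_le_mul_of_nonneg_left hsum'' (show 0 ≤ c * Δ by positivity)
    linarith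
  have hsplit := tot_split (pm G w) U s'
    (fun v hv => by
      rw [hs']
      dsimp only
      rw [if_pos hv]
      exact hs1 v)
    (fun v hv => by
      rw [hs']
      exact if_neg hv)
  refine ⟨U.filter (fun v => s' v = 1), U.filter (fun v => ¬ s' v = 1), filter_subset _ _,
    filter_subset _ _, sum_filter_add_sum_filter_not U _ _, ?_⟩
  rw [hsplit]
  linarith

/-- `2 ^ (-τ) > 1 - c` for small `τ` -/
theorem half_rpow {τ : ℝ} (hτ : 0 ≤ τ) : 1 - τ ≤ (1 / 2 : ℝ) ^ τ := by
  have h1 : Real.log (1 / 2) = -Real.log 2 := by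
    rw [one_div, Real.log_inv]
  have h2 : Real.log 2 ≤ 1 := by
    have := Real.log_le_sub_one_of_pos (show (0 : ℝ) < 2 by norm_num)
    linarith
  rw [Real.rpow_def_of_pos (by norm_num)]
  have h3 := Real.add_one_le_exp (Real.log (1 / 2) * τ)
  rw [h1] at h3 ⊢
  have := mul_le_mul_of_nonneg_right h2 hτ
  linarith

open Classical in
/-- **Independent sets of large weight**, in terms of the average of the smaller weights. -/
theorem indep (m k : ℕ) (T : SimpleGraph (Fin (m + 1))) (hT : T.IsTree) :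
    ∃ ε c : ℝ, 0 < ε ∧ ε < 1 ∧ 0 < c ∧ ∀ (V : Type) [Fintype V] (G : SimpleGraph V) (w : V → ℝ),
      (∀ v, 0 < w v) → G.CliqueFree (k + 1 + 1) → ¬ T.IsIndContained G → ∀ D : ℝ, 1 ≤ D →
      tot (pm G w) univ ≤ 2 * D * ∑ v, w v →
      ∃ I : Finset V, G.IsIndepSet (I : Set V) ∧
        c * (∑ v, w v) / D ^ (1 - ε) ≤ ∑ v ∈ I, w v := by
  obtain ⟨c₀, hc₀, H₀⟩ := main_cut m k T hT (η := 1 / 3) (by norm_num)
  obtain ⟨c, hcd⟩ : ∃ c : ℝ, c = min c₀ (1 / 2) := ⟨_, rfl⟩
  have hc : 0 < c := by rw [hcd]; exact lt_min hc₀ (by norm_num)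
  have hc1 : c ≤ 1 / 2 := by rw [hcd]; exact min_le_right _ _
  have hc2 : c ≤ c₀ := by rw [hcd]; exact min_le_left _ _
  obtain ⟨τ, hτd⟩ : ∃ τ : ℝ, τ = c / 2 := ⟨_, rfl⟩
  have hτ : 0 < τ := by rw [hτd]; positivity
  have hτ1 : τ ≤ 1 := by rw [hτd]; linarith
  obtain ⟨θ, hθd⟩ : ∃ θ : ℝ, θ = 2 + τ := ⟨_, rfl⟩
  have hθ0 : 0 < θ := by rw [hθd]; linarith
  have hθ1 : 1 ≤ θ := by rw [hθd]; linarith
  have hθ3 : θ ≤ 3 := by rw [hθd]; linarith
  obtain ⟨ε, hεd⟩ : ∃ ε : ℝ, ε = τ / (1 + τ) := ⟨_, rfl⟩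
  have h1τ : 0 < 1 + τ := by linarith
  have hε : 0 < ε := by rw [hεd]; positivity
  have hε1 : ε < 1 := by
    rw [hεd, div_lt_one h1τ]
    linarith
  have hεe : 1 - ε = 1 / (1 + τ) := by
    rw [hεd]
    field_simp
    ring
  refine ⟨ε, 1 / 40, hε, hε1, by norm_num, ?_⟩
  intro V _ G w hw hfree hTG D hD htot
  have hw0 : ∀ v, 0 ≤ w v := fun v => (hw v).le
  have hD0 : 0 < D := by linarith
  obtain ⟨W, hW⟩ : ∃ W : ℝ, W = ∑ v, w v := ⟨_, rfl⟩
  rcases isEmpty_or_nonempty V with hV | hV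
  · refine ⟨∅, by simp, ?_⟩
    simp
  have hW0 : 0 < W := by
    rw [hW]
    exact sum_pos (fun v _ => hw v) ⟨hV.some, mem_univ _⟩
  obtain ⟨σ, hσd⟩ : ∃ σ : ℝ, σ = (1 / 5) * (4 * D) ^ (-(1 / (1 + τ))) := ⟨_, rfl⟩
  have h4D : 0 < 4 * D := by linarith
  have hσ : 0 < σ := by
    rw [hσd]
    exact mul_pos (by norm_num) (Real.rpow_pos_of_pos h4D _)
  have hσ5 : (5 * σ) ^ (1 + τ) = (4 * D)⁻¹ := by
    have : 5 * σ = (4 * D) ^ (-(1 / (1 + τ))) := by
      rw [hσd]
      ring
    rw [this, ← Real.rpow_mul h4D.le]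
    have e : -(1 / (1 + τ)) * (1 + τ) = -1 := by
      field_simp
    rw [e, Real.rpow_neg_one]
  have hσ1 : 5 * σ ≤ 1 := by
    by_contra h
    push Not at h
    have h1 : 1 < (5 * σ) ^ (1 + τ) := Real.one_lt_rpow h h1τ
    rw [hσ5] at h1
    have h2 : (4 * D)⁻¹ ≤ 1 := inv_le_one_of_one_le₀ (by linarith)
    linarith
  -- it suffices to find an independent set of weight at least `σ W / 2`
  have suff : ∀ I : Finset V, G.IsIndepSet (I : Set V) → σ * W / 2 ≤ ∑ v ∈ I, w v →
      ∃ I : Finset V, G.IsIndepSet (I : Set V) ∧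
        1 / 40 * (∑ v, w v) / D ^ (1 - ε) ≤ ∑ v ∈ I, w v := by
    intro I hI hIw
    refine ⟨I, hI, le_trans ?_ hIw⟩
    rw [← hW, hσd, Real.rpow_neg h4D.le, Real.mul_rpow (by norm_num) hD0.le, ← hεe]
    have h1 : (4 : ℝ) ^ (1 - ε) ≤ 4 := by
      calc (4 : ℝ) ^ (1 - ε) ≤ (4 : ℝ) ^ (1 : ℝ) :=
            Real.rpow_le_rpow_of_exponent_le (by norm_num) (by linarith)
        _ = 4 := Real.rpow_one 4
    have h2 : 0 < (4 : ℝ) ^ (1 - ε) := Real.rpow_pos_of_pos (by norm_num) _
    have h3 : 0 < D ^ (1 - ε) := Real.rpow_pos_of_pos hD0 _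
    have h4 : (4 : ℝ)⁻¹ ≤ ((4 : ℝ) ^ (1 - ε))⁻¹ := by
      rw [inv_le_inv₀ (by norm_num) h2]
      exact h1
    have h5 : 0 < W * (D ^ (1 - ε))⁻¹ / 10 := by positivity
    have h6 := mul_le_mul_of_nonneg_right h4 h5.le
    calc 1 / 40 * W / D ^ (1 - ε) = (4 : ℝ)⁻¹ * (W * (D ^ (1 - ε))⁻¹ / 10) := by
          field_simp
          norm_num
      _ ≤ ((4 : ℝ) ^ (1 - ε))⁻¹ * (W * (D ^ (1 - ε))⁻¹ / 10) := h6
      _ = 1 / 5 * ((4 : ℝ) ^ (1 - ε) * D ^ (1 - ε))⁻¹ * W / 2 := by
          rw [mul_inv]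
          ring
  -- a heavy vertex
  by_cases hheavy : ∃ v, σ * W < w v
  · obtain ⟨v, hv⟩ := hheavy
    apply suff {v}
    · intro x hx y hy hxy
      rw [coe_singleton, Set.mem_singleton_iff] at hx hy
      exact absurd (hx.trans hy.symm) hxy
    · rw [sum_singleton]
      have : 0 < σ * W := by positivity
      linarith
  push Not at hheavy
  obtain ⟨wt, hwt⟩ : ∃ wt : Finset V → ℝ, wt = fun U => ∑ v ∈ U, w v := ⟨_, rfl⟩
  obtain ⟨Φ, hΦ⟩ : ∃ Φ : Finset V → ℝ, Φ = fun U => tot (pm G w) U / wt U ^ θ := ⟨_, rfl⟩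
  obtain ⟨U, hU, hmin⟩ := exists_min_image
    ((univ : Finset (Finset V)).filter (fun U => σ * W ≤ wt U)) Φ
    ⟨univ, mem_filter.2 ⟨mem_univ _, by
      rw [hwt]
      dsimp only
      rw [← hW]
      nlinarith⟩⟩
  have hUσ : σ * W ≤ wt U := (mem_filter.1 hU).2
  have hσW : 0 < σ * W := by positivity
  have hwU : 0 < wt U := lt_of_lt_of_le hσW hUσ
  have htU0 : 0 ≤ tot (pm G w) U := tot_nonneg (fun x y => pm_nonneg hw0 x y) _
  -- comparison
  have hcomp : ∀ S : Finset V, σ * W ≤ wt S → tot (pm G w) U * (wt S / wt U) ^ θ ≤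
      tot (pm G w) S := by
    intro S hS
    have h1 := hmin S (mem_filter.2 ⟨mem_univ _, hS⟩)
    rw [hΦ] at h1
    dsimp only at h1
    have hwS : 0 < wt S := lt_of_lt_of_le hσW hS
    rw [div_le_div_iff₀ (Real.rpow_pos_of_pos hwU _) (Real.rpow_pos_of_pos hwS _)] at h1
    rw [Real.div_rpow hwS.le hwU.le, mul_div_assoc', div_le_iff₀ (Real.rpow_pos_of_pos hwU _)]
    exact h1
  by_cases hbig : wt U < 5 * (σ * W)
  · -- small sets are sparse
    have h1 := hmin univ (mem_filter.2 ⟨mem_univ _, by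
      rw [hwt]
      dsimp only
      rw [← hW]
      nlinarith⟩)
    rw [hΦ] at h1
    dsimp only at h1
    have hwV : wt univ = W := by rw [hwt, hW]
    rw [hwV, div_le_div_iff₀ (Real.rpow_pos_of_pos hwU _) (Real.rpow_pos_of_pos hW0 _)] at h1
    have h2 : tot (pm G w) U ≤ wt U / 2 := by
      have e1 : wt U ^ θ = wt U * wt U ^ (1 + τ) := by
        rw [hθd, show (2 + τ) = 1 + (1 + τ) by ring, Real.rpow_add hwU, Real.rpow_one]
      have e2 : W ^ θ = W * W ^ (1 + τ) := by
        rw [hθd, show (2 + τ) = 1 + (1 + τ) by ring, Real.rpow_add hW0, Real.rpow_one]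
      have e3 : wt U ^ (1 + τ) ≤ (4 * D)⁻¹ * W ^ (1 + τ) := by
        rw [← hσ5, ← Real.mul_rpow (by positivity) hW0.le]
        apply Real.rpow_le_rpow hwU.le _ h1τ.le
        linarith
      have hWτ : 0 < W ^ (1 + τ) := Real.rpow_pos_of_pos hW0 _
      rw [← hW] at htot
      have e4 : tot (pm G w) univ * (wt U * wt U ^ (1 + τ)) ≤
          (2 * D * W) * (wt U * ((4 * D)⁻¹ * W ^ (1 + τ))) := by
        apply mul_le_mul htot _ (by positivity) (by positivity)
        exact mul_le_mul_of_nonneg_left e3 hwU.le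
      have e5 : (2 * D * W) * (wt U * ((4 * D)⁻¹ * W ^ (1 + τ))) =
          (wt U / 2) * (W * W ^ (1 + τ)) := by
        field_simp
        norm_num
      rw [e1, e2] at h1
      rw [e5] at e4
      exact le_of_mul_le_mul_right (h1.trans e4) (by positivity)
    rw [hwt] at h2 hUσ
    dsimp only at h2 hUσ
    obtain ⟨I, hI1, hI2⟩ := alter hw U h2
    apply suff I hI1
    linarith
  · push Not at hbig
    rcases htU0.eq_or_lt with hz | hz
    · -- no edges
      rw [hwt] at hUσ
      dsimp only at hUσ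
      obtain ⟨I, hI1, hI2⟩ := alter hw U (by
        rw [← hz]
        exact div_nonneg (sum_nonneg fun v _ => hw0 v) (by norm_num))
      apply suff I hI1
      linarith
    · exfalso
      obtain ⟨Δ, hΔd⟩ : ∃ Δ : ℝ, Δ = θ / 2 * (tot (pm G w) U / wt U) := ⟨_, rfl⟩
      have hΔw : Δ * wt U = θ / 2 * tot (pm G w) U := by
        rw [hΔd]
        field_simp
      have hdeg : ∀ v ∈ U, ∑ u ∈ U, pm G w v u ≤ Δ * w v := by
        intro v hv
        have h1 : wt (U.erase v) = wt U - w v := by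
          rw [hwt]
          dsimp only
          rw [← add_sum_erase U w hv]
          ring
        have hv1 := hheavy v
        have h2 := hcomp (U.erase v) (by rw [h1]; linarith)
        rw [h1] at h2
        have h3 : (wt U - w v) / wt U = 1 + -(w v / wt U) := by
          field_simp
          ring
        have h4 : w v / wt U ≤ 1 := by
          rw [div_le_one hwU]
          linarith
        have h5 := one_add_mul_self_le_rpow_one_add (s := -(w v / wt U)) (by linarith) hθ1
        rw [h3] at h2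
        have h6 := mul_le_mul_of_nonneg_left h5 hz.le
        have h7 := tot_erase (G := G) (w := w) U hv
        have h8 : tot (pm G w) U * (1 + θ * -(w v / wt U)) =
            tot (pm G w) U - 2 * (Δ * w v) := by
          rw [hΔd]
          field_simp
          ring
        rw [h8] at h6
        linarith
      obtain ⟨S, S', hSU, hS'U, hSS, hcut⟩ := cut_set hT hc₀ H₀ hw hfree hTG U hdeg hz (by
        have : wt U = ∑ v ∈ U, w v := by rw [hwt]
        rw [← this]
        have h1 : 2 / 3 * Δ * wt U = θ / 3 * tot (pm G w) U := by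
          calc 2 / 3 * Δ * wt U = 2 / 3 * (Δ * wt U) := by ring
            _ = θ / 3 * tot (pm G w) U := by rw [hΔw]; ring
        rw [h1]
        nlinarith)
      have hcut' : tot (pm G w) S + tot (pm G w) S' ≤ (1 - c) / 2 * tot (pm G w) U := by
        refine hcut.trans ?_
        apply mul_le_mul_of_nonneg_right _ hz.le
        linarith
      have hsum : wt S + wt S' = wt U := by rw [hwt]; exact hSS
      have htS : 0 ≤ tot (pm G w) S := tot_nonneg (fun x y => pm_nonneg hw0 x y) _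
      have htS' : 0 ≤ tot (pm G w) S' := tot_nonneg (fun x y => pm_nonneg hw0 x y) _
      have hwS : 0 ≤ wt S := by rw [hwt]; exact sum_nonneg fun v _ => hw0 v
      have hwS' : 0 ≤ wt S' := by rw [hwt]; exact sum_nonneg fun v _ => hw0 v
      -- one side is light
      have side : ∀ R : Finset V, 4 / 5 * wt U ≤ wt R → tot (pm G w) R ≤
          (1 - c) / 2 * tot (pm G w) U → False := by
        intro R hR1 hR2
        have h1 := hcomp R (by linarith)
        have h2 : (4 / 5 : ℝ) ≤ wt R / wt U := by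
          rw [le_div_iff₀ hwU]
          exact hR1
        have h3 : (4 / 5 : ℝ) ^ (3 : ℝ) ≤ (wt R / wt U) ^ θ :=
          (Real.rpow_le_rpow_of_exponent_ge (by norm_num) (by norm_num) hθ3).trans
            (Real.rpow_le_rpow (by norm_num) h2 hθ0.le)
        have h4 : (4 / 5 : ℝ) ^ (3 : ℝ) = 64 / 125 := by
          rw [show (3 : ℝ) = ((3 : ℕ) : ℝ) by norm_num, Real.rpow_natCast]
          norm_num
        rw [h4] at h3
        have h5 := mul_le_mul_of_nonneg_left h3 hz.le
        nlinarith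
      by_cases h1 : σ * W ≤ wt S
      · by_cases h2 : σ * W ≤ wt S'
        · have h3 := hcomp S h1
          have h4 := hcomp S' h2
          have hx : 0 ≤ wt S / wt U := div_nonneg hwS hwU.le
          have hy : 0 ≤ wt S' / wt U := div_nonneg hwS' hwU.le
          have h5 := (convexOn_rpow hθ1).2 (Set.mem_Ici.2 hx) (Set.mem_Ici.2 hy)
            (show (0 : ℝ) ≤ 1 / 2 by norm_num) (show (0 : ℝ) ≤ 1 / 2 by norm_num) (by norm_num)
          simp only [smul_eq_mul] at h5
          have h6 : 1 / 2 * (wt S / wt U) + 1 / 2 * (wt S' / wt U) = 1 / 2 := by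
            rw [← mul_add, ← add_div, hsum, div_self hwU.ne', mul_one]
          rw [h6] at h5
          have h7 : (1 / 2 : ℝ) ^ θ = 1 / 4 * (1 / 2 : ℝ) ^ τ := by
            rw [hθd, Real.rpow_add (by norm_num)]
            congr 1
            rw [show (2 : ℝ) = ((2 : ℕ) : ℝ) by norm_num, Real.rpow_natCast]
            norm_num
          have h8 := half_rpow hτ.le
          rw [h7] at h5
          have h9 : (1 - τ) / 2 ≤ (wt S / wt U) ^ θ + (wt S' / wt U) ^ θ := by linarith
          have h10 := mul_le_mul_of_nonneg_left h9 hz.le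
          rw [hτd] at h10
          nlinarith
        · push Not at h2
          exact side S (by linarith) (by linarith)
      · push Not at h1
        exact side S' (by linarith) (by linarith)

end Pool.Agent.U797.DG
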