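import Pool.Agent.U797.DG.Flat

set_option autoImplicit false

/-!
# The local theorem
-/

namespace Pool.Agent.U797.DG

open Finset Pool.Agent.Y394.AT Pool.Agent.U797.RC
open Pool.Agent.U797.GC (BT)
open Pool.Agent.U797.GC.BT

variable {V : Type} [Fintype V] {G : SimpleGraph V} {w : V → ℝ} {Δ lam γ β : ℝ}

open Classical in
/-- **Colours for the edges with very different weights.** -/
theorem colour (hw : ∀ v, 0 < w v) (h : ℕ) (hno : ∀ x, x ∉ U G w Δ lam γ h) :
    ∃ col : V → ℕ, (∀ v, col v < max h 1) ∧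
      ∀ v, ∑ y ∈ (Ln G w lam v).filter (fun y => col y = col v), w y ≤ γ * Δ * w v := by
  have hex : ∀ v : V, ∃ i : ℕ, i < max h 1 ∧ v ∈ U G w Δ lam γ i ∧
      v ∉ U G w Δ lam γ (i + 1) := by
    intro v
    have h0 : v ∈ U G w Δ lam γ 0 := by rw [U]; exact mem_univ v
    have h1 : ∃ i, v ∉ U G w Δ lam γ i := ⟨h, hno v⟩
    have h2 := Nat.find_spec h1
    have h3 : Nat.find h1 ≠ 0 := by
      intro h4
      rw [h4] at h2
      exact h2 h0
    have h5 : Nat.find h1 ≤ h := Nat.find_min' h1 (hno v)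
    refine ⟨Nat.find h1 - 1, ?_, ?_, ?_⟩
    · have := le_max_left h 1
      omega
    · by_contra h6
      exact Nat.find_min h1 (by omega) h6
    · rw [Nat.sub_add_cancel (Nat.one_le_iff_ne_zero.2 h3)]
      exact h2
  choose col hcol1 hcol2 using hex
  refine ⟨col, hcol1, fun v => ?_⟩
  have h1 : (Ln G w lam v).filter (fun y => col y = col v) ⊆
      Ln G w lam v ∩ U G w Δ lam γ (col v) := by
    intro y hy
    rw [mem_filter] at hy
    rw [mem_inter]
    refine ⟨hy.1, ?_⟩
    rw [← hy.2]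
    exact (hcol2 y).1
  have h2 := (hcol2 v).2
  rw [mem_U_succ, not_le] at h2
  exact (sum_le_sum_of_subset_of_nonneg h1 fun y _ _ => (hw y).le).trans h2.le

open Classical in
/-- the weight of all edges is bounded by the weight of the monochromatic ones -/
theorem average {e : ℝ} (hw : ∀ v, 0 < w v) (he : 0 ≤ e)
    (hq : ∀ f : V → ℝ, -e * N2 w f ≤ Q (pm G w) f)
    (A : Finset V) (hA : ∀ x y, G.Adj x y → x ∈ A) (r : ℕ) (hr : 1 ≤ r) (col : V → ℕ)
    (hcol : ∀ v, col v < r) :
    ∑ x, ∑ y, pm G w x y ≤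
      r * (∑ x, ∑ y, (if col x = col y then pm G w x y else 0) + e * ∑ v ∈ A, w v) := by
  have hr0 : (0 : ℝ) < r := by exact_mod_cast hr
  obtain ⟨f, hf⟩ : ∃ f : ℕ → V → ℝ, f = fun i v =>
      if v ∈ A then (if col v = i then 1 else 0) - 1 / (r : ℝ) else 0 := ⟨_, rfl⟩
  have hsum1 : ∀ v, ∑ i ∈ range r, (if col v = i then (1 : ℝ) else 0) = 1 := by
    intro v
    rw [sum_ite_eq (range r) (col v) (fun _ => (1 : ℝ)), if_pos (mem_range.2 (hcol v))]
  have hsum2 : ∀ x y, ∑ i ∈ range r, (if col x = i then (1 : ℝ) else 0) *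
      (if col y = i then 1 else 0) = if col x = col y then 1 else 0 := by
    intro x y
    have h1 : ∀ i ∈ range r, (if col x = i then (1 : ℝ) else 0) * (if col y = i then 1 else 0) =
        if col x = i then (if col x = col y then 1 else 0) else 0 := by
      intro i _
      by_cases h2 : col x = i
      · subst h2
        rw [if_pos rfl, if_pos rfl, one_mul]
        by_cases h3 : col x = col y
        · rw [if_pos h3, if_pos h3.symm]
        · rw [if_neg h3, if_neg (fun h => h3 h.symm)]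
      · rw [if_neg h2, if_neg h2, zero_mul]
    rw [sum_congr rfl h1, sum_ite_eq (range r) (col x), if_pos (mem_range.2 (hcol x))]
  have hprod : ∀ x y, x ∈ A → y ∈ A → ∑ i ∈ range r, f i x * f i y =
      (if col x = col y then 1 else 0) - 1 / (r : ℝ) := by
    intro x y hx hy
    have h1 : ∀ i ∈ range r, f i x * f i y =
        (if col x = i then (1 : ℝ) else 0) * (if col y = i then 1 else 0) -
        1 / (r : ℝ) * (if col x = i then (1 : ℝ) else 0) -
        1 / (r : ℝ) * (if col y = i then (1 : ℝ) else 0) + 1 / (r : ℝ) ^ 2 := by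
      intro i _
      rw [hf]
      dsimp only
      rw [if_pos hx, if_pos hy]
      ring
    rw [sum_congr rfl h1, sum_add_distrib, sum_sub_distrib, sum_sub_distrib, ← mul_sum, ← mul_sum,
      hsum1, hsum1, hsum2, sum_const, card_range, nsmul_eq_mul]
    field_simp
    ring
  have h1 : ∑ i ∈ range r, Q (pm G w) (f i) =
      ∑ x, ∑ y, (if col x = col y then pm G w x y else 0) - 1 / (r : ℝ) * ∑ x, ∑ y, pm G w x y := by
    unfold Q Bf
    rw [sum_comm, mul_sum, ← sum_sub_distrib]
    refine sum_congr rfl fun x _ => ?_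
    rw [sum_comm, mul_sum, ← sum_sub_distrib]
    refine sum_congr rfl fun y _ => ?_
    rw [← mul_sum]
    by_cases hxy : G.Adj x y
    · rw [hprod x y (hA x y hxy) (hA y x hxy.symm)]
      split_ifs <;> ring
    · have : pm G w x y = 0 := if_neg hxy
      rw [this]
      simp
  have h2 : ∑ i ∈ range r, N2 w (f i) ≤ ∑ v ∈ A, w v := by
    unfold N2
    rw [sum_comm]
    have h3 : ∑ v ∈ A, w v = ∑ v, if v ∈ A then w v else 0 := by
      rw [← sum_filter]
      congr 1
      ext y
      simp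
    rw [h3]
    refine sum_le_sum fun v _ => ?_
    rw [← mul_sum]
    by_cases hv : v ∈ A
    · rw [if_pos hv]
      have h4 : ∑ i ∈ range r, f i v ^ 2 = 1 - 1 / (r : ℝ) := by
        have h5 := hprod v v hv hv
        rw [if_pos rfl] at h5
        rw [← h5]
        exact sum_congr rfl fun i _ => by ring
      rw [h4]
      have h6 : 0 ≤ 1 / (r : ℝ) := by positivity
      have := hw v
      nlinarith
    · rw [if_neg hv]
      have h4 : ∑ i ∈ range r, f i v ^ 2 = 0 := by
        apply sum_eq_zero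
        intro i _
        rw [hf]
        dsimp only
        rw [if_neg hv]
        norm_num
      rw [h4, mul_zero]
  have h3 : -e * ∑ v ∈ A, w v ≤ ∑ i ∈ range r, Q (pm G w) (f i) := by
    have h4 : ∑ i ∈ range r, -e * N2 w (f i) ≤ ∑ i ∈ range r, Q (pm G w) (f i) :=
      sum_le_sum fun i _ => hq (f i)
    rw [← mul_sum] at h4
    have h5 := mul_le_mul_of_nonneg_left h2 he
    linarith
  rw [h1] at h3
  obtain ⟨W, hW⟩ : ∃ W : ℝ, W = ∑ x, ∑ y, pm G w x y := ⟨_, rfl⟩
  obtain ⟨I, hI⟩ : ∃ I : ℝ, I = ∑ x, ∑ y, (if col x = col y then pm G w x y else 0) := ⟨_, rfl⟩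
  rw [← hW, ← hI] at h3
  rw [← hW, ← hI]
  have h5 : 1 / (r : ℝ) * W ≤ I + e * ∑ v ∈ A, w v := by linarith
  have h6 := mul_le_mul_of_nonneg_left h5 hr0.le
  have h7 : (r : ℝ) * (1 / (r : ℝ) * W) = W := by
    field_simp
  linarith

open Classical in
/-- the monochromatic edges -/
theorem mono (hs : Sys G w Δ) (A : Finset V)
    (hA : ∀ x y, G.Adj x y → x ∈ A) (col : V → ℕ)
    (hcol : ∀ v, ∑ y ∈ (Ln G w lam v).filter (fun y => col y = col v), w y ≤ γ * Δ * w v) :
    ∑ x, ∑ y, (if col x = col y then pm G w x y else 0) ≤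
      ∑ x, ∑ y, (if lam * w x < w y ∧ lam * w y < w x then pm G w x y else 0) +
        2 * (γ * Δ * ∑ v ∈ A, w v) := by
  have hw0 : ∀ v, 0 ≤ w v := fun v => (hs.pos v).le
  obtain ⟨R, hR⟩ : ∃ R : V → V → ℝ, R = fun x y =>
      if y ∈ (Ln G w lam x).filter (fun y => col y = col x) then w y else 0 := ⟨_, rfl⟩
  have hR0 : ∀ x y, 0 ≤ R x y := by
    intro x y
    rw [hR]
    dsimp only
    split_ifs
    · exact hw0 y
    · exact le_rfl
  have h1 : ∑ x, ∑ y, R x y ≤ γ * Δ * ∑ v ∈ A, w v := by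
    have h2 : ∀ x, ∑ y, R x y = ∑ y ∈ (Ln G w lam x).filter (fun y => col y = col x), w y := by
      intro x
      rw [hR]
      dsimp only
      rw [← sum_filter]
      congr 1
      ext y
      simp
    have h3 : ∀ x, x ∉ A → ∑ y, R x y = 0 := by
      intro x hx
      rw [h2]
      have : (Ln G w lam x).filter (fun y => col y = col x) = ∅ := by
        rw [eq_empty_iff_forall_notMem]
        intro y hy
        exact hx (hA x y (mem_Ln.1 (mem_filter.1 hy).1).1)
      rw [this, sum_empty]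
    rw [← sum_subset (subset_univ A) (fun x _ hx => h3 x hx), mul_sum]
    refine sum_le_sum fun x _ => ?_
    rw [h2]
    exact hcol x
  have h2 : ∑ x, ∑ y, (if col x = col y then pm G w x y else 0) ≤
      ∑ x, ∑ y, (if lam * w x < w y ∧ lam * w y < w x then pm G w x y else 0) +
      (∑ x, ∑ y, R x y + ∑ x, ∑ y, R y x) := by
    rw [← sum_add_distrib, ← sum_add_distrib]
    refine sum_le_sum fun x _ => ?_
    rw [← sum_add_distrib, ← sum_add_distrib]
    refine sum_le_sum fun y _ => ?_
    have g0 := hR0 x y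
    have g1 := hR0 y x
    have g2 := pm_nonneg (G := G) hw0 x y
    have g3 : 0 ≤ (if lam * w x < w y ∧ lam * w y < w x then pm G w x y else 0) := by
      split_ifs <;> linarith
    by_cases hxy : G.Adj x y ∧ col x = col y
    · rw [if_pos hxy.2]
      by_cases k1 : lam * w x < w y
      · by_cases k2 : lam * w y < w x
        · rw [if_pos ⟨k1, k2⟩]
          linarith
        · have k3 : x ∈ (Ln G w lam y).filter (fun z => col z = col y) :=
            mem_filter.2 ⟨mem_Ln.2 ⟨hxy.1.symm, not_lt.1 k2⟩, hxy.2⟩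
          have k4 : R y x = w x := by
            rw [hR]
            exact if_pos k3
          have k5 : pm G w x y ≤ w x := by
            rw [pm_adj w hxy.1]
            exact min_le_left _ _
          linarith
      · have k3 : y ∈ (Ln G w lam x).filter (fun z => col z = col x) :=
          mem_filter.2 ⟨mem_Ln.2 ⟨hxy.1, not_lt.1 k1⟩, hxy.2.symm⟩
        have k4 : R x y = w y := by
          rw [hR]
          exact if_pos k3
        have k5 : pm G w x y ≤ w y := by
          rw [pm_adj w hxy.1]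
          exact min_le_right _ _
        linarith
    · have : (if col x = col y then pm G w x y else 0) = 0 := by
        by_cases hc : col x = col y
        · rw [if_pos hc]
          exact if_neg (fun h => hxy ⟨h, hc⟩)
        · exact if_neg hc
      rw [this]
      linarith
  have h3 : ∑ x, ∑ y, R y x = ∑ x, ∑ y, R x y := sum_comm
  rw [h3] at h2
  linarith

omit [Fintype V] in
/-- a tree has no isolated vertices or only one vertex -/
theorem nocontain_rs {m : ℕ} {T : SimpleGraph (Fin (m + 1))} (hT : T.IsTree)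
    (h : ¬ T.IsIndContained G) (A : Finset V) : ¬ T.IsIndContained (rs G A) := by
  rintro ⟨f⟩
  apply h
  refine ⟨{ toFun := f, inj' := f.injective, map_rel_iff' := ?_ }⟩
  intro a b
  constructor
  · intro hab
    have hab' : G.Adj (f a) (f b) := hab
    have hne : a ≠ b := by
      rintro rfl
      exact G.irrefl hab'
    have hn : ∀ x : Fin (m + 1), f x ∈ A := by
      intro x
      obtain ⟨y, hy⟩ : ∃ y, y ≠ x := by
        by_cases hx : x = a
        · exact ⟨b, by rw [hx]; exact hne.symm⟩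
        · exact ⟨a, fun h => hx h.symm⟩
      obtain ⟨p⟩ := hT.1.preconnected x y
      cases p with
      | nil => exact absurd rfl hy
      | cons h1 _ => exact (rs_adj.1 (f.map_rel_iff.2 h1)).2.1
    exact f.map_rel_iff.1 (rs_adj.2 ⟨hab', hn a, hn b⟩)
  · intro hab
    exact (rs_adj.1 (f.map_rel_iff.2 hab)).1

/-- **Local theorem.** -/
theorem loc (m : ℕ) (T : SimpleGraph (Fin (m + 1))) (hT : T.IsTree) (k : ℕ) :
    ∀ c : ℝ, 0 < c → ∃ ε : ℝ, 0 < ε ∧ ∀ (V : Type) [Fintype V] (G : SimpleGraph V) (w : V → ℝ)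
      (Δ : ℝ), Sys G w Δ → G.CliqueFree (k + 1 + 1) → ¬ T.IsIndContained G →
      (∀ f : V → ℝ, -(ε * Δ) * N2 w f ≤ Q (pm G w) f) →
      ∀ A : Finset V, (∀ x y, G.Adj x y → x ∈ A) →
        ∑ x, ∑ y, pm G w x y ≤ c * Δ * ∑ v ∈ A, w v := by
  induction k with
  | zero =>
    intro c hc
    refine ⟨1, one_pos, ?_⟩
    intro V _ G w Δ hs hfree _ _ A _
    have hΔ : 0 < Δ := lt_of_lt_of_le one_pos hs.one
    have h1 : ∀ x y, pm G w x y = 0 := by
      intro x y
      unfold pm
      rw [if_neg]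
      intro hxy
      classical
      apply hfree {x, y}
      refine ⟨?_, card_pair hxy.ne⟩
      rw [coe_pair]
      intro a ha b hb hab
      rcases ha with rfl | ha
      · rcases hb with rfl | hb
        · exact absurd rfl hab
        · rw [Set.mem_singleton_iff.1 hb]
          exact hxy
      · rw [Set.mem_singleton_iff.1 ha] at hab ⊢
        rcases hb with rfl | hb
        · exact hxy.symm
        · exact absurd (Set.mem_singleton_iff.1 hb).symm hab
    simp only [h1, sum_const_zero]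
    exact mul_nonneg (by positivity) (sum_nonneg fun v _ => (hs.pos v).le)
  | succ k ih =>
    intro c hc
    obtain ⟨t, f, hf1, hf2⟩ := BT.exists_of_tree m (Fin (m + 1)) T hT (Fintype.card_fin _)
    obtain ⟨r, hr⟩ : ∃ r : ℕ, r = max (ht t) 1 := ⟨_, rfl⟩
    have hr1 : 1 ≤ r := by rw [hr]; exact le_max_right _ _
    have hr0 : (0 : ℝ) < r := by exact_mod_cast hr1
    obtain ⟨γ, hγd⟩ : ∃ γ : ℝ, γ = min 1 (c / (8 * r)) := ⟨_, rfl⟩
    have hγ : 0 < γ := by rw [hγd]; exact lt_min one_pos (by positivity)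
    have hγ1 : γ ≤ 1 := by rw [hγd]; exact min_le_left _ _
    have hγ2 : γ ≤ c / (8 * r) := by rw [hγd]; exact min_le_right _ _
    obtain ⟨κ, hκ, hno⟩ := no_copy hγ hγ1 t
    obtain ⟨lam, hlamd⟩ : ∃ lam : ℝ, lam = min (κ / 6) (1 / 2) := ⟨_, rfl⟩
    have hl : 0 < lam := by rw [hlamd]; exact lt_min (by positivity) (by norm_num)
    have hl2 : lam ≤ κ / 6 := by rw [hlamd]; exact min_le_left _ _
    have hl1 : lam < 1 := by
      have : lam ≤ 1 / 2 := by rw [hlamd]; exact min_le_right _ _
      linarith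
    obtain ⟨β, hβd⟩ : ∃ β : ℝ, β = κ / 2 := ⟨_, rfl⟩
    have hβ : 0 < β := by rw [hβd]; positivity
    obtain ⟨c', hc'd⟩ : ∃ c' : ℝ, c' = β ^ 2 / 8 := ⟨_, rfl⟩
    have hc' : 0 < c' := by rw [hc'd]; positivity
    obtain ⟨ε', hε', IH⟩ := ih c' hc'
    obtain ⟨cf, hcf, hflat⟩ := flat (m + 1) T hT.2 (k + 1 + 1 + 1) hl hl1
    obtain ⟨ε, hεd⟩ : ∃ ε : ℝ, ε = min (min ε' 1) (min (β ^ 2 / 8)
      (min (c * cf / (4 * r)) (c / (4 * r)))) := ⟨_, rfl⟩
    have hε : 0 < ε := by
      rw [hεd]
      exact lt_min (lt_min hε' one_pos) (lt_min (by positivity) (lt_min (by positivity)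
        (by positivity)))
    have hε1 : ε ≤ ε' := by rw [hεd]; exact (min_le_left _ _).trans (min_le_left _ _)
    have hε2 : ε ≤ 1 := by rw [hεd]; exact (min_le_left _ _).trans (min_le_right _ _)
    have hε3 : ε ≤ β ^ 2 / 8 := by rw [hεd]; exact (min_le_right _ _).trans (min_le_left _ _)
    have hε4 : ε ≤ c * cf / (4 * r) := by
      rw [hεd]
      exact (min_le_right _ _).trans ((min_le_right _ _).trans (min_le_left _ _))
    have hε5 : ε ≤ c / (4 * r) := by
      rw [hεd]
      exact (min_le_right _ _).trans ((min_le_right _ _).trans (min_le_right _ _))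
    refine ⟨ε, hε, ?_⟩
    intro V _ G w Δ hs hfree hTG hq A hA
    have hΔ : 0 < Δ := lt_of_lt_of_le one_pos hs.one
    have hw0 : ∀ v, 0 ≤ w v := fun v => (hs.pos v).le
    have hL : Light G w Δ lam β := by
      apply light (c := c') (e := ε * Δ) hs (by positivity) (by nlinarith) hl1.le
        (by nlinarith) hq _ hc'.le
      intro x
      refine IH V (rs G (Ln G w lam x)) w Δ (sys_rs hs _)
        (cliqueFree_rs hfree x _ (fun y hy => (mem_Ln.1 hy).1)) (nocontain_rs hT hTG _) ?_ _
        (fun y z hyz => (rs_adj.1 hyz).2.1)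
      intro g
      refine le_trans ?_ (form_rs hw0 (by positivity) hq (Ln G w lam x) g)
      have h1 := N2_nonneg hw0 g
      have h2 : ε * Δ ≤ ε' * Δ := mul_le_mul_of_nonneg_right hε1 hΔ.le
      have h3 := mul_le_mul_of_nonneg_right h2 h1
      linarith
    have hno' : ¬ ∃ g : Nd t → V, Function.Injective g ∧
        ∀ a b, BT.adj t a b ↔ G.Adj (g a) (g b) := by
      rintro ⟨g, hg1, hg2⟩
      apply hTG
      refine ⟨{ toFun := fun a => g (f a), inj' := hg1.comp hf1, map_rel_iff' := ?_ }⟩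
      intro a b
      change G.Adj (g (f a)) (g (f b)) ↔ T.Adj a b
      rw [← hg2]
      exact (hf2 a b).symm
    have hU := hno lam β hl.le hl1 hβ.le (by rw [hβd]; linarith) V G w Δ hs hL hno'
    obtain ⟨col, hcol1, hcol2⟩ := colour hs.pos (ht t) hU
    rw [← hr] at hcol1
    have h1 := average hs.pos (by positivity) hq A hA r hr1 col hcol1
    have h2 := mono hs A hA col hcol2
    have h3 := hflat V G hTG hfree w hs.pos (ε * Δ) hq A hA
    obtain ⟨W, hW⟩ : ∃ W : ℝ, W = ∑ v ∈ A, w v := ⟨_, rfl⟩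
    obtain ⟨P, hP⟩ : ∃ P : ℝ, P = ∑ x, ∑ y,
      (if lam * w x < w y ∧ lam * w y < w x then pm G w x y else 0) := ⟨_, rfl⟩
    obtain ⟨I, hI⟩ : ∃ I : ℝ, I = ∑ x, ∑ y, (if col x = col y then pm G w x y else 0) :=
      ⟨_, rfl⟩
    have hP' : P ≤ c / (4 * r) * Δ * W := by
      have e2 : cf * P ≤ ε * Δ * W := by
        rw [hP, hW]
        exact h3
      have hW0 : 0 ≤ W := by rw [hW]; exact sum_nonneg fun v _ => hw0 v
      have e3 : ε * Δ * W ≤ c * cf / (4 * r) * Δ * W := by
        apply mul_le_mul_of_nonneg_right _ hW0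
        exact mul_le_mul_of_nonneg_right hε4 hΔ.le
      have e4 : c * cf / (4 * r) * Δ * W = cf * (c / (4 * r) * Δ * W) := by
        field_simp
      rw [e4] at e3
      exact le_of_mul_le_mul_left (e2.trans e3) hcf
    have hW0 : 0 ≤ W := by rw [hW]; exact sum_nonneg fun v _ => hw0 v
    have h2' : I ≤ P + 2 * (γ * Δ * W) := by
      rw [hI, hP, hW]
      exact h2
    have h1' : ∑ x, ∑ y, pm G w x y ≤ r * (I + ε * Δ * W) := by
      rw [hI, hW]
      exact h1
    have hDW : 0 ≤ Δ * W := mul_nonneg hΔ.le hW0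
    have e5 : 2 * (γ * Δ * W) ≤ c / (4 * r) * (Δ * W) := by
      have := mul_le_mul_of_nonneg_right hγ2 hDW
      have e6 : 2 * (c / (8 * r) * (Δ * W)) = c / (4 * r) * (Δ * W) := by
        field_simp
        ring
      linarith
    have e7 : ε * Δ * W ≤ c / (4 * r) * (Δ * W) := by
      have := mul_le_mul_of_nonneg_right hε5 hDW
      linarith
    have e8 : I + ε * Δ * W ≤ 3 * (c / (4 * r) * (Δ * W)) := by linarith
    have e9 := mul_le_mul_of_nonneg_left e8 hr0.le
    have e10 : (r : ℝ) * (3 * (c / (4 * r) * (Δ * W))) = 3 / 4 * (c * Δ * W) := by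
      field_simp
    have e11 : 0 ≤ c * Δ * W := by positivity
    rw [← hW]
    linarith

end Pool.Agent.U797.DG
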