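import Pool.Agent.U797.DG.Frac
import Pool.Agent.H367R3.GSForest

set_option autoImplicit false

/-!
# Fractional orientations: random independent sets
-/

namespace Pool.Agent.U797.DG

open Finset Pool.Agent.Y394.AT Pool.Agent.U797.RC

open Classical in
/-- from weights to random independent sets -/
theorem minimax_indep {V : Type} [Fintype V] {G : SimpleGraph V} {q : V → ℝ} (hq : ∀ v, 0 < q v)
    {c : ℝ} (hc : 0 < c)
    (hmain : ∀ w : V → ℝ, (∀ v, 0 ≤ w v) → ∃ I : Finset V, G.IsIndepSet (I : Set V) ∧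
      c * ∑ v, w v / q v ≤ ∑ v ∈ I, w v) :
    ∃ p : Finset V → ℝ, (∀ I, 0 ≤ p I) ∧ ∑ I, p I = 1 ∧
      (∀ I, p I ≠ 0 → G.IsIndepSet (I : Set V)) ∧
      ∀ v, c / 2 / q v ≤ ∑ I ∈ univ.filter (fun I => v ∈ I), p I := by
  rcases isEmpty_or_nonempty V with hV | hV
  · refine ⟨fun _ => 1, fun I => by norm_num, ?_, ?_, ?_⟩
    · rw [Finset.sum_const, nsmul_eq_mul, mul_one, Finset.card_univ, Fintype.card_finset,
        Fintype.card_eq_zero]
      norm_num
    · intro I _ x
      exact (hV.false x).elim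
    · intro v
      exact (hV.false v).elim
  obtain ⟨K, hK⟩ : ∃ K : Set (Finset V → ℝ), K = {p | (∀ I : Finset V, 0 ≤ p I) ∧
      ∑ I : Finset V, p I = 1 ∧ ∀ I : Finset V, ¬ G.IsIndepSet (I : Set V) → p I = 0} := ⟨_, rfl⟩
  obtain ⟨f, hf⟩ : ∃ f : V → (Finset V → ℝ) → ℝ, f = fun v p =>
      q v * ∑ I ∈ univ.filter (fun I => v ∈ I), p I := ⟨_, rfl⟩
  have hKconv : Convex ℝ K := by
    rw [hK]
    rintro p ⟨hp1, hp2, hp3⟩ p' ⟨hq1, hq2, hq3⟩ a b ha hb hab
    refine ⟨fun I => ?_, ?_, fun I hI => ?_⟩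
    · simp only [Pi.add_apply, Pi.smul_apply, smul_eq_mul]
      have := hp1 I
      have := hq1 I
      positivity
    · simp only [Pi.add_apply, Pi.smul_apply, smul_eq_mul]
      rw [Finset.sum_add_distrib, ← Finset.mul_sum, ← Finset.mul_sum, hp2, hq2, mul_one, mul_one,
        hab]
    · simp only [Pi.add_apply, Pi.smul_apply, smul_eq_mul]
      rw [hp3 I hI, hq3 I hI, mul_zero, mul_zero, add_zero]
  obtain ⟨p, hpK, hp⟩ := Pool.Agent.R50.SR.minimax K hKconv f (by
    intro v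
    refine ⟨hKconv, ?_⟩
    intro p _ q _ a b _ _ _
    rw [hf]
    simp only [Pi.add_apply, Pi.smul_apply, smul_eq_mul]
    rw [Finset.sum_add_distrib, ← Finset.mul_sum, ← Finset.mul_sum]
    apply le_of_eq
    ring) c (by
    intro l hl hl1
    obtain ⟨I, hI, hIw⟩ := hmain (fun v => l v * q v) (fun v => mul_nonneg (hl v) (hq v).le)
    refine ⟨fun J => if J = I then 1 else 0, ?_, ?_⟩
    · rw [hK]
      refine ⟨fun J => by dsimp only; split_ifs <;> norm_num, ?_, fun J hJ => ?_⟩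
      · rw [Finset.sum_ite_eq' Finset.univ I]
        simp
      · dsimp only
        rw [if_neg]
        rintro rfl
        exact hJ hI
    · have h1 : ∑ v, l v * q v / q v = 1 := by
        rw [← hl1]
        apply Finset.sum_congr rfl
        intro v _
        exact mul_div_cancel_right₀ _ (hq v).ne'
      rw [h1, mul_one] at hIw
      refine hIw.trans (le_of_eq ?_)
      have h2 : ∀ v, l v * f v (fun J => if J = I then 1 else 0) =
          if v ∈ I then l v * q v else 0 := by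
        intro v
        rw [hf]
        dsimp only
        rw [Finset.sum_ite_eq' (univ.filter (fun J => v ∈ J)) I]
        by_cases hv : v ∈ I
        · simp [hv]
        · simp [hv]
      rw [Finset.sum_congr rfl (fun v _ => h2 v), ← Finset.sum_filter]
      congr 1
      ext v
      simp) (c / 2) (by linarith)
  rw [hK] at hpK
  obtain ⟨h1, h2, h3⟩ := hpK
  refine ⟨p, h1, h2, fun I hI => ?_, fun v => ?_⟩
  · by_contra h
    exact hI (h3 I h)
  · have h4 := hp v
    rw [hf] at h4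
    dsimp only at h4
    rw [div_le_iff₀ (hq v)]
    linarith

open Classical in
/-- **Random independent sets for fractional orientations.** -/
theorem random_orient (m : ℕ) (F : SimpleGraph (Fin m)) (hF : F.IsAcyclic) (k : ℕ) :
    ∃ ε c : ℝ, 0 < ε ∧ ε < 1 ∧ 0 < c ∧ ∀ (V : Type) [Fintype V] (G : SimpleGraph V),
      ¬ F.IsIndContained G → G.CliqueFree k → ∀ β : V → V → ℝ, (∀ x y, 0 ≤ β x y) →
      (∀ x y, G.Adj x y → 1 ≤ β x y + β y x) →
      ∃ p : Finset V → ℝ, (∀ I, 0 ≤ p I) ∧ ∑ I, p I = 1 ∧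
        (∀ I, p I ≠ 0 → G.IsIndepSet (I : Set V)) ∧
        ∀ v, c / (1 + ∑ y, β v y) ^ (1 - ε) ≤ ∑ I ∈ univ.filter (fun I => v ∈ I), p I := by
  obtain ⟨T, hT, ⟨ι0⟩⟩ := Pool.Agent.H367R3.forest_in_tree F hF
  obtain ⟨ε, c, hε, hε1, hc, H⟩ := weights m k T hT
  refine ⟨ε, c / 2, hε, hε1, by positivity, ?_⟩
  intro V _ G hFG hfree β hβ hβ1
  have hTG : ¬ T.IsIndContained G := by
    rintro ⟨e⟩
    exact hFG ⟨ι0.trans e⟩
  exact minimax_indep
    (fun v => by
      have : 0 ≤ ∑ y, β v y := sum_nonneg fun y _ => hβ v y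
      positivity) hc
    (fun w hw => H V G (hfree.mono (by omega)) hTG β hβ hβ1 w hw)

end Pool.Agent.U797.DG
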