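import Pool.Agent.U797.DG.Local
import Pool.Agent.R50.MC.Round

set_option autoImplicit false

/-!
# From the local theorem to cuts
-/

namespace Pool.Agent.U797.DG

open Finset Pool.Agent.Y394.AT Pool.Agent.U797.RC
open Pool.Agent.R50.MC (P4 P4_step clip clip_abs clip_mul)

variable {V : Type} [Fintype V] {G : SimpleGraph V} {w : V → ℝ} {Δ : ℝ}

theorem signs (K : V → V → ℝ) (u : V → ℝ) (hu : ∀ v, 0 ≤ u v) (L : List (V → ℝ)) :
    ∀ g : V → ℝ, ∃ g' : V → ℝ,
    Q K g' + ∑ v, u v * (g' v) ^ 4 ≤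
      Q K g + (L.map (Q K)).sum + ∑ v, u v * P4 (g v) ((L.map (fun b => b v ^ 2)).sum) := by
  induction L with
  | nil =>
    intro g
    refine ⟨g, ?_⟩
    simp [P4]
  | cons b L ih =>
    intro g
    obtain ⟨g1, h1⟩ := ih (fun v => g v + 1 * b v)
    obtain ⟨g2, h2⟩ := ih (fun v => g v + (-1) * b v)
    rw [Q_add] at h1 h2
    have h3 : ∑ v, u v * P4 (g v + 1 * b v) ((L.map (fun b => b v ^ 2)).sum) +
        ∑ v, u v * P4 (g v + (-1) * b v) ((L.map (fun b => b v ^ 2)).sum) ≤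
        2 * ∑ v, u v * P4 (g v) (((b :: L).map (fun b => b v ^ 2)).sum) := by
      rw [← Finset.sum_add_distrib, Finset.mul_sum]
      apply Finset.sum_le_sum
      intro v _
      rw [List.map_cons, List.sum_cons, ← mul_add]
      have h4 := mul_le_mul_of_nonneg_left
        (P4_step (g v) (b v) ((L.map (fun b => b v ^ 2)).sum)) (hu v)
      linarith
    have h5 : ((b :: L).map (Q K)).sum = Q K b + (L.map (Q K)).sum := by
      rw [List.map_cons, List.sum_cons]
    rw [h5]
    by_contra hcon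
    push Not at hcon
    have h6 := hcon g1
    have h7 := hcon g2
    linarith

theorem Q_clip (hs : Sys G w Δ) {M : ℝ} (hM : 0 < M) (g : V → ℝ) :
    Q (pm G w) (fun v => clip M (g v)) ≤
      Q (pm G w) g + ∑ v, (4 * (Δ * w v) / M ^ 2) * (g v) ^ 4 := by
  have hw0 : ∀ v, 0 ≤ w v := fun v => (hs.pos v).le
  have h1 : Q (pm G w) (fun v => clip M (g v)) ≤ Q (pm G w) g +
      ∑ x, ∑ y, (pm G w x y * (2 * (g x) ^ 4 / M ^ 2) + pm G w x y * (2 * (g y) ^ 4 / M ^ 2)) := by
    unfold Q Bf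
    rw [← sum_add_distrib]
    refine sum_le_sum fun x _ => ?_
    rw [← sum_add_distrib]
    refine sum_le_sum fun y _ => ?_
    have h2 := mul_le_mul_of_nonneg_left (clip_mul hM (g x) (g y)) (pm_nonneg (G := G) hw0 x y)
    have e : 2 * (g x ^ 4 + g y ^ 4) / M ^ 2 = 2 * g x ^ 4 / M ^ 2 + 2 * g y ^ 4 / M ^ 2 := by ring
    rw [e] at h2
    linarith
  refine h1.trans ?_
  have h3 : ∑ x, ∑ y, (pm G w x y * (2 * (g x) ^ 4 / M ^ 2) +
      pm G w x y * (2 * (g y) ^ 4 / M ^ 2)) = ∑ x, (∑ y, pm G w x y) * (4 * (g x) ^ 4 / M ^ 2) := by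
    have h4 : ∑ x, ∑ y, pm G w x y * (2 * (g y) ^ 4 / M ^ 2) =
        ∑ x, ∑ y, pm G w x y * (2 * (g x) ^ 4 / M ^ 2) := by
      rw [sum_comm]
      refine sum_congr rfl fun x _ => sum_congr rfl fun y _ => ?_
      rw [pm_comm]
    simp only [sum_add_distrib]
    rw [h4, ← sum_add_distrib]
    refine sum_congr rfl fun x _ => ?_
    rw [← sum_add_distrib, sum_mul]
    exact sum_congr rfl fun y _ => by ring
  rw [h3]
  have h5 : ∑ x, (∑ y, pm G w x y) * (4 * (g x) ^ 4 / M ^ 2) ≤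
      ∑ v, (4 * (Δ * w v) / M ^ 2) * (g v) ^ 4 := by
    refine sum_le_sum fun x _ => ?_
    have h6 := mul_le_mul_of_nonneg_right (hs.deg x) (show 0 ≤ 4 * (g x) ^ 4 / M ^ 2 by positivity)
    calc (∑ y, pm G w x y) * (4 * (g x) ^ 4 / M ^ 2) ≤ Δ * w x * (4 * (g x) ^ 4 / M ^ 2) := h6
      _ = (4 * (Δ * w x) / M ^ 2) * (g x) ^ 4 := by ring
  linarith

theorem N2_list (L : List (V → ℝ)) :
    (L.map (N2 w)).sum = ∑ v, w v * (L.map (fun b => b v ^ 2)).sum := by
  induction L with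
  | nil => simp
  | cons b L ih =>
    rw [List.map_cons, List.sum_cons, ih]
    simp only [List.map_cons, List.sum_cons]
    unfold N2
    rw [← sum_add_distrib]
    exact sum_congr rfl fun v _ => by ring

open Classical in
/-- the greedy construction -/
theorem greedy {K : V → V → ℝ} {e η δ : ℝ} (hδ : ∀ v, δ ≤ w v) (hδ0 : 0 < δ)
    (hU : ∀ U : Finset V, ∑ v ∈ univ \ U, w v ≤ η * ∑ v, w v →
      ∃ f : V → ℝ, (∀ v, v ∉ U → f v = 0) ∧ (∃ v, f v ≠ 0) ∧ Q K f ≤ -e * N2 w f) (t : ℕ) :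
    ∃ L : List (V → ℝ), (∀ v, (L.map (fun b => b v ^ 2)).sum ≤ 1) ∧
      (L.map (Q K)).sum ≤ -e * (L.map (N2 w)).sum ∧
      (η / 2 * ∑ v, w v ≤ (L.map (N2 w)).sum ∨ (t : ℝ) * δ / 2 ≤ (L.map (N2 w)).sum) := by
  have hw : ∀ v, 0 < w v := fun v => lt_of_lt_of_le hδ0 (hδ v)
  induction t with
  | zero =>
    refine ⟨[], by simp, by simp, Or.inr (by simp)⟩
  | succ t ih =>
    obtain ⟨L, h1, h2, h3⟩ := ih
    by_cases h4 : η / 2 * ∑ v, w v ≤ (L.map (N2 w)).sum
    · exact ⟨L, h1, h2, Or.inl h4⟩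
    have h5 : (t : ℝ) * δ / 2 ≤ (L.map (N2 w)).sum := h3.resolve_left h4
    push Not at h4
    have hsum := N2_list (w := w) L
    obtain ⟨U, hUd⟩ : ∃ U : Finset V, U = (univ : Finset V).filter
      (fun v => (L.map (fun b => b v ^ 2)).sum ≤ 1 / 2) := ⟨_, rfl⟩
    have hnn : ∀ v, 0 ≤ (L.map (fun b => b v ^ 2)).sum := by
      intro v
      apply List.sum_nonneg
      intro x hx
      rw [List.mem_map] at hx
      obtain ⟨b, _, rfl⟩ := hx
      positivity
    have hUc : ∑ v ∈ univ \ U, w v ≤ η * ∑ v, w v := by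
      have h6 : (∑ v ∈ univ \ U, w v) * (1 / 2) ≤
          ∑ v ∈ univ \ U, w v * (L.map (fun b => b v ^ 2)).sum := by
        rw [sum_mul]
        apply Finset.sum_le_sum
        intro v hv
        rw [Finset.mem_sdiff, hUd, Finset.mem_filter] at hv
        apply mul_le_mul_of_nonneg_left _ (hw v).le
        by_contra hcon
        push Not at hcon
        exact hv.2 ⟨Finset.mem_univ _, hcon.le⟩
      have h7 : ∑ v ∈ univ \ U, w v * (L.map (fun b => b v ^ 2)).sum ≤ (L.map (N2 w)).sum := by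
        rw [hsum]
        exact Finset.sum_le_sum_of_subset_of_nonneg (Finset.subset_univ _)
          (fun v _ _ => mul_nonneg (hw v).le (hnn v))
      linarith
    obtain ⟨f, hf1, ⟨v1, hv1⟩, hf3⟩ := hU U hUc
    obtain ⟨v0, _, hmax⟩ := Finset.exists_max_image (univ : Finset V) (fun v => f v ^ 2)
      ⟨v1, Finset.mem_univ _⟩
    have hpos : 0 < f v0 ^ 2 := by
      have h6 := hmax v1 (Finset.mem_univ _)
      have h7 : 0 < f v1 ^ 2 := by positivity
      linarith
    obtain ⟨a, ha⟩ : ∃ a : ℝ, a = Real.sqrt (1 / (2 * f v0 ^ 2)) := ⟨_, rfl⟩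
    have ha2 : a ^ 2 = 1 / (2 * f v0 ^ 2) := by
      rw [ha, Real.sq_sqrt (by positivity)]
    have hfa : ∀ v, (a * f v) ^ 2 ≤ 1 / 2 := by
      intro v
      rw [mul_pow, ha2]
      have h6 := hmax v (Finset.mem_univ _)
      rw [div_mul_eq_mul_div, one_mul, div_le_div_iff₀ (by positivity) (by norm_num)]
      linarith
    have hN2 : N2 w (fun v => a * f v) = a ^ 2 * N2 w f := by
      unfold N2
      rw [Finset.mul_sum]
      apply Finset.sum_congr rfl
      intro v _
      ring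
    have hqa : Q K (fun v => a * f v) = a ^ 2 * Q K f := by
      unfold Q
      rw [Bf_smul_left, Bf_smul_right]
      ring
    refine ⟨(fun v => a * f v) :: L, ?_, ?_, Or.inr ?_⟩
    · intro v
      rw [List.map_cons, List.sum_cons]
      by_cases hv : v ∈ U
      · have h6 := hv
        rw [hUd, Finset.mem_filter] at h6
        have h7 := hfa v
        linarith [h6.2]
      · have h6 : (a * f v) ^ 2 = 0 := by
          rw [hf1 v hv]
          ring
        simp only
        rw [h6]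
        linarith [h1 v]
    · rw [List.map_cons, List.sum_cons, List.map_cons, List.sum_cons, hqa, hN2]
      have h6 := mul_le_mul_of_nonneg_left hf3 (sq_nonneg a)
      linarith
    · rw [List.map_cons, List.sum_cons, hN2]
      have h6 : δ / 2 ≤ a ^ 2 * N2 w f := by
        have h7 : w v0 * f v0 ^ 2 ≤ N2 w f := by
          unfold N2
          exact Finset.single_le_sum (f := fun v => w v * f v ^ 2)
            (fun v _ => mul_nonneg (hw v).le (sq_nonneg _)) (Finset.mem_univ v0)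
        have h8 : a ^ 2 * (w v0 * f v0 ^ 2) = w v0 / 2 := by
          rw [ha2]
          have h0 : f v0 ≠ 0 := by
            intro h0
            rw [h0] at hpos
            norm_num at hpos
          field_simp
        have h9 := mul_le_mul_of_nonneg_left h7 (sq_nonneg a)
        have h10 := hδ v0
        linarith
      push_cast
      linarith

open Classical in
theorem tot_rs (A : Finset V) :
    ∑ x, ∑ y, pm (rs G A) w x y = tot (pm G w) A := by
  unfold tot
  have h1 : ∀ x, ∑ y, pm (rs G A) w x y = if x ∈ A then ∑ y ∈ A, pm G w x y else 0 := by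
    intro x
    by_cases hx : x ∈ A
    · rw [if_pos hx]
      have : ∀ y, pm (rs G A) w x y = if y ∈ A then pm G w x y else 0 := by
        intro y
        rw [pm_rs, if_pos hx]
        by_cases hy : y ∈ A <;> simp [hy]
      rw [sum_congr rfl (fun y _ => this y), ← sum_filter]
      congr 1
      ext y
      simp
    · rw [if_neg hx]
      apply sum_eq_zero
      intro y _
      rw [pm_rs, if_neg hx]
      simp
  rw [sum_congr rfl (fun x _ => h1 x), ← sum_filter]
  congr 1
  ext y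
  simp

open Classical in
/-- deleting a light set deletes few edges -/
theorem tot_del (hs : Sys G w Δ) (U : Finset V) :
    tot (pm G w) univ - 2 * Δ * ∑ v ∈ univ \ U, w v ≤ tot (pm G w) U := by
  have hw0 : ∀ v, 0 ≤ w v := fun v => (hs.pos v).le
  have h1 : tot (pm G w) univ ≤ tot (pm G w) U + (∑ x ∈ univ \ U, ∑ y, pm G w x y +
      ∑ x, ∑ y ∈ univ \ U, pm G w x y) := by
    unfold tot
    have e1 : ∀ g : V → ℝ, ∑ x, g x = ∑ x ∈ univ \ U, g x + ∑ x ∈ U, g x := fun g =>
      (sum_sdiff (subset_univ U)).symm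
    rw [e1 (fun x => ∑ y ∈ univ, pm G w x y)]
    have e2 : ∑ x ∈ U, ∑ y, pm G w x y =
        ∑ x ∈ U, ∑ y ∈ univ \ U, pm G w x y + ∑ x ∈ U, ∑ y ∈ U, pm G w x y := by
      rw [← sum_add_distrib]
      exact sum_congr rfl fun x _ => e1 _
    have e3 : ∑ x ∈ U, ∑ y ∈ univ \ U, pm G w x y ≤ ∑ x, ∑ y ∈ univ \ U, pm G w x y :=
      sum_le_sum_of_subset_of_nonneg (subset_univ _) fun x _ _ =>
        sum_nonneg fun y _ => pm_nonneg hw0 x y
    linarith
  have h2 : ∑ x ∈ univ \ U, ∑ y, pm G w x y ≤ Δ * ∑ v ∈ univ \ U, w v := by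
    rw [mul_sum]
    exact sum_le_sum fun x _ => hs.deg x
  have h3 : ∑ x, ∑ y ∈ univ \ U, pm G w x y = ∑ x ∈ univ \ U, ∑ y, pm G w x y := by
    rw [sum_comm]
    refine sum_congr rfl fun x _ => sum_congr rfl fun y _ => ?_
    rw [pm_comm]
  rw [h3] at h1
  linarith

open Classical in
/-- **Large cuts**, edges having the weight of their lighter end. -/
theorem main_cut (m k : ℕ) (T : SimpleGraph (Fin (m + 1))) (hT : T.IsTree) {η : ℝ} (hη : 0 < η) :
    ∃ c : ℝ, 0 < c ∧ ∀ (V : Type) [Fintype V] (G : SimpleGraph V) (w : V → ℝ) (Δ : ℝ),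
      Sys G w Δ → G.CliqueFree (k + 1 + 1) → ¬ T.IsIndContained G →
      η * Δ * ∑ v, w v ≤ tot (pm G w) univ →
      ∃ s : V → ℝ, (∀ v, s v = 1 ∨ s v = -1) ∧ Q (pm G w) s ≤ -(c * Δ * ∑ v, w v) := by
  obtain ⟨ε, hε, hloc⟩ := loc m T hT k (η / 2) (by positivity)
  obtain ⟨η', hη'⟩ : ∃ η' : ℝ, η' = η / 8 := ⟨_, rfl⟩
  have hη0 : 0 < η' := by rw [hη']; positivity
  refine ⟨ε ^ 2 * η' ^ 2 / 192, by positivity, ?_⟩
  intro V _ G w Δ hs hfree hTG htot
  have hΔ : 0 < Δ := lt_of_lt_of_le one_pos hs.one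
  have hw0 : ∀ v, 0 ≤ w v := fun v => (hs.pos v).le
  rcases isEmpty_or_nonempty V with hV | hV
  · refine ⟨fun _ => 1, fun v => Or.inl rfl, ?_⟩
    unfold Q Bf
    simp
  obtain ⟨v₀, _, hmin⟩ := exists_min_image (univ : Finset V) w ⟨hV.some, mem_univ _⟩
  obtain ⟨W, hW⟩ : ∃ W : ℝ, W = ∑ v, w v := ⟨_, rfl⟩
  have hW0 : 0 < W := by
    rw [hW]
    exact sum_pos (fun v _ => hs.pos v) ⟨hV.some, mem_univ _⟩
  rw [← hW] at htot ⊢
  -- negative directions on all large sets
  have hU : ∀ U : Finset V, ∑ v ∈ univ \ U, w v ≤ η' * ∑ v, w v →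
      ∃ f : V → ℝ, (∀ v, v ∉ U → f v = 0) ∧ (∃ v, f v ≠ 0) ∧
        Q (pm G w) f ≤ -(ε * Δ) * N2 w f := by
    intro U hUc
    rw [← hW] at hUc
    by_contra hcon
    push Not at hcon
    have h3 := hloc V (rs G U) w Δ (sys_rs hs U)
      (by
        intro s hs'
        apply hfree s
        exact ⟨fun a ha b hb hab => (rs_adj.1 (hs'.isClique ha hb hab)).1, hs'.card_eq⟩)
      (nocontain_rs hT hTG U)
      (by
        intro f
        rw [Q_rs]
        have h5 := N2_rs_le hw0 U f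
        have h6 : -(ε * Δ) * N2 w f ≤ -(ε * Δ) * N2 w (fun v => if v ∈ U then f v else 0) := by
          have := mul_le_mul_of_nonneg_left h5 (show 0 ≤ ε * Δ by positivity)
          linarith
        refine h6.trans ?_
        by_cases h4 : ∃ v, (if v ∈ U then f v else 0) ≠ 0
        · exact (hcon (fun v => if v ∈ U then f v else 0) (fun v hv => if_neg hv) h4).le
        · push Not at h4
          have h7 : (fun v => if v ∈ U then f v else 0) = fun _ => (0 : ℝ) := funext h4
          rw [h7]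
          unfold Q Bf N2
          simp)
      U (fun x y hxy => (rs_adj.1 hxy).2.1)
    rw [tot_rs] at h3
    have h4 := tot_del hs U
    have h5 : ∑ v ∈ U, w v ≤ W := by
      rw [hW]
      exact sum_le_sum_of_subset_of_nonneg (subset_univ _) fun v _ _ => hw0 v
    have h6 : η / 2 * Δ * ∑ v ∈ U, w v ≤ η / 2 * Δ * W :=
      mul_le_mul_of_nonneg_left h5 (by positivity)
    have h7 : 2 * Δ * ∑ v ∈ univ \ U, w v ≤ 2 * Δ * (η' * W) :=
      mul_le_mul_of_nonneg_left hUc (by positivity)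
    have h8 : 2 * Δ * (η' * W) = η / 4 * Δ * W := by
      rw [hη']
      ring
    have h9 : 0 < η * Δ * W := by positivity
    linarith
  obtain ⟨t, ht⟩ := exists_nat_gt (2 * W / w v₀)
  obtain ⟨L, hL1, hL2, hL3⟩ := greedy (K := pm G w) (e := ε * Δ) (δ := w v₀)
    (fun v => hmin v (mem_univ v)) (hs.pos v₀) hU t
  have hsum := N2_list (w := w) L
  have hL4 : η' / 2 * W ≤ (L.map (N2 w)).sum := by
    rcases hL3 with h | h
    · rw [← hW] at h
      exact h
    · exfalso
      have h1 : (L.map (N2 w)).sum ≤ W := by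
        rw [hsum, hW]
        refine Finset.sum_le_sum fun v _ => ?_
        have := mul_le_mul_of_nonneg_left (hL1 v) (hw0 v)
        linarith
      rw [div_lt_iff₀ (hs.pos v₀)] at ht
      linarith
  have hnn : ∀ v, 0 ≤ (L.map (fun b => b v ^ 2)).sum := by
    intro v
    apply List.sum_nonneg
    intro x hx
    rw [List.mem_map] at hx
    obtain ⟨b, _, rfl⟩ := hx
    positivity
  obtain ⟨M, hMd⟩ : ∃ M : ℝ, M = Real.sqrt (48 / (ε * η')) := ⟨_, rfl⟩
  have hM2 : M ^ 2 = 48 / (ε * η') := by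
    rw [hMd, Real.sq_sqrt (by positivity)]
  have hM : 0 < M := by
    rw [hMd]
    exact Real.sqrt_pos.2 (by positivity)
  obtain ⟨g, hg⟩ := signs (pm G w) (fun v => 4 * (Δ * w v) / M ^ 2)
    (fun v => by have := hs.pos v; positivity) L (fun _ => 0)
  have hq0 : Q (pm G w) (fun _ => 0) = 0 := Q_zero _
  have hP : ∑ v, (4 * (Δ * w v) / M ^ 2) * P4 0 ((L.map (fun b => b v ^ 2)).sum) ≤
      ε * η' / 4 * Δ * W := by
    have h1 : ∀ v ∈ (univ : Finset V), (4 * (Δ * w v) / M ^ 2) *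
        P4 0 ((L.map (fun b => b v ^ 2)).sum) ≤ ε * η' / 4 * Δ * w v := by
      intro v _
      have h2 : P4 0 ((L.map (fun b => b v ^ 2)).sum) ≤ 3 := by
        unfold P4
        have := hL1 v
        nlinarith [hnn v]
      have hwv := hs.pos v
      have h3 : 4 * (Δ * w v) / M ^ 2 = ε * η' / 12 * Δ * w v := by
        rw [hM2]
        field_simp
        norm_num
      rw [h3]
      calc ε * η' / 12 * Δ * w v * P4 0 ((L.map (fun b => b v ^ 2)).sum) ≤
            ε * η' / 12 * Δ * w v * 3 :=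
            mul_le_mul_of_nonneg_left h2 (by positivity)
        _ = ε * η' / 4 * Δ * w v := by ring
    refine (Finset.sum_le_sum h1).trans (le_of_eq ?_)
    rw [← mul_sum, ← hW]
  rw [hq0, zero_add] at hg
  have hc := Q_clip hs hM g
  have hqL : (L.map (Q (pm G w))).sum ≤ -(ε * η' / 2 * Δ * W) := by
    refine hL2.trans ?_
    have h1 := mul_le_mul_of_nonneg_left hL4 (show 0 ≤ ε * Δ by positivity)
    linarith
  have hqc : Q (pm G w) (fun v => clip M (g v)) ≤ -(ε * η' / 4 * Δ * W) := by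
    have e1 : ε * η' / 2 * Δ * W = ε * η' / 4 * Δ * W + ε * η' / 4 * Δ * W := by ring
    linarith
  -- scale and round
  have hy : ∀ v, |M⁻¹ * clip M (g v)| ≤ (fun _ : V => (1 : ℝ)) v := by
    intro v
    rw [abs_mul, abs_of_pos (inv_pos.2 hM), inv_mul_le_iff₀ hM, mul_one]
    exact clip_abs hM _
  obtain ⟨s, hs2, _, hs3⟩ := round (pm G w) (pm_self G w) (fun _ => 1)
    (fun v => M⁻¹ * clip M (g v)) hy univ
  refine ⟨s, fun v => hs2 v (Finset.mem_univ v), hs3.trans ?_⟩
  have hqa : Q (pm G w) (fun v => M⁻¹ * clip M (g v)) =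
      (M ^ 2)⁻¹ * Q (pm G w) (fun v => clip M (g v)) := by
    unfold Q
    rw [Bf_smul_left, Bf_smul_right]
    field_simp
  rw [hqa]
  have h1 := mul_le_mul_of_nonneg_left hqc (show 0 ≤ (M ^ 2)⁻¹ by positivity)
  refine h1.trans (le_of_eq ?_)
  rw [hM2]
  field_simp
  ring

end Pool.Agent.U797.DG
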