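import Pool.Agent.U797.DG.Copies

set_option autoImplicit false

/-!
# Few returns if the form is almost nonnegative
-/

namespace Pool.Agent.U797.DG

open Finset Pool.Agent.Y394.AT Pool.Agent.U797.RC Pool.Agent.U797.GC
open Pool.Agent.U797.GC.BT

variable {V : Type} [Fintype V] {G : SimpleGraph V} {w : V → ℝ} {Δ lam γ β : ℝ}

/-- the edges inside `A` -/
def rs (G : SimpleGraph V) (A : Finset V) : SimpleGraph V where
  Adj x y := G.Adj x y ∧ x ∈ A ∧ y ∈ A
  symm := ⟨fun _ _ h => ⟨h.1.symm, h.2.2, h.2.1⟩⟩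
  loopless := ⟨fun _ h => G.irrefl h.1⟩

omit [Fintype V] in
theorem rs_adj {A : Finset V} {x y : V} : (rs G A).Adj x y ↔ G.Adj x y ∧ x ∈ A ∧ y ∈ A := Iff.rfl

omit [Fintype V] in
open Classical in
theorem pm_rs (A : Finset V) (x y : V) :
    pm (rs G A) w x y = (if x ∈ A then 1 else 0) * (if y ∈ A then 1 else 0) * pm G w x y := by
  unfold pm
  by_cases h : G.Adj x y
  · by_cases hx : x ∈ A
    · by_cases hy : y ∈ A
      · rw [if_pos (rs_adj.2 ⟨h, hx, hy⟩), if_pos hx, if_pos hy, if_pos h]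
        ring
      · rw [if_neg (fun h' => hy (rs_adj.1 h').2.2), if_neg hy]
        ring
    · rw [if_neg (fun h' => hx (rs_adj.1 h').2.1), if_neg hx]
      ring
  · rw [if_neg (fun h' => h (rs_adj.1 h').1), if_neg h]
    ring

omit [Fintype V] in
theorem pm_rs_le (hw : ∀ v, 0 ≤ w v) (A : Finset V) (x y : V) :
    pm (rs G A) w x y ≤ pm G w x y := by
  classical
  rw [pm_rs]
  have := pm_nonneg (G := G) hw x y
  split_ifs <;> simp [this]

theorem sys_rs (h : Sys G w Δ) (A : Finset V) : Sys (rs G A) w Δ where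
  pos := h.pos
  one := h.one
  deg := fun v => (sum_le_sum fun u _ => pm_rs_le (fun v => (h.pos v).le) A v u).trans (h.deg v)

theorem nbr : ∀ (t : BT) (x : Nd t), x = BT.root t ∨ ∃ y, BT.adj t x y := by
  intro t
  induction t with
  | nil => intro x; exact Or.inl rfl
  | graft a b iha ihb =>
    rintro (x | x)
    · rcases iha x with h | ⟨y, hy⟩
      · left
        rw [h]
        rfl
      · right
        exact ⟨Sum.inl y, hy⟩
    · rcases ihb x with h | ⟨y, hy⟩
      · right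
        exact ⟨Sum.inl (BT.root a), rfl, h⟩
      · right
        exact ⟨Sum.inr y, hy⟩

omit [Fintype V] in
theorem nocopy_rs (t : BT)
    (h : ¬ ∃ f : Nd t → V, Function.Injective f ∧ ∀ a b, BT.adj t a b ↔ G.Adj (f a) (f b))
    (A : Finset V) : ¬ ∃ f : Nd t → V, Function.Injective f ∧
      ∀ a b, BT.adj t a b ↔ (rs G A).Adj (f a) (f b) := by
  rintro ⟨f, hf, hadj⟩
  apply h
  refine ⟨f, hf, ?_⟩
  cases t with
  | nil =>
    intro a b
    refine ⟨fun h => h.elim, fun h => ?_⟩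
    have : a = b := rfl
    rw [this] at h
    exact (G.irrefl h).elim
  | graft a b =>
    have hA : ∀ x, f x ∈ A := by
      intro x
      rcases nbr (graft a b) x with h1 | ⟨y, hy⟩
      · have h2 : BT.adj (graft a b) x (Sum.inr (BT.root b)) := by
          rw [h1]
          exact ⟨rfl, rfl⟩
        exact ((hadj _ _).1 h2).2.1
      · exact ((hadj _ _).1 hy).2.1
    intro x y
    rw [hadj, rs_adj]
    exact ⟨fun h1 => h1.1, fun h1 => ⟨h1, hA x, hA y⟩⟩

omit [Fintype V] in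
theorem cliqueFree_rs {k : ℕ} (h : G.CliqueFree (k + 1 + 1 + 1)) (x : V) (A : Finset V)
    (hA : ∀ y ∈ A, G.Adj x y) : (rs G A).CliqueFree (k + 1 + 1) := by
  classical
  intro s hs
  have hsA : ∀ y ∈ s, y ∈ A := by
    intro y hy
    have h1 : 1 < s.card := by rw [hs.card_eq]; omega
    obtain ⟨z, hz, hzy⟩ := Finset.exists_mem_ne h1 y
    have h2 := hs.isClique (mem_coe.2 hy) (mem_coe.2 hz) hzy.symm
    exact (rs_adj.1 h2).2.1
  have hxs : x ∉ s := fun hx => G.irrefl (hA x (hsA x hx))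
  apply h (insert x s)
  refine ⟨?_, ?_⟩
  · rw [coe_insert]
    intro y hy z hz hyz
    rcases hy with rfl | hy
    · rcases hz with rfl | hz
      · exact absurd rfl hyz
      · exact hA z (hsA z hz)
    · rcases hz with rfl | hz
      · exact (hA y (hsA y hy)).symm
      · exact (rs_adj.1 (hs.isClique hy hz hyz)).1
  · rw [card_insert_of_notMem hxs, hs.card_eq]

open Classical in
/-- the form of the edges inside `A` -/
theorem Q_rs (A : Finset V) (f : V → ℝ) :
    Q (pm (rs G A) w) f = Q (pm G w) (fun v => if v ∈ A then f v else 0) := by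
  unfold Q Bf
  refine sum_congr rfl fun x _ => sum_congr rfl fun y _ => ?_
  rw [pm_rs]
  by_cases hx : x ∈ A <;> by_cases hy : y ∈ A <;> simp [hx, hy]

open Classical in
theorem N2_rs_le (hw : ∀ v, 0 ≤ w v) (A : Finset V) (f : V → ℝ) :
    N2 w (fun v => if v ∈ A then f v else 0) ≤ N2 w f := by
  unfold N2
  refine sum_le_sum fun v _ => mul_le_mul_of_nonneg_left ?_ (hw v)
  dsimp only
  split_ifs
  · exact le_rfl
  · simpa using sq_nonneg (f v)

theorem form_rs (hw : ∀ v, 0 ≤ w v) {e : ℝ} (he : 0 ≤ e)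
    (hq : ∀ f : V → ℝ, -e * N2 w f ≤ Q (pm G w) f) (A : Finset V) (f : V → ℝ) :
    -e * N2 w f ≤ Q (pm (rs G A) w) f := by
  classical
  rw [Q_rs]
  refine le_trans ?_ (hq _)
  have := mul_le_mul_of_nonneg_left (N2_rs_le hw A f) he
  linarith

/-- the operator -/
noncomputable def Ap (G : SimpleGraph V) (w : V → ℝ) (f : V → ℝ) (z : V) : ℝ :=
  (∑ y, pm G w z y * f y) / w z

theorem spec {e : ℝ} (h : Sys G w Δ) (he : 0 ≤ e)
    (hq : ∀ f : V → ℝ, -e * N2 w f ≤ Q (pm G w) f) (f : V → ℝ) (hf : ∀ v, 0 ≤ f v) :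
    N2 w (Ap G w f) ≤ (Δ + e) * (Q (pm G w) f + e * N2 w f) := by
  have hw : ∀ v, 0 ≤ w v := fun v => (h.pos v).le
  have hΔ : 0 < Δ := lt_of_lt_of_le one_pos h.one
  obtain ⟨g, hg⟩ : ∃ g : V → ℝ, g = fun z => Ap G w f z + e * f z := ⟨_, rfl⟩
  have hA0 : ∀ z, 0 ≤ Ap G w f z := fun z =>
    div_nonneg (sum_nonneg fun y _ => mul_nonneg (pm_nonneg hw z y) (hf y)) (hw z)
  have h1 : Bf (pm G w) f g = ∑ z, w z * (Ap G w f z * g z) := by
    unfold Bf
    rw [sum_comm]
    refine sum_congr rfl fun z _ => ?_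
    unfold Ap
    have := h.pos z
    have e1 : w z * ((∑ y, pm G w z y * f y) / w z * g z) = (∑ y, pm G w z y * f y) * g z := by
      field_simp
    rw [e1, sum_mul]
    refine sum_congr rfl fun y _ => ?_
    rw [pm_comm G w z y]
    ring
  have h1' : Bf (pm G w) g f = ∑ z, w z * (Ap G w f z * g z) := by
    rw [← h1]
    unfold Bf
    rw [sum_comm]
    refine sum_congr rfl fun z _ => sum_congr rfl fun y _ => ?_
    rw [pm_comm G w y z]
    ring
  have h2 : N2 w g = ∑ z, w z * (Ap G w f z * g z) + e * ∑ z, w z * (f z * g z) := by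
    unfold N2
    rw [mul_sum, ← sum_add_distrib]
    refine sum_congr rfl fun z _ => ?_
    rw [hg]
    ring
  obtain ⟨t, ht⟩ : ∃ t : ℝ, t = 1 / (Δ + e) := ⟨_, rfl⟩
  have hD : 0 < Δ + e := by linarith
  have htD : t * (Δ + e) = 1 := by
    rw [ht]
    field_simp
  have h3 := hq (fun v => f v + (-t) * g v)
  have h4 := Q_add (pm G w) f g (-t)
  have h5 : N2 w (fun v => f v + (-t) * g v) = N2 w f - 2 * t * ∑ z, w z * (f z * g z) +
      t ^ 2 * N2 w g := by
    unfold N2
    rw [mul_sum, mul_sum, ← sum_sub_distrib, ← sum_add_distrib]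
    exact sum_congr rfl fun z _ => by ring
  rw [h4, h5, h1, h1'] at h3
  have h6 := Q_le h g
  have h7 : 0 ≤ N2 w g := N2_nonneg hw g
  have ht0 : 0 < t := by rw [ht]; positivity
  have h8 : t ^ 2 * Q (pm G w) g ≤ t ^ 2 * (Δ * N2 w g) :=
    mul_le_mul_of_nonneg_left h6 (by positivity)
  have h9 : t * N2 w g ≤ Q (pm G w) f + e * N2 w f := by
    have e1 : t ^ 2 * (Δ * N2 w g) + e * (t ^ 2 * N2 w g) = t * N2 w g := by
      calc t ^ 2 * (Δ * N2 w g) + e * (t ^ 2 * N2 w g) = t * (t * (Δ + e)) * N2 w g := by ring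
        _ = t * N2 w g := by rw [htD, mul_one]
    have e2 : t * (2 * ∑ z, w z * (Ap G w f z * g z)) + e * (2 * t * ∑ z, w z * (f z * g z)) =
        2 * (t * N2 w g) := by
      rw [h2]
      ring
    nlinarith
  have h10 : N2 w g ≤ (Δ + e) * (Q (pm G w) f + e * N2 w f) := by
    have := mul_le_mul_of_nonneg_left h9 hD.le
    calc N2 w g = (t * (Δ + e)) * N2 w g := by rw [htD, one_mul]
      _ = (Δ + e) * (t * N2 w g) := by ring
      _ ≤ _ := this
  refine le_trans ?_ h10
  unfold N2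
  refine sum_le_sum fun z _ => mul_le_mul_of_nonneg_left ?_ (hw z)
  apply pow_le_pow_left₀ (hA0 z)
  rw [hg]
  have := mul_nonneg he (hf z)
  dsimp only
  linarith

/-- few returns -/
theorem light {c e : ℝ} (h : Sys G w Δ) (he : 0 ≤ e) (he1 : e ≤ Δ) (hl1 : lam ≤ 1)
    (hβ : 2 * (c * Δ + e) ≤ β ^ 2 * Δ)
    (hq : ∀ f : V → ℝ, -e * N2 w f ≤ Q (pm G w) f)
    (hin : ∀ x, ∑ y, ∑ z, pm (rs G (Ln G w lam x)) w y z ≤
      c * Δ * ∑ v ∈ Ln G w lam x, w v) (hc : 0 ≤ c) :
    Light G w Δ lam β := by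
  classical
  intro x
  have hw : ∀ v, 0 ≤ w v := fun v => (h.pos v).le
  have hΔ : 0 < Δ := lt_of_lt_of_le one_pos h.one
  obtain ⟨f, hf⟩ : ∃ f : V → ℝ, f = fun y => if y ∈ Ln G w lam x then 1 else 0 := ⟨_, rfl⟩
  have hf0 : ∀ y, 0 ≤ f y := by
    intro y
    rw [hf]
    dsimp only
    split_ifs <;> norm_num
  have h1 := spec h he hq f hf0
  have h2 : Q (pm G w) f = ∑ y, ∑ z, pm (rs G (Ln G w lam x)) w y z := by
    unfold Q Bf
    refine sum_congr rfl fun y _ => sum_congr rfl fun z _ => ?_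
    rw [pm_rs, hf]
    ring
  have h3 : N2 w f = ∑ y ∈ Ln G w lam x, w y := by
    unfold N2
    rw [hf]
    have : ∀ y, w y * (if y ∈ Ln G w lam x then (1 : ℝ) else 0) ^ 2 =
        if y ∈ Ln G w lam x then w y else 0 := by
      intro y
      split_ifs <;> simp
    rw [sum_congr rfl (fun y _ => this y), ← sum_filter]
    congr 1
    ext y
    simp
  have h4 := sum_Ln h hl1 x
  have h5 := hin x
  rw [← h2] at h5
  rw [← h3] at h4 h5
  have h6 : ∀ z, cg G w lam x z ≤ Ap G w f z := by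
    intro z
    unfold Ap
    rw [le_div_iff₀ (h.pos z)]
    have e1 : cg G w lam x z * w z =
        ∑ y ∈ (Ln G w lam x).filter (fun y => z ∈ Ln G w lam y), pm G w z y := by
      unfold cg
      rw [← nsmul_eq_mul, ← sum_const]
      refine sum_congr rfl fun y hy => ?_
      have e2 := mem_Ln.1 (mem_filter.1 hy).2
      rw [pm_adj w e2.1.symm, min_eq_left]
      refine e2.2.trans ?_
      have := mul_le_mul_of_nonneg_right hl1 (hw y)
      linarith
    have e3 : ∑ y, pm G w z y * f y = ∑ y ∈ Ln G w lam x, pm G w z y := by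
      rw [hf]
      have : ∀ y, pm G w z y * (if y ∈ Ln G w lam x then (1 : ℝ) else 0) =
          if y ∈ Ln G w lam x then pm G w z y else 0 := by
        intro y
        split_ifs <;> simp
      rw [sum_congr rfl (fun y _ => this y), ← sum_filter]
      congr 1
      ext y
      simp
    rw [e1, e3]
    exact sum_le_sum_of_subset_of_nonneg (filter_subset _ _) fun y _ _ => pm_nonneg hw z y
  have h7 : ∑ z, w z * cg G w lam x z ^ 2 ≤ N2 w (Ap G w f) := by
    unfold N2
    refine sum_le_sum fun z _ => mul_le_mul_of_nonneg_left ?_ (hw z)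
    apply pow_le_pow_left₀ _ (h6 z)
    unfold cg
    exact Nat.cast_nonneg _
  refine h7.trans (h1.trans ?_)
  have h8 : 0 ≤ N2 w f := N2_nonneg hw f
  have h9 : Q (pm G w) f + e * N2 w f ≤ (c * Δ + e) * N2 w f := by linarith
  have h10 : (c * Δ + e) * N2 w f ≤ (c * Δ + e) * (Δ * w x) :=
    mul_le_mul_of_nonneg_left h4 (by positivity)
  have hwx := h.pos x
  have h11 : 0 ≤ (c * Δ + e) * (Δ * w x) := by positivity
  calc (Δ + e) * (Q (pm G w) f + e * N2 w f) ≤ (Δ + e) * ((c * Δ + e) * (Δ * w x)) :=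
        mul_le_mul_of_nonneg_left (h9.trans h10) (by linarith)
    _ ≤ (2 * Δ) * ((c * Δ + e) * (Δ * w x)) := mul_le_mul_of_nonneg_right (by linarith) h11
    _ = (2 * (c * Δ + e)) * (Δ ^ 2 * w x) := by ring
    _ ≤ (β ^ 2 * Δ) * (Δ ^ 2 * w x) := mul_le_mul_of_nonneg_right hβ (by positivity)
    _ = β ^ 2 * Δ ^ 3 * w x := by ring

end Pool.Agent.U797.DG
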